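import Pool.Agent.R833.ML.Defs

/-! ML-ALG2 (MP_aff8e8_an): pure algebra. helper710. -/

set_option autoImplicit false

namespace R833.ML

namespace ALG2

theorem alg (a sg S Γ W s0 s1 e0 e1 Km Ka Kp : ℂ) (ha : a ≠ 0) (hsg : sg ≠ 0) (hΓ : Γ ≠ 0)
    (hW : W ≠ 0) (hs0 : s0 ≠ 0) (hs1 : s1 ≠ 0) (he0 : e0 ≠ 0) (hne : s1 - s0 ≠ 0)
    (hS : S = -(s1 - s0) ^ 2 / (4 * s0 * s1)) :
    ((1 / a) * (e0 + e1) - sg * W * Ka) ^ 2
      - W * ((1 / a) * (e0 / s0 + e1 / s1) + sg * W * Km) *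
        ((1 / a) * (s0 * e0 + s1 * e1) / W + sg * Kp)
    = -(sg * e0 * Γ * s0) / (a * W) *
      (-(4 * S / (a * sg * Γ)) * (W / s0) * e1 *
          (1 + -(a * sg / (4 * S)) / (W * e0) *
            (W ^ 2 * Km * s1 + 2 * (W ^ 2 * Ka) + W ^ 2 * Kp / s1))
        + (1 + ((W ^ 2 * Km * s0 + 2 * (W ^ 2 * Ka) + W ^ 2 * Kp / s0) / (Γ * s0) - 1
          - (a * sg / Γ) / (W * e0 * s0) *
            ((W ^ 2 * Ka) ^ 2 - (W ^ 2 * Km) * (W ^ 2 * Kp))))) := by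
  subst hS
  field_simp
  ring

theorem s1_eq (a τ : ℝ) : s1 a τ = (τ : ℂ) * (2 * (Real.sin (Real.pi / a) : ℝ) *
    (Real.cos (Real.pi / a) : ℝ) - Complex.I * ((Real.cos (Real.pi / a) : ℝ) ^ 2 -
      (Real.sin (Real.pi / a) : ℝ) ^ 2)) := by
  unfold s1
  rw [Complex.exp_mul_I, ← Complex.ofReal_cos, ← Complex.ofReal_sin]
  have h1 : Real.cos (2 * Real.pi / a - Real.pi / 2) =
      2 * Real.sin (Real.pi / a) * Real.cos (Real.pi / a) := by
    rw [Real.cos_sub_pi_div_two, show 2 * Real.pi / a = 2 * (Real.pi / a) by ring,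
      Real.sin_two_mul]
  have h2 : Real.sin (2 * Real.pi / a - Real.pi / 2) =
      -(Real.cos (Real.pi / a) ^ 2 - Real.sin (Real.pi / a) ^ 2) := by
    rw [Real.sin_sub_pi_div_two, show 2 * Real.pi / a = 2 * (Real.pi / a) by ring,
      Real.cos_two_mul']
  rw [h1, h2]
  simp only [Complex.ofReal_mul, Complex.ofReal_neg, Complex.ofReal_sub, Complex.ofReal_pow,
    Complex.ofReal_ofNat]
  ring

end ALG2

theorem t_ALG2 (h : S_REP2) : S_ALG2 := by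
  intro a τ ha ha2 hτ hM
  obtain ⟨h1, h2, h3⟩ := h a τ ha ha2 hτ
  have ha0 : 0 < a := by linarith
  have hπ := Real.pi_pos
  -- nonvanishing
  have hsin : 0 < Real.sin (Real.pi / a) := by
    apply Real.sin_pos_of_pos_of_lt_pi (by positivity)
    rw [div_lt_iff₀ ha0]
    nlinarith
  have hsg : sg a < 0 := by
    unfold sg
    have h5 : Real.sin (Real.pi * a) < 0 := by
      have e : Real.pi * a = (Real.pi * a - 2 * Real.pi) + 2 * Real.pi := by ring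
      rw [e, Real.sin_add_two_pi]
      apply Real.sin_neg_of_neg_of_neg_pi_lt
      · nlinarith
      · nlinarith
    exact div_neg_of_neg_of_pos h5 hπ
  have hΓ : 0 < Real.Gamma (a - 1) := Real.Gamma_pos_of_pos (by linarith)
  have hWne : W a τ ≠ 0 := by
    unfold W
    have : (0 : ℝ) < τ ^ a := Real.rpow_pos_of_pos hτ a
    exact mul_ne_zero (by exact_mod_cast this.ne') (Complex.exp_ne_zero _)
  have hτc : (τ : ℂ) ≠ 0 := by exact_mod_cast hτ.ne'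
  have hs0 : s0 τ ≠ 0 := by
    unfold s0
    exact neg_ne_zero.2 (mul_ne_zero Complex.I_ne_zero hτc)
  have hs1 : s1 a τ ≠ 0 := by
    unfold s1
    exact mul_ne_zero hτc (Complex.exp_ne_zero _)
  -- the relation
  obtain ⟨c, hc⟩ : ∃ c : ℝ, c = Real.cos (Real.pi / a) := ⟨_, rfl⟩
  obtain ⟨s, hs⟩ : ∃ s : ℝ, s = Real.sin (Real.pi / a) := ⟨_, rfl⟩
  have hcs : (c : ℂ) ^ 2 + (s : ℂ) ^ 2 = 1 := by
    have : c ^ 2 + s ^ 2 = 1 := by rw [hc, hs]; exact Real.cos_sq_add_sin_sq _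
    exact_mod_cast this
  have hs1e := ALG2.s1_eq a τ
  rw [← hc, ← hs] at hs1e
  have hs0e : s0 τ = -(Complex.I * τ) := rfl
  have hdiff : s1 a τ - s0 τ = 2 * s * τ * (c + Complex.I * s) := by
    rw [hs1e, hs0e]
    linear_combination (-Complex.I * τ) * hcs
  have hprod : s0 τ * s1 a τ = -(τ : ℂ) ^ 2 * (c + Complex.I * s) ^ 2 := by
    rw [hs1e, hs0e]
    linear_combination ((τ : ℂ) ^ 2 * c ^ 2) * Complex.I_sq
  have hs_pos : 0 < s := by rw [hs]; exact hsin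
  have hsc : (s : ℂ) ≠ 0 := by exact_mod_cast hs_pos.ne'
  have hprod0 : s0 τ * s1 a τ ≠ 0 := mul_ne_zero hs0 hs1
  have hcis : (c : ℂ) + Complex.I * s ≠ 0 := by
    intro h0
    rw [h0] at hprod
    apply hprod0
    rw [hprod]
    ring
  have hne : s1 a τ - s0 τ ≠ 0 := by
    rw [hdiff]
    exact mul_ne_zero (mul_ne_zero (mul_ne_zero two_ne_zero hsc) hτc) hcis
  have hS : (((s ^ 2 : ℝ)) : ℂ) = -(s1 a τ - s0 τ) ^ 2 / (4 * s0 τ * s1 a τ) := by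
    rw [eq_div_iff (by
      rw [mul_assoc]; exact mul_ne_zero (by norm_num) hprod0)]
    rw [hdiff, mul_assoc (4 : ℂ), hprod]
    push_cast
    ring
  have key := ALG2.alg (a : ℂ) (sg a : ℂ) ((s ^ 2 : ℝ) : ℂ) ((Real.Gamma (a - 1) : ℝ) : ℂ)
    (W a τ) (s0 τ) (s1 a τ) (Complex.exp (s0 τ)) (Complex.exp (s1 a τ))
    (K (a - 1) a (W a τ)) (K a a (W a τ)) (K (a + 1) a (W a τ))
    (by exact_mod_cast ha0.ne') (by exact_mod_cast hsg.ne) (by exact_mod_cast hΓ.ne') hWne hs0 hs1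
    (Complex.exp_ne_zero _) hne hS
  have hpsi : psi a (τ ^ a) = E a 1 (W a τ) ^ 2 - W a τ * E a 2 (W a τ) * E a a (W a τ) := by
    have hw : Complex.exp (-((Real.pi * a / 2 : ℝ) : ℂ) * Complex.I) * ((τ ^ a : ℝ) : ℂ) =
        W a τ := mul_comm _ _
    unfold psi
    rw [hw]
  have hM2 : M2 a τ = -(4 * ((s ^ 2 : ℝ) : ℂ) / ((a : ℂ) * (sg a : ℂ) *
      ((Real.Gamma (a - 1) : ℝ) : ℂ))) * (W a τ / s0 τ) * Complex.exp (s1 a τ) := by
    unfold M2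
    rw [hs]
    simp only [Complex.ofReal_mul, Complex.ofReal_div, Complex.ofReal_pow, Complex.ofReal_ofNat]
  have heta : eta a τ = -((a : ℂ) * (sg a : ℂ) / (4 * ((s ^ 2 : ℝ) : ℂ))) /
      (W a τ * Complex.exp (s0 τ)) * (W a τ ^ 2 * K (a - 1) a (W a τ) * s1 a τ +
        2 * (W a τ ^ 2 * K a a (W a τ)) + W a τ ^ 2 * K (a + 1) a (W a τ) / s1 a τ) := by
    unfold eta kk
    rw [hs]
    simp only [Complex.ofReal_mul, Complex.ofReal_div, Complex.ofReal_pow, Complex.ofReal_ofNat]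
  have hdel : del a τ = (W a τ ^ 2 * K (a - 1) a (W a τ) * s0 τ +
        2 * (W a τ ^ 2 * K a a (W a τ)) + W a τ ^ 2 * K (a + 1) a (W a τ) / s0 τ) /
        (((Real.Gamma (a - 1) : ℝ) : ℂ) * s0 τ) - 1
      - ((a : ℂ) * (sg a : ℂ) / ((Real.Gamma (a - 1) : ℝ) : ℂ)) /
        (W a τ * Complex.exp (s0 τ) * s0 τ) *
        ((W a τ ^ 2 * K a a (W a τ)) ^ 2 - (W a τ ^ 2 * K (a - 1) a (W a τ)) *
          (W a τ ^ 2 * K (a + 1) a (W a τ))) := by
    unfold del kk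
    simp only [Complex.ofReal_mul, Complex.ofReal_div]
  rw [← hM2, ← heta, ← hdel, hM] at key
  rw [hpsi, h1, h2, h3, key]
  ring

end R833.ML
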