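import Pool.Agent.R833.ML.Defs

/-!
Project ML, piece BD2: smallness of `eta` and `del`.
-/

set_option autoImplicit false

namespace R833.ML.BD2

open R833.ML

lemma norm_W {a τ : ℝ} (hτ : 0 < τ) : ‖W a τ‖ = τ ^ a := by
  unfold W
  have h1 : -((Real.pi * a / 2 : ℝ) : ℂ) * Complex.I =
      ((-(Real.pi * a / 2) : ℝ) : ℂ) * Complex.I := by push_cast; ring
  rw [h1, norm_mul, Complex.norm_exp_ofReal_mul_I, mul_one, Complex.norm_real,
    Real.norm_of_nonneg (Real.rpow_nonneg hτ.le _)]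

lemma norm_s0 {τ : ℝ} (hτ : 0 < τ) : ‖s0 τ‖ = τ := by
  unfold s0
  rw [norm_neg, norm_mul, Complex.norm_I, one_mul, Complex.norm_real,
    Real.norm_of_nonneg hτ.le]

lemma norm_s1 {a τ : ℝ} (hτ : 0 < τ) : ‖s1 a τ‖ = τ := by
  unfold s1
  rw [norm_mul, Complex.norm_exp_ofReal_mul_I, mul_one, Complex.norm_real,
    Real.norm_of_nonneg hτ.le]

lemma norm_e0 (τ : ℝ) : ‖Complex.exp (s0 τ)‖ = 1 := by
  have h1 : s0 τ = ((-τ : ℝ) : ℂ) * Complex.I := by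
    unfold s0
    push_cast
    ring
  rw [h1, Complex.norm_exp_ofReal_mul_I]

lemma sg_le {a : ℝ} (h1 : 19 / 10 ≤ a) (h2 : a < 2) : |sg a| ≤ 1 / 10 := by
  unfold sg
  have hpi := Real.pi_pos
  have h3 : Real.sin (Real.pi * a) = -Real.sin (Real.pi * (2 - a)) := by
    have : Real.pi * a = -(Real.pi * (2 - a)) + 2 * Real.pi := by ring
    rw [this, Real.sin_add_two_pi, Real.sin_neg]
  have h4 : 0 ≤ Real.sin (Real.pi * (2 - a)) := by
    apply Real.sin_nonneg_of_nonneg_of_le_pi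
    · nlinarith
    · nlinarith
  have h5 : Real.sin (Real.pi * (2 - a)) ≤ Real.pi * (2 - a) :=
    Real.sin_le (by nlinarith)
  rw [h3, abs_div, abs_neg, abs_of_nonneg h4, abs_of_pos hpi, div_le_iff₀ hpi]
  nlinarith

lemma sin_ge {a : ℝ} (h1 : 19 / 10 ≤ a) (h2 : a < 2) : 9 / 10 ≤ Real.sin (Real.pi / a) ^ 2 := by
  have hpi := Real.pi_pos
  have hpi2 := Real.pi_lt_d2
  have ha : 0 < a := by linarith
  have h3 : Real.sin (Real.pi / a) = Real.cos (Real.pi / a - Real.pi / 2) := by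
    rw [Real.cos_sub_pi_div_two]
  have h4 : Real.pi / a - Real.pi / 2 = Real.pi * (2 - a) / (2 * a) := by
    field_simp
  have h5 : 0 ≤ Real.pi * (2 - a) / (2 * a) := by
    apply div_nonneg
    · nlinarith
    · linarith
  have h6 : Real.pi * (2 - a) / (2 * a) ≤ 1 / 10 := by
    rw [div_le_iff₀ (by linarith)]
    nlinarith
  have h7 := Real.one_sub_sq_div_two_le_cos (x := Real.pi * (2 - a) / (2 * a))
  rw [h3, h4]
  have h8 : (Real.pi * (2 - a) / (2 * a)) ^ 2 ≤ 1 / 100 := by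
    nlinarith
  have h9 : 99 / 100 ≤ Real.cos (Real.pi * (2 - a) / (2 * a)) := by linarith
  nlinarith

lemma pow_bounds {a τ : ℝ} (h1 : 19 / 10 ≤ a) (hτ : 100 ≤ τ) :
    6000 ≤ τ ^ a ∧ 60 * τ ≤ τ ^ a := by
  have h0 : (0 : ℝ) < τ := by linarith
  have h2 : τ ^ (19 / 10 : ℝ) ≤ τ ^ a := Real.rpow_le_rpow_of_exponent_le (by linarith) h1
  have h3 : τ ^ (19 / 10 : ℝ) = τ * τ ^ (9 / 10 : ℝ) := by
    rw [show (19 / 10 : ℝ) = 1 + 9 / 10 by norm_num, Real.rpow_add h0, Real.rpow_one]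
  have h4 : (100 : ℝ) ^ (9 / 10 : ℝ) ≤ τ ^ (9 / 10 : ℝ) :=
    Real.rpow_le_rpow (by norm_num) hτ (by norm_num)
  have h5 : (60 : ℝ) ≤ (100 : ℝ) ^ (9 / 10 : ℝ) := by
    have h6 : ((60 : ℝ) ^ (10 : ℕ)) ^ (1 / 10 : ℝ) ≤ ((100 : ℝ) ^ (9 : ℕ)) ^ (1 / 10 : ℝ) :=
      Real.rpow_le_rpow (by norm_num) (by norm_num) (by norm_num)
    have h7 : ((60 : ℝ) ^ (10 : ℕ)) ^ (1 / 10 : ℝ) = 60 := by
      rw [← Real.rpow_natCast, ← Real.rpow_mul (by norm_num)]
      norm_num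
    have h8 : ((100 : ℝ) ^ (9 : ℕ)) ^ (1 / 10 : ℝ) = (100 : ℝ) ^ (9 / 10 : ℝ) := by
      rw [← Real.rpow_natCast, ← Real.rpow_mul (by norm_num)]
      norm_num
    rwa [h7, h8] at h6
  have h9 : 60 ≤ τ ^ (9 / 10 : ℝ) := h5.trans h4
  rw [h3] at h2
  constructor <;> nlinarith

lemma kbound {k : ℂ} {g e G : ℝ} (h : ‖k - (g : ℂ)‖ ≤ e) (hg : 0 ≤ g) (hG : g + e ≤ G) :
    ‖k‖ ≤ G := by
  have h1 : ‖k‖ ≤ ‖k - (g : ℂ)‖ + ‖(g : ℂ)‖ := by
    have := norm_add_le (k - (g : ℂ)) (g : ℂ)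
    rwa [sub_add_cancel] at this
  rw [Complex.norm_real, Real.norm_of_nonneg hg] at h1
  linarith

end R833.ML.BD2

open R833.ML R833.ML.BD2 in
theorem R833.ML.t_BD2 : S_EST2 → S_G2 → S_BD2 := by
  intro hE hG a τ ha1 ha2 hτ
  have hτ0 : 0 < τ := by linarith
  obtain ⟨y1, y2⟩ := pow_bounds ha1 hτ
  obtain ⟨g1, g2, g3, g4, g5, g6, _⟩ := hG a ha1 ha2
  set y := τ ^ a with hy
  have hy0 : 0 < y := by linarith
  have he : 60 / y ≤ 1 / 100 := by
    rw [div_le_div_iff₀ hy0 (by norm_num)]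
    linarith
  have E1 : ‖kk (a - 1) a τ - (Real.Gamma (a - 1) : ℝ)‖ ≤ 1 / 100 :=
    (hE a (a - 1) τ ha1 ha2 (by linarith) (Or.inl rfl)).trans he
  have E2 : ‖kk a a τ - (Real.Gamma a : ℝ)‖ ≤ 1 / 100 :=
    (hE a a τ ha1 ha2 (by linarith) (Or.inr (Or.inl rfl))).trans he
  have E3 : ‖kk (a + 1) a τ - (Real.Gamma (a + 1) : ℝ)‖ ≤ 1 / 100 :=
    (hE a (a + 1) τ ha1 ha2 (by linarith) (Or.inr (Or.inr rfl))).trans he
  have K1 : ‖kk (a - 1) a τ‖ ≤ 5 / 4 := kbound E1 (by linarith) (by linarith)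
  have K2 : ‖kk a a τ‖ ≤ 5 / 4 := kbound E2 g3.le (by linarith)
  have K3 : ‖kk (a + 1) a τ‖ ≤ 5 / 2 := kbound E3 g5.le (by linarith)
  have nW : ‖W a τ‖ = y := norm_W hτ0
  have n0 : ‖s0 τ‖ = τ := norm_s0 hτ0
  have n1 : ‖s1 a τ‖ = τ := norm_s1 hτ0
  have ne : ‖Complex.exp (s0 τ)‖ = 1 := norm_e0 τ
  have hsg := sg_le ha1 ha2
  have hsin := sin_ge ha1 ha2
  have hs0 : s0 τ ≠ 0 := by
    intro h
    rw [h, norm_zero] at n0
    linarith
  have hq : 5 / 2 / τ ≤ 1 / 40 := by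
    rw [div_le_div_iff₀ hτ0 (by norm_num)]
    linarith
  have hasg : |a * sg a| ≤ 1 / 5 := by
    rw [abs_mul, abs_of_pos (by linarith : (0 : ℝ) < a)]
    nlinarith [abs_nonneg (sg a)]
  constructor
  · -- eta
    unfold eta
    rw [norm_mul, norm_div, norm_neg, Complex.norm_real, norm_mul (W a τ), nW, ne, mul_one,
      Real.norm_eq_abs, abs_div]
    have c1 : |a * sg a| / |4 * Real.sin (Real.pi / a) ^ 2| ≤ 1 / 18 := by
      rw [abs_of_nonneg (by positivity : (0 : ℝ) ≤ 4 * Real.sin (Real.pi / a) ^ 2),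
        div_le_div_iff₀ (by nlinarith) (by norm_num)]
      nlinarith
    have c2 : ‖kk (a - 1) a τ * s1 a τ + 2 * kk a a τ + kk (a + 1) a τ / s1 a τ‖ ≤ 2 * τ := by
      refine (norm_add₃_le).trans ?_
      rw [norm_mul, norm_mul, norm_div, n1, Complex.norm_ofNat]
      have c3 : ‖kk (a + 1) a τ‖ / τ ≤ 5 / 2 / τ := div_le_div_of_nonneg_right K3 hτ0.le
      nlinarith
    have c4 : 0 ≤ |a * sg a| / |4 * Real.sin (Real.pi / a) ^ 2| := by positivity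
    calc |a * sg a| / |4 * Real.sin (Real.pi / a) ^ 2| / y *
          ‖kk (a - 1) a τ * s1 a τ + 2 * kk a a τ + kk (a + 1) a τ / s1 a τ‖
        ≤ 1 / 18 / y * (2 * τ) := by
          gcongr
      _ ≤ 1 / 10 := by
          rw [div_mul_eq_mul_div, div_le_iff₀ hy0]
          linarith
  · -- del
    have hg0 : (Real.Gamma (a - 1) : ℝ) ≠ 0 := by linarith
    have hgc : ((Real.Gamma (a - 1) : ℝ) : ℂ) ≠ 0 := by exact_mod_cast hg0
    have d1 : (kk (a - 1) a τ * s0 τ + 2 * kk a a τ + kk (a + 1) a τ / s0 τ) /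
        ((Real.Gamma (a - 1) : ℝ) * s0 τ) - 1 =
        (kk (a - 1) a τ - (Real.Gamma (a - 1) : ℝ)) / (Real.Gamma (a - 1) : ℝ) +
        (2 * kk a a τ + kk (a + 1) a τ / s0 τ) / ((Real.Gamma (a - 1) : ℝ) * s0 τ) := by
      field_simp
      ring
    have d2 : ‖(kk (a - 1) a τ - (Real.Gamma (a - 1) : ℝ)) / ((Real.Gamma (a - 1) : ℝ) : ℂ)‖ ≤
        1 / 100 := by
      rw [norm_div, Complex.norm_real, Real.norm_of_nonneg (by linarith), div_le_iff₀ (by linarith)]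
      linarith
    have d3 : ‖(2 * kk a a τ + kk (a + 1) a τ / s0 τ) / ((Real.Gamma (a - 1) : ℝ) * s0 τ)‖ ≤
        3 / 100 := by
      rw [norm_div, norm_mul ((Real.Gamma (a - 1) : ℝ) : ℂ), Complex.norm_real,
        Real.norm_of_nonneg (by linarith : 0 ≤ Real.Gamma (a - 1)), n0,
        div_le_iff₀ (by positivity)]
      refine (norm_add_le _ _).trans ?_
      rw [norm_mul, norm_div, n0, Complex.norm_ofNat]
      have c3 : ‖kk (a + 1) a τ‖ / τ ≤ 5 / 2 / τ := div_le_div_of_nonneg_right K3 hτ0.le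
      nlinarith
    have d4 : ‖((a * sg a / Real.Gamma (a - 1) : ℝ) : ℂ) / (W a τ * Complex.exp (s0 τ) * s0 τ) *
        (kk a a τ ^ 2 - kk (a - 1) a τ * kk (a + 1) a τ)‖ ≤ 1 / 100 := by
      rw [norm_mul, norm_div, norm_mul (W a τ * Complex.exp (s0 τ)), norm_mul (W a τ), nW, ne, n0,
        mul_one, Complex.norm_real, Real.norm_eq_abs, abs_div,
        abs_of_pos (by linarith : 0 < Real.Gamma (a - 1))]
      have c5 : |a * sg a| / Real.Gamma (a - 1) ≤ 1 / 5 := by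
        rw [div_le_iff₀ (by linarith)]
        nlinarith
      have c6 : ‖kk a a τ ^ 2 - kk (a - 1) a τ * kk (a + 1) a τ‖ ≤ 5 := by
        refine (norm_sub_le _ _).trans ?_
        rw [norm_pow, norm_mul]
        have q1 : ‖kk a a τ‖ ^ 2 ≤ (5 / 4) ^ 2 := pow_le_pow_left₀ (norm_nonneg _) K2 2
        have q2 : ‖kk (a - 1) a τ‖ * ‖kk (a + 1) a τ‖ ≤ 5 / 4 * (5 / 2) :=
          mul_le_mul K1 K3 (norm_nonneg _) (by norm_num)
        norm_num at q1 q2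
        linarith
      calc |a * sg a| / Real.Gamma (a - 1) / (y * τ) *
            ‖kk a a τ ^ 2 - kk (a - 1) a τ * kk (a + 1) a τ‖
          ≤ 1 / 5 / (y * τ) * 5 := by
            gcongr
        _ ≤ 1 / 100 := by
            rw [div_mul_eq_mul_div, div_le_iff₀ (by positivity)]
            have q4 : 6000 * 100 ≤ y * τ := mul_le_mul y1 hτ (by norm_num) hy0.le
            linarith
    unfold del
    rw [d1]
    refine (norm_sub_le _ _).trans ?_
    have d5 := norm_add_le ((kk (a - 1) a τ - (Real.Gamma (a - 1) : ℝ)) /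
      ((Real.Gamma (a - 1) : ℝ) : ℂ))
      ((2 * kk a a τ + kk (a + 1) a τ / s0 τ) / ((Real.Gamma (a - 1) : ℝ) * s0 τ))
    linarith
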