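import Mathlib

/-!
Project ML (helper833): zeros of Mittag-Leffler functions.  Definitions.
-/

set_option autoImplicit false

namespace R833.ML

open MeasureTheory

/-- The two-parameter Mittag-Leffler function. -/
noncomputable def E (a b : ℝ) (z : ℂ) : ℂ :=
  ∑' k : ℕ, z ^ k / ((Real.Gamma (a * k + b) : ℝ) : ℂ)

/-- The weight `exp (-exp t) * exp (c t)`; its integral over the line is `Γ(c)`. -/
noncomputable def wt (c t : ℝ) : ℝ := Real.exp (-Real.exp t) * Real.exp (c * t)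

/-- Hankel representation of `1/Γ(w)`, with a vertical segment of abscissa `x` (in logarithmic
coordinates) and a half line. -/
noncomputable def h (w x : ℝ) : ℂ :=
  (1 / (2 * Real.pi) : ℂ) * (∫ θ in (-Real.pi)..Real.pi,
      Complex.exp (Complex.exp (x + θ * Complex.I)) *
        Complex.exp ((1 - w : ℂ) * (x + θ * Complex.I)))
    + (((Real.sin (Real.pi * w) / Real.pi) * ∫ t in Set.Ioi x, wt (1 - w) t : ℝ) : ℂ)

/-- `Z` is the set of all solutions of `exp (a ζ) = w` in the closed strip `|Im ζ| ≤ π`, and all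
of them lie in the open strip. -/
def Poles (a : ℝ) (w : ℂ) (Z : Finset ℂ) : Prop :=
  (∀ p ∈ Z, Complex.exp (a * p) = w ∧ |p.im| < Real.pi) ∧
    (∀ p : ℂ, |p.im| ≤ Real.pi → Complex.exp (a * p) = w → p ∈ Z)

/-- The integrand of the Hankel representation of `E a b w` in logarithmic coordinates. -/
noncomputable def A (a b : ℝ) (w ζ : ℂ) : ℂ :=
  Complex.exp (Complex.exp ζ) * Complex.exp ((1 - b : ℂ) * ζ) * Complex.exp (a * ζ) /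
    (Complex.exp (a * ζ) - w)

/-- A `2πi`-periodic function with the same simple pole as `A` at `p`. -/
noncomputable def B (a b : ℝ) (p ζ : ℂ) : ℂ :=
  Complex.exp ((1 - b : ℂ) * p) * (Complex.exp (Complex.exp ζ) * Complex.exp ζ) /
    (a * (Complex.exp ζ - Complex.exp p))

/-- `A` minus the singular parts. -/
noncomputable def G (a b : ℝ) (w : ℂ) (Z : Finset ℂ) (ζ : ℂ) : ℂ :=
  A a b w ζ - ∑ p ∈ Z, B a b p ζ

/-- Mean value of `f` over the vertical segment of abscissa `x`, `|Im| ≤ π`. -/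
noncomputable def mv (f : ℂ → ℂ) (x : ℝ) : ℂ :=
  (1 / (2 * Real.pi) : ℂ) * ∫ θ in (-Real.pi)..Real.pi, f (x + θ * Complex.I)

/-- The denominator `(e^{at} e^{iπa} - w)(e^{at} e^{-iπa} - w)`. -/
noncomputable def Den (a : ℝ) (w : ℂ) (t : ℝ) : ℂ :=
  ((Real.exp (2 * a * t) : ℝ) : ℂ)
    - 2 * w * ((Real.exp (a * t) * Real.cos (Real.pi * a) : ℝ) : ℂ) + w ^ 2

/-- The jump integrand. -/
noncomputable def Jf (a b : ℝ) (w : ℂ) (t : ℝ) : ℂ :=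
  ((wt (1 - b + a) t : ℝ) : ℂ) *
    (w * ((Real.sin (Real.pi * (1 - b + a)) : ℝ) : ℂ)
      - ((Real.exp (a * t) * Real.sin (Real.pi * (1 - b)) : ℝ) : ℂ)) / Den a w t

/-- The integrals `∫ wt c / Den`. -/
noncomputable def K (c a : ℝ) (w : ℂ) : ℂ := ∫ t : ℝ, ((wt c t : ℝ) : ℂ) / Den a w t

/-! ### Library pieces -/

/-- GAM -/
def S_GAM : Prop := ∀ c : ℝ, 0 < c →
  Integrable (fun t : ℝ => wt c t) ∧ ∫ t : ℝ, wt c t = Real.Gamma c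

/-- HK1: `h w` does not depend on the abscissa (rectangle theorem). -/
def S_HK1 : Prop := ∀ w x₁ x₂ : ℝ, h w x₁ = h w x₂

/-- HK2: limit for `0 < w < 1` (reflection formula). -/
def S_HK2 : Prop := ∀ w : ℝ, 0 < w → w < 1 →
  Filter.Tendsto (fun x : ℝ => h w x) Filter.atBot (nhds (((1 / Real.Gamma w : ℝ)) : ℂ))

/-- HK3: recurrence (integration by parts). -/
def S_HK3 : Prop := ∀ w x : ℝ, 0 < w → h w x = (w : ℂ) * h (w + 1) x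

/-- HK: Hankel's formula. -/
def S_HK : Prop := ∀ w x : ℝ, 0 < w → h w x = ((1 / Real.Gamma w : ℝ) : ℂ)

/-- RECT: the rectangle theorem for `G` (removable singularities at the points of `Z`). -/
def S_RECT : Prop := ∀ (a b : ℝ) (w : ℂ) (Z : Finset ℂ), 0 < a → w ≠ 0 → Poles a w Z →
  ∀ x₁ x₂ : ℝ, Real.exp (a * x₁) < ‖w‖ → ‖w‖ < Real.exp (a * x₂) →
    mv (G a b w Z) x₂ = mv (G a b w Z) x₁ - (1 / Real.pi : ℂ) * ∫ t in x₁..x₂, Jf a b w t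

/-- LIMB: the limit of the left vertical side. -/
def S_LIMB : Prop := ∀ (a b : ℝ) (w : ℂ) (Z : Finset ℂ), 0 < a → 0 < 1 - b + a → w ≠ 0 →
  Filter.Tendsto (fun x : ℝ => mv (G a b w Z) x) Filter.atBot (nhds 0)

/-- CIRC: Cauchy's formula on a circle in logarithmic coordinates. -/
def S_CIRC : Prop := ∀ (p : ℂ) (x : ℝ), p.re < x →
  mv (fun ζ => Complex.exp (Complex.exp ζ) * Complex.exp ζ / (Complex.exp ζ - Complex.exp p)) x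
    = Complex.exp (Complex.exp p)

/-- INTJ: the jump integrand is integrable and the denominator does not vanish. -/
def S_INTJ : Prop := ∀ (a b : ℝ) (w : ℂ) (Z : Finset ℂ), 0 < a → 0 < 1 - b + a → w ≠ 0 →
  Poles a w Z → Integrable (fun t : ℝ => Jf a b w t) ∧ ∀ t : ℝ, Den a w t ≠ 0

/-- SER: the right vertical side, by expansion in a geometric series. -/
def S_SER : Prop := ∀ (a b : ℝ) (w : ℂ), 0 < a → 0 < b → ∀ x : ℝ, ‖w‖ < Real.exp (a * x) →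
  mv (A a b w) x = E a b w + (1 / Real.pi : ℂ) * ∫ t in Set.Ioi x, Jf a b w t

/-- REPG: the representation of the Mittag-Leffler function. -/
def S_REPG : Prop := ∀ (a b : ℝ) (w : ℂ) (Z : Finset ℂ), 0 < a → 0 < b → 0 < 1 - b + a → w ≠ 0 →
  Poles a w Z →
    E a b w = (1 / a : ℂ) * ∑ p ∈ Z, Complex.exp ((1 - b : ℂ) * p) * Complex.exp (Complex.exp p)
      - (1 / Real.pi : ℂ) * ∫ t : ℝ, Jf a b w t

/-- TOP: a two-dimensional intermediate value lemma (Poincare-Miranda). -/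
def S_TOP : Prop := ∀ (α₀ α₁ : ℝ) (P : ℝ × ℝ → ℝ) (δ : ℝ × ℝ → ℂ), α₀ ≤ α₁ →
  ContinuousOn P (Set.Icc α₀ α₁ ×ˢ Set.Icc (-(Real.pi / 4)) (Real.pi / 4)) →
  ContinuousOn δ (Set.Icc α₀ α₁ ×ˢ Set.Icc (-(Real.pi / 4)) (Real.pi / 4)) →
  (∀ q ∈ Set.Icc α₀ α₁ ×ˢ Set.Icc (-(Real.pi / 4)) (Real.pi / 4), 0 < P q ∧ ‖δ q‖ ≤ 1 / 4) →
  (∀ θ ∈ Set.Icc (-(Real.pi / 4)) (Real.pi / 4), P (α₀, θ) ≤ 1 / 10) →
  (∀ θ ∈ Set.Icc (-(Real.pi / 4)) (Real.pi / 4), 10 ≤ P (α₁, θ)) →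
  ∃ α ∈ Set.Icc α₀ α₁, ∃ θ ∈ Set.Icc (-(Real.pi / 4)) (Real.pi / 4),
    (P (α, θ) : ℂ) * Complex.exp (θ * Complex.I) = 1 + δ (α, θ)

/-! ### Pieces for MP_ff8adc_an: `9/10 ≤ a < 1`, `z = i y`, `y = τ ^ a` -/

/-- G1: elementary inequalities for the Gamma function. -/
def S_G1 : Prop := ∀ a : ℝ, 9 / 10 ≤ a → a < 1 →
  1 ≤ Real.Gamma a ∧ Real.Gamma (2 * a) ≤ 1 ∧ a * Real.Gamma a ≤ 1

/-- DEN1: lower bound of the denominator. -/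
def S_DEN1 : Prop := ∀ a y t : ℝ, 9 / 10 ≤ a → a ≤ 1 → 0 < y →
  (19 / 20) * (Real.exp (2 * a * t) + y ^ 2) ≤ ‖Den a (Complex.I * y) t‖

/-- REP1: the representation on the imaginary axis. -/
def S_REP1 : Prop := ∀ a τ : ℝ, 9 / 10 ≤ a → a < 1 → 0 < τ →
  E a 1 (Complex.I * ((τ ^ a : ℝ) : ℂ)) =
    (1 / a : ℂ) * Complex.exp (τ * Complex.exp ((Real.pi / (2 * a) : ℝ) * Complex.I))
      - ((Real.sin (Real.pi * a) / Real.pi : ℝ) : ℂ) * (Complex.I * ((τ ^ a : ℝ) : ℂ)) *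
        K a a (Complex.I * ((τ ^ a : ℝ) : ℂ))

/-- DEL1: first order asymptotics of `K a a (i y)`, uniformly in `a`. -/
def S_DEL1 : Prop := ∀ a y : ℝ, 9 / 10 ≤ a → a < 1 → 1 ≤ y →
  ‖-((y ^ 2 / Real.Gamma a : ℝ) : ℂ) * K a a (Complex.I * y) - 1‖ ≤ 3 / y

/-- CONT1: continuity of `K a a (i y)`. -/
def S_CONT1 : Prop := ContinuousOn (fun q : ℝ × ℝ => K q.1 q.1 (Complex.I * q.2))
  (Set.Icc (9 / 10) 1 ×ˢ Set.Ioi 0)

/-- the modulus `P₁ = π τ^a / (a Γ(a) sin πa) * exp (τ cos (π/(2a)))` -/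
noncomputable def P1 (a τ : ℝ) : ℝ :=
  Real.pi * τ ^ a / (a * Real.Gamma a * Real.sin (Real.pi * a)) *
    Real.exp (τ * Real.cos (Real.pi / (2 * a)))

/-- PA1: at `a = 9/10` the modulus tends to `0`. -/
def S_PA1 : Prop := Filter.Tendsto (fun τ : ℝ => P1 (9 / 10) τ) Filter.atTop (nhds 0)

/-- PB1: near `a = 1` the modulus is large. -/
def S_PB1 : Prop := ∀ T : ℝ, 1 ≤ T → ∃ a : ℝ, 9 / 10 < a ∧ a < 1 ∧
  ∀ τ : ℝ, 1 ≤ τ → τ ≤ T → 10 ≤ P1 a τ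

/-- FIN1: the negative answer to MP_ff8adc_an. -/
def S_FIN1 : Prop := ∃ a : ℝ, 3 / 5 < a ∧ a < 1 ∧ ∃ t : ℝ, E a 1 (Complex.I * t) = 0

/-! ### Pieces for MP_aff8e8_an: `19/10 ≤ a < 2`, `w = τ ^ a * exp (-iπa/2)` -/

/-- the argument `w = (-iτ)^a` -/
noncomputable def W (a τ : ℝ) : ℂ :=
  ((τ ^ a : ℝ) : ℂ) * Complex.exp (-((Real.pi * a / 2 : ℝ) : ℂ) * Complex.I)

/-- `s₀ = -iτ` -/
noncomputable def s0 (τ : ℝ) : ℂ := -(Complex.I * τ)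

/-- `s₁ = τ exp (i (2π/a - π/2))` -/
noncomputable def s1 (a τ : ℝ) : ℂ :=
  (τ : ℂ) * Complex.exp (((2 * Real.pi / a - Real.pi / 2 : ℝ) : ℂ) * Complex.I)

/-- `σ = sin (πa) / π`, negative for `1 < a < 2`. -/
noncomputable def sg (a : ℝ) : ℝ := Real.sin (Real.pi * a) / Real.pi

/-- the function of the problem at `t = τ ^ a` -/
noncomputable def psi (a t : ℝ) : ℂ :=
  E a 1 (Complex.exp (-((Real.pi * a / 2 : ℝ) : ℂ) * Complex.I) * t) ^ 2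
    - Complex.exp (-((Real.pi * a / 2 : ℝ) : ℂ) * Complex.I) * t *
      E a 2 (Complex.exp (-((Real.pi * a / 2 : ℝ) : ℂ) * Complex.I) * t) *
      E a a (Complex.exp (-((Real.pi * a / 2 : ℝ) : ℂ) * Complex.I) * t)

/-- REP2: the three representations (`s^{1-a} = s / w` for `s = s₀, s₁`). -/
def S_REP2 : Prop := ∀ a τ : ℝ, 19 / 10 ≤ a → a < 2 → 0 < τ →
  E a 1 (W a τ) = (1 / a : ℂ) * (Complex.exp (s0 τ) + Complex.exp (s1 a τ))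
      - (sg a : ℂ) * W a τ * K a a (W a τ) ∧
  E a 2 (W a τ) = (1 / a : ℂ) * (Complex.exp (s0 τ) / s0 τ + Complex.exp (s1 a τ) / s1 a τ)
      + (sg a : ℂ) * W a τ * K (a - 1) a (W a τ) ∧
  E a a (W a τ) = (1 / a : ℂ) *
        (s0 τ * Complex.exp (s0 τ) + s1 a τ * Complex.exp (s1 a τ)) / W a τ
      + (sg a : ℂ) * K (a + 1) a (W a τ)

/-- DEN2: lower bound of the denominator. -/
def S_DEN2 : Prop := ∀ a τ t : ℝ, 19 / 10 ≤ a → a ≤ 2 → 0 < τ →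
  Real.exp (2 * a * t) + (τ ^ a) ^ 2 ≤ ‖Den a (W a τ) t‖

/-- EST2: asymptotics of the three integrals. -/
def S_EST2 : Prop := ∀ a c τ : ℝ, 19 / 10 ≤ a → a < 2 → 1 ≤ τ → (c = a - 1 ∨ c = a ∨ c = a + 1) →
  ‖W a τ ^ 2 * K c a (W a τ) - (Real.Gamma c : ℝ)‖ ≤ 60 / τ ^ a

/-- CONT2: continuity of the three integrals (`e = -1, 0, 1`). -/
def S_CONT2 : Prop := ∀ e : ℝ, -1 ≤ e → e ≤ 1 →
  ContinuousOn (fun q : ℝ × ℝ => K (q.1 + e) q.1 (W q.1 q.2)) (Set.Icc (19 / 10) 2 ×ˢ Set.Ioi 0)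

/-- `k_c = W² K c` -/
noncomputable def kk (c a τ : ℝ) : ℂ := W a τ ^ 2 * K c a (W a τ)

/-- `M` -/
noncomputable def M2 (a τ : ℝ) : ℂ :=
  -((4 * Real.sin (Real.pi / a) ^ 2 / (a * sg a * Real.Gamma (a - 1)) : ℝ) : ℂ) *
    (W a τ / s0 τ) * Complex.exp (s1 a τ)

/-- `η` -/
noncomputable def eta (a τ : ℝ) : ℂ :=
  -((a * sg a / (4 * Real.sin (Real.pi / a) ^ 2) : ℝ) : ℂ) / (W a τ * Complex.exp (s0 τ)) *
    (kk (a - 1) a τ * s1 a τ + 2 * kk a a τ + kk (a + 1) a τ / s1 a τ)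

/-- `δ` -/
noncomputable def del (a τ : ℝ) : ℂ :=
  (kk (a - 1) a τ * s0 τ + 2 * kk a a τ + kk (a + 1) a τ / s0 τ) /
      ((Real.Gamma (a - 1) : ℝ) * s0 τ) - 1
    - ((a * sg a / Real.Gamma (a - 1) : ℝ) : ℂ) / (W a τ * Complex.exp (s0 τ) * s0 τ) *
      (kk a a τ ^ 2 - kk (a - 1) a τ * kk (a + 1) a τ)

/-- ALG2: `ψ` vanishes when `M (1+η) = -(1+δ)`. -/
def S_ALG2 : Prop := ∀ a τ : ℝ, 19 / 10 ≤ a → a < 2 → 0 < τ →
  M2 a τ * (1 + eta a τ) = -(1 + del a τ) → psi a (τ ^ a) = 0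

/-- BD2: `η` and `δ` are small. -/
def S_BD2 : Prop := ∀ a τ : ℝ, 19 / 10 ≤ a → a < 2 → 100 ≤ τ →
  ‖eta a τ‖ ≤ 1 / 10 ∧ ‖del a τ‖ ≤ 1 / 10

/-- CONT3: continuity of `η` and `δ`. -/
def S_CONT3 : Prop :=
  ContinuousOn (fun q : ℝ × ℝ => eta q.1 q.2) (Set.Ico (19 / 10) 2 ×ˢ Set.Ioi 0) ∧
  ContinuousOn (fun q : ℝ × ℝ => del q.1 q.2) (Set.Ico (19 / 10) 2 ×ˢ Set.Ioi 0)

/-- the modulus of `M` -/
noncomputable def P2 (a τ : ℝ) : ℝ :=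
  4 * Real.sin (Real.pi / a) ^ 2 / (a * (-sg a) * Real.Gamma (a - 1)) * τ ^ (a - 1) *
    Real.exp (τ * Real.sin (2 * Real.pi / a))

/-- POL2: polar form of `M`. -/
def S_POL2 : Prop := ∀ a τ : ℝ, 19 / 10 ≤ a → a < 2 → 0 < τ →
  M2 a τ = (P2 a τ : ℂ) *
    Complex.exp (((-(τ * Real.cos (2 * Real.pi / a)) - Real.pi * (a - 1) / 2 : ℝ) : ℂ) *
      Complex.I)

/-- PA2: at `a = 19/10` the modulus tends to `0`. -/
def S_PA2 : Prop := Filter.Tendsto (fun τ : ℝ => P2 (19 / 10) τ) Filter.atTop (nhds 0)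

/-- PB2: near `a = 2` the modulus is large. -/
def S_PB2 : Prop := ∀ T : ℝ, 1 ≤ T → ∃ a : ℝ, 19 / 10 < a ∧ a < 2 ∧
  ∀ τ : ℝ, 1 ≤ τ → τ ≤ T → 10 ≤ P2 a τ

/-- G2: elementary inequalities for the Gamma function. -/
def S_G2 : Prop := ∀ a : ℝ, 19 / 10 ≤ a → a < 2 →
  1 ≤ Real.Gamma (a - 1) ∧ Real.Gamma (a - 1) ≤ 6 / 5 ∧ 0 < Real.Gamma a ∧ Real.Gamma a ≤ 1 ∧
    0 < Real.Gamma (a + 1) ∧ Real.Gamma (a + 1) ≤ 2 ∧
    (∀ c : ℝ, (c = a - 1 ∨ c = a ∨ c = a + 1) → Real.Gamma (c + a) ≤ 24)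

/-- FIN2: the negative answer to MP_aff8e8_an. -/
def S_FIN2 : Prop := ∃ a : ℝ, 1 < a ∧ a < 2 ∧ ∃ t : ℝ, 0 < t ∧ psi a t = 0

end R833.ML
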