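import Mathlib
import Pool.Agent.R833.ML.Defs

set_option autoImplicit false

namespace R833.ML.CIRC

open MeasureTheory R833.ML Filter

theorem t_CIRC : S_CIRC := by
  intro p x hpx
  have hR : (0:ℝ) < Real.exp x := Real.exp_pos x
  have hmem : Complex.exp p ∈ Metric.ball (0:ℂ) (Real.exp x) := by
    rw [mem_ball_zero_iff, Complex.norm_exp]
    exact Real.exp_lt_exp.2 hpx
  have hcauchy := (Complex.differentiable_exp.diffContOnCl (s := Metric.ball (0:ℂ) (Real.exp x))).circleIntegral_sub_inv_smul hmem
  -- rewrite the circle integral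
  have h1 : (∮ z in C(0, Real.exp x), (z - Complex.exp p)⁻¹ • Complex.exp z)
      = Complex.I * ∫ θ in (0:ℝ)..(2 * Real.pi),
        Complex.exp (Complex.exp (x + θ * Complex.I)) * Complex.exp (x + θ * Complex.I) /
          (Complex.exp (x + θ * Complex.I) - Complex.exp p) := by
    rw [circleIntegral, ← intervalIntegral.integral_const_mul]
    apply intervalIntegral.integral_congr
    intro θ _
    have hc : circleMap 0 (Real.exp x) θ = Complex.exp (x + θ * Complex.I) := by
      rw [circleMap_zero, Complex.ofReal_exp, ← Complex.exp_add]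
    simp only [deriv_circleMap, smul_eq_mul]
    rw [hc]
    ring
  have hper : Function.Periodic (fun θ : ℝ =>
        Complex.exp (Complex.exp (x + θ * Complex.I)) * Complex.exp (x + θ * Complex.I) /
          (Complex.exp (x + θ * Complex.I) - Complex.exp p)) (2 * Real.pi) := by
    intro θ
    have : Complex.exp ((x:ℂ) + ((θ + 2 * Real.pi : ℝ) : ℂ) * Complex.I)
        = Complex.exp (x + θ * Complex.I) := by
      have e : (x:ℂ) + ((θ + 2 * Real.pi : ℝ) : ℂ) * Complex.I
          = (x + θ * Complex.I) + 2 * Real.pi * Complex.I := by push_cast; ring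
      rw [e, Complex.exp_periodic]
    simp only [this]
  have h2 := hper.intervalIntegral_add_eq (-Real.pi) 0
  have e1 : -Real.pi + 2 * Real.pi = Real.pi := by ring
  rw [e1, zero_add] at h2
  unfold mv
  rw [h2]
  have hpi : (Real.pi : ℂ) ≠ 0 := by exact_mod_cast Real.pi_ne_zero
  rw [h1, smul_eq_mul] at hcauchy
  clear h1 h2 hper
  generalize (∫ θ in (0:ℝ)..(2 * Real.pi),
        Complex.exp (Complex.exp (x + θ * Complex.I)) * Complex.exp (x + θ * Complex.I) /
          (Complex.exp (x + θ * Complex.I) - Complex.exp p)) = J at hcauchy ⊢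
  have hI := Complex.I_ne_zero
  have h3 : J = 2 * Real.pi * Complex.exp (Complex.exp p) := by
    apply mul_left_cancel₀ hI
    rw [hcauchy]; ring
  rw [h3]
  field_simp

end R833.ML.CIRC
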