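import Pool.Agent.R833.ML.Defs

/-!
# CONT1: continuity of `K a a (i y)`
-/

set_option autoImplicit false

namespace R833.ML

open MeasureTheory Filter Topology

lemma CONT1.wt_cont (c : ℝ) : Continuous (fun t : ℝ => wt c t) := by
  unfold wt; fun_prop

lemma CONT1.den_cont (a : ℝ) (w : ℂ) : Continuous (fun t : ℝ => Den a w t) := by
  unfold Den; fun_prop

theorem t_CONT1 : S_DEN1 → S_GAM → S_CONT1 := by
  intro hD hG q₀ hq₀
  obtain ⟨h1, h2⟩ := hq₀
  have hy₀ : 0 < q₀.2 := h2
  have hev : ∀ᶠ q : ℝ × ℝ in 𝓝[Set.Icc (9 / 10) 1 ×ˢ Set.Ioi 0] q₀,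
      q ∈ Set.Icc (9 / 10 : ℝ) 1 ×ˢ Set.Ioi (0 : ℝ) ∧ q₀.2 / 2 < q.2 := by
    refine (eventually_mem_nhdsWithin).and ?_
    apply mem_nhdsWithin_of_mem_nhds
    have : Set.Ioi (q₀.2 / 2) ∈ 𝓝 q₀.2 := Ioi_mem_nhds (by linarith)
    exact (continuous_snd.continuousAt (x := q₀)) this
  unfold K
  refine continuousWithinAt_of_dominated
    (bound := fun t => (wt (9 / 10) t + wt 1 t) / ((19 / 20) * (q₀.2 / 2) ^ 2)) ?_ ?_ ?_ ?_
  · refine Eventually.of_forall fun q => ?_
    apply Measurable.aestronglyMeasurable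
    apply Measurable.div
    · exact (Complex.continuous_ofReal.comp (CONT1.wt_cont q.1)).measurable
    · exact (CONT1.den_cont q.1 _).measurable
  · filter_upwards [hev] with q hq
    refine Eventually.of_forall fun t => ?_
    obtain ⟨⟨⟨ha, ha1⟩, hy⟩, hy2⟩ := hq
    have hy' : 0 < q.2 := hy
    have hden := hD q.1 q.2 t ha ha1 hy'
    have he : 0 < Real.exp (2 * q.1 * t) := Real.exp_pos _
    have hlow : (19 / 20) * (q₀.2 / 2) ^ 2 ≤ ‖Den q.1 (Complex.I * q.2) t‖ := by
      refine le_trans ?_ hden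
      have : (q₀.2 / 2) ^ 2 ≤ q.2 ^ 2 := pow_le_pow_left₀ (by linarith) hy2.le 2
      nlinarith
    rw [norm_div, Complex.norm_real]
    have hw0 : 0 ≤ wt q.1 t := by unfold wt; positivity
    rw [Real.norm_eq_abs, abs_of_nonneg hw0]
    have hw : wt q.1 t ≤ wt (9 / 10) t + wt 1 t := by
      unfold wt
      rw [← mul_add]
      apply mul_le_mul_of_nonneg_left _ (Real.exp_pos _).le
      rcases le_total 0 t with ht | ht
      · have : Real.exp (q.1 * t) ≤ Real.exp (1 * t) :=
          Real.exp_le_exp.2 (mul_le_mul_of_nonneg_right ha1 ht)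
        have h0 := Real.exp_pos (9 / 10 * t)
        linarith
      · have : Real.exp (q.1 * t) ≤ Real.exp (9 / 10 * t) :=
          Real.exp_le_exp.2 (mul_le_mul_of_nonpos_right ha ht)
        have h0 := Real.exp_pos (1 * t)
        linarith
    have hc0 : 0 < (19 / 20) * (q₀.2 / 2) ^ 2 := by positivity
    exact div_le_div₀ (hw0.trans hw) hw hc0 hlow
  · exact ((hG (9 / 10) (by norm_num)).1.add (hG 1 (by norm_num)).1).div_const _
  · refine Eventually.of_forall fun t => ?_
    have hden : Den q₀.1 (Complex.I * q₀.2) t ≠ 0 := by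
      intro h0
      have := hD q₀.1 q₀.2 t h1.1 h1.2 hy₀
      rw [h0, norm_zero] at this
      have he : 0 < Real.exp (2 * q₀.1 * t) := Real.exp_pos _
      nlinarith [sq_nonneg q₀.2]
    have hc1 : Continuous (fun q : ℝ × ℝ => ((wt q.1 t : ℝ) : ℂ)) := by
      unfold wt; fun_prop
    have hc2 : Continuous (fun q : ℝ × ℝ => Den q.1 (Complex.I * q.2) t) := by
      unfold Den; fun_prop
    exact (hc1.continuousAt.div hc2.continuousAt hden).continuousWithinAt

end R833.ML
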