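import Pool.Agent.R833.ML.Defs

set_option autoImplicit false

namespace R833.ML

open MeasureTheory

namespace CONT2Aux

theorem wt_nonneg (c t : ℝ) : 0 ≤ wt c t := by
  unfold wt
  positivity

theorem wt_le (c t : ℝ) (h1 : 9 / 10 ≤ c) (h2 : c ≤ 3) : wt c t ≤ wt (9 / 10) t + wt 3 t := by
  unfold wt
  have h3 : Real.exp (c * t) ≤ Real.exp (9 / 10 * t) + Real.exp (3 * t) := by
    rcases le_total 0 t with h | h
    · have : Real.exp (c * t) ≤ Real.exp (3 * t) := Real.exp_le_exp.2 (by nlinarith)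
      have := Real.exp_pos (9 / 10 * t)
      linarith
    · have : Real.exp (c * t) ≤ Real.exp (9 / 10 * t) := Real.exp_le_exp.2 (by nlinarith)
      have := Real.exp_pos (3 * t)
      linarith
  rw [← mul_add]
  exact mul_le_mul_of_nonneg_left h3 (Real.exp_pos _).le

theorem W_cont : ContinuousOn (fun q : ℝ × ℝ => W q.1 q.2)
    (Set.Icc (19 / 10) 2 ×ˢ Set.Ioi 0) := by
  unfold W
  refine ContinuousOn.mul ?_ ?_
  · refine Complex.continuous_ofReal.comp_continuousOn ?_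
    refine ContinuousOn.rpow continuous_snd.continuousOn continuous_fst.continuousOn ?_
    intro q hq
    exact Or.inl (ne_of_gt hq.2)
  · refine Continuous.continuousOn ?_
    refine Complex.continuous_exp.comp ?_
    fun_prop

end CONT2Aux

open CONT2Aux in
theorem t_CONT2 (hD : S_DEN2) (hG : S_GAM) : S_CONT2 := by
  intro e he1 he2
  rintro ⟨a0, τ0⟩ ⟨ha0, hτ0⟩
  have hτ0' : 0 < τ0 := hτ0
  set m : ℝ := min 1 (τ0 / 2) with hm
  have hm0 : 0 < m := lt_min one_pos (by linarith)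
  have hm1 : m ≤ 1 := min_le_left _ _
  have hm2 : m ≤ τ0 / 2 := min_le_right _ _
  have hlow : ∀ q : ℝ × ℝ, q ∈ Set.Icc (19 / 10 : ℝ) 2 ×ˢ Set.Ioi (0 : ℝ) → τ0 / 2 < q.2 →
      ∀ t : ℝ, (m ^ 2) ^ 2 ≤ ‖Den q.1 (W q.1 q.2) t‖ := by
    rintro ⟨a, τ⟩ ⟨ha, hτ⟩ h2 t
    have hτ' : 0 < τ := hτ
    have h2' : τ0 / 2 < τ := h2
    have ha1 : 19 / 10 ≤ a := ha.1
    have ha2 : a ≤ 2 := ha.2
    have h3 : m ^ 2 ≤ τ ^ a := by
      have h4 : m ^ (2 : ℝ) ≤ m ^ a := Real.rpow_le_rpow_of_exponent_ge hm0 hm1 ha2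
      have h5 : m ^ a ≤ τ ^ a := Real.rpow_le_rpow hm0.le (by linarith) (by linarith)
      have h6 : m ^ (2 : ℝ) = m ^ 2 := by
        rw [← Real.rpow_natCast]
        norm_num
      rw [h6] at h4
      exact h4.trans h5
    have h7 := hD a τ t ha1 ha2 hτ'
    have h8 := Real.exp_pos (2 * a * t)
    have h9 : (m ^ 2) ^ 2 ≤ (τ ^ a) ^ 2 := pow_le_pow_left₀ (by positivity) h3 2
    show (m ^ 2) ^ 2 ≤ ‖Den a (W a τ) t‖
    linarith
  have hev : ∀ᶠ q : ℝ × ℝ in nhdsWithin (a0, τ0) (Set.Icc (19 / 10) 2 ×ˢ Set.Ioi 0),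
      q ∈ Set.Icc (19 / 10 : ℝ) 2 ×ˢ Set.Ioi (0 : ℝ) ∧ τ0 / 2 < q.2 := by
    have h1 : ∀ᶠ q : ℝ × ℝ in nhdsWithin (a0, τ0) (Set.Icc (19 / 10) 2 ×ˢ Set.Ioi 0),
        τ0 / 2 < q.2 := by
      refine Filter.Eventually.filter_mono nhdsWithin_le_nhds ?_
      have : Filter.Tendsto (fun q : ℝ × ℝ => q.2) (nhds (a0, τ0)) (nhds τ0) :=
        continuous_snd.tendsto (a0, τ0)
      exact this.eventually (lt_mem_nhds (by linarith))
    filter_upwards [h1, self_mem_nhdsWithin] with q h1 h2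
    exact ⟨h2, h1⟩
  have hm4 : 0 < (m ^ 2) ^ 2 := by positivity
  unfold K
  refine continuousWithinAt_of_dominated
    (bound := fun t => (wt (9 / 10) t + wt 3 t) / (m ^ 2) ^ 2) ?_ ?_ ?_ ?_
  · refine Filter.Eventually.of_forall fun q => ?_
    have h1 : Measurable fun t : ℝ => ((wt (q.1 + e) t : ℝ) : ℂ) := by
      unfold wt
      fun_prop
    have h2 : Measurable fun t : ℝ => Den q.1 (W q.1 q.2) t := by
      unfold Den
      fun_prop
    exact (h1.div h2).aestronglyMeasurable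
  · filter_upwards [hev] with q hq
    refine Filter.Eventually.of_forall fun t => ?_
    rw [norm_div, Complex.norm_real, Real.norm_of_nonneg (wt_nonneg _ _)]
    have h1 := hlow q hq.1 hq.2 t
    have h2 := wt_le (q.1 + e) t (by linarith [hq.1.1.1]) (by linarith [hq.1.1.2])
    have h3 := wt_nonneg (q.1 + e) t
    exact div_le_div₀ (h3.trans h2) h2 hm4 h1
  · exact (((hG (9 / 10) (by norm_num)).1).add ((hG 3 (by norm_num)).1)).div_const _
  · refine Filter.Eventually.of_forall fun t => ?_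
    have hWc := W_cont (a0, τ0) ⟨ha0, hτ0⟩
    refine ContinuousWithinAt.div ?_ ?_ ?_
    · refine Continuous.continuousWithinAt ?_
      unfold wt
      fun_prop
    · unfold Den
      refine ContinuousWithinAt.add (ContinuousWithinAt.sub ?_ ?_) (hWc.pow 2)
      · refine Continuous.continuousWithinAt ?_
        fun_prop
      · refine ContinuousWithinAt.mul (continuousWithinAt_const.mul hWc) ?_
        refine Continuous.continuousWithinAt ?_
        fun_prop
    · have h1 := hlow (a0, τ0) ⟨ha0, hτ0⟩ (by show τ0 / 2 < τ0; linarith) t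
      intro h0
      rw [h0, norm_zero] at h1
      linarith

end R833.ML
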