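import Pool.Agent.R833.ML.Defs

set_option autoImplicit false

namespace R833.ML

open MeasureTheory

namespace CONT3Aux

/-- the domain -/
def Q : Set (ℝ × ℝ) := Set.Ico (19 / 10) 2 ×ˢ Set.Ioi 0

theorem a_pos {q : ℝ × ℝ} (hq : q ∈ Q) : 0 < q.1 := by
  have := hq.1.1
  linarith

theorem t_pos {q : ℝ × ℝ} (hq : q ∈ Q) : 0 < q.2 := hq.2

theorem W_cont : ContinuousOn (fun q : ℝ × ℝ => W q.1 q.2) Q := by
  unfold W
  refine ContinuousOn.mul ?_ ?_
  · refine Complex.continuous_ofReal.comp_continuousOn ?_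
    refine ContinuousOn.rpow continuous_snd.continuousOn continuous_fst.continuousOn ?_
    intro q hq
    exact Or.inl (ne_of_gt hq.2)
  · refine Continuous.continuousOn ?_
    refine Complex.continuous_exp.comp ?_
    fun_prop

theorem W_ne {q : ℝ × ℝ} (hq : q ∈ Q) : W q.1 q.2 ≠ 0 := by
  unfold W
  refine mul_ne_zero ?_ (Complex.exp_ne_zero _)
  have := Real.rpow_pos_of_pos (t_pos hq) q.1
  exact_mod_cast this.ne'

theorem s0_cont : ContinuousOn (fun q : ℝ × ℝ => s0 q.2) Q := by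
  unfold s0
  fun_prop

theorem s0_ne {q : ℝ × ℝ} (hq : q ∈ Q) : s0 q.2 ≠ 0 := by
  unfold s0
  rw [neg_ne_zero]
  exact mul_ne_zero Complex.I_ne_zero (by exact_mod_cast (t_pos hq).ne')

theorem inv_cont : ContinuousOn (fun q : ℝ × ℝ => q.1⁻¹) Q :=
  continuous_fst.continuousOn.inv₀ fun _ hq => (a_pos hq).ne'

theorem s1_cont : ContinuousOn (fun q : ℝ × ℝ => s1 q.1 q.2) Q := by
  unfold s1
  refine ContinuousOn.mul ?_ ?_
  · exact (Complex.continuous_ofReal.comp continuous_snd).continuousOn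
  · refine Complex.continuous_exp.comp_continuousOn ?_
    refine ContinuousOn.mul ?_ continuousOn_const
    refine Complex.continuous_ofReal.comp_continuousOn ?_
    have h := inv_cont
    simp only [div_eq_mul_inv (2 * Real.pi)]
    fun_prop

theorem s1_ne {q : ℝ × ℝ} (hq : q ∈ Q) : s1 q.1 q.2 ≠ 0 := by
  unfold s1
  exact mul_ne_zero (by exact_mod_cast (t_pos hq).ne') (Complex.exp_ne_zero _)

theorem sg_cont : ContinuousOn (fun q : ℝ × ℝ => sg q.1) Q := by
  unfold sg
  fun_prop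

theorem gam_cont : ContinuousOn (fun q : ℝ × ℝ => Real.Gamma (q.1 - 1)) Q := by
  intro q hq
  have h1 : ContinuousAt Real.Gamma (q.1 - 1) := by
    refine (Real.differentiableAt_Gamma fun m => ?_).continuousAt
    have := hq.1.1
    have h2 : (0 : ℝ) ≤ m := Nat.cast_nonneg m
    intro h3
    linarith
  have h2 : ContinuousAt (fun q : ℝ × ℝ => q.1 - 1) q := by fun_prop
  exact (ContinuousAt.comp (f := fun q : ℝ × ℝ => q.1 - 1) h1 h2).continuousWithinAt

theorem gam_ne {q : ℝ × ℝ} (hq : q ∈ Q) : Real.Gamma (q.1 - 1) ≠ 0 :=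
  (Real.Gamma_pos_of_pos (by have := hq.1.1; linarith)).ne'

theorem sin_cont : ContinuousOn (fun q : ℝ × ℝ => Real.sin (Real.pi / q.1)) Q := by
  have h := inv_cont
  refine Real.continuous_sin.comp_continuousOn ?_
  simp only [div_eq_mul_inv]
  fun_prop

theorem sin_ne {q : ℝ × ℝ} (hq : q ∈ Q) : Real.sin (Real.pi / q.1) ≠ 0 := by
  have h1 := a_pos hq
  have h2 := hq.1.1
  refine (Real.sin_pos_of_pos_of_lt_pi (by positivity) ?_).ne'
  rw [div_lt_iff₀ h1]
  nlinarith [Real.pi_pos]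

theorem K_cont (hK : S_CONT2) (e : ℝ) (h1 : -1 ≤ e) (h2 : e ≤ 1) :
    ContinuousOn (fun q : ℝ × ℝ => kk (q.1 + e) q.1 q.2) Q := by
  unfold kk
  refine (W_cont.pow 2).mul ((hK e h1 h2).mono ?_)
  rintro q ⟨hq1, hq2⟩
  exact ⟨⟨hq1.1, hq1.2.le⟩, hq2⟩

end CONT3Aux

open CONT3Aux in
theorem t_CONT3 (hK : S_CONT2) : S_CONT3 := by
  have k1 : ContinuousOn (fun q : ℝ × ℝ => kk (q.1 - 1) q.1 q.2) Q :=
    K_cont hK (-1) le_rfl (by norm_num)
  have k2 : ContinuousOn (fun q : ℝ × ℝ => kk q.1 q.1 q.2) Q := by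
    have := K_cont hK 0 (by norm_num) (by norm_num)
    simpa only [add_zero] using this
  have k3 : ContinuousOn (fun q : ℝ × ℝ => kk (q.1 + 1) q.1 q.2) Q :=
    K_cont hK 1 (by norm_num) le_rfl
  have e0 : ContinuousOn (fun q : ℝ × ℝ => Complex.exp (s0 q.2)) Q :=
    Complex.continuous_exp.comp_continuousOn s0_cont
  have c1 : ContinuousOn (fun q : ℝ × ℝ =>
      (((q.1 * sg q.1 / (4 * Real.sin (Real.pi / q.1) ^ 2) : ℝ) : ℂ))) Q := by
    refine Complex.continuous_ofReal.comp_continuousOn ?_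
    refine ContinuousOn.div (continuous_fst.continuousOn.mul sg_cont)
      (continuousOn_const.mul (sin_cont.pow 2)) ?_
    intro q hq
    have := sin_ne hq
    positivity
  have c2 : ContinuousOn (fun q : ℝ × ℝ =>
      (((q.1 * sg q.1 / Real.Gamma (q.1 - 1) : ℝ) : ℂ))) Q := by
    refine Complex.continuous_ofReal.comp_continuousOn ?_
    exact ContinuousOn.div (continuous_fst.continuousOn.mul sg_cont) gam_cont
      fun q hq => gam_ne hq
  have c3 : ContinuousOn (fun q : ℝ × ℝ => ((Real.Gamma (q.1 - 1) : ℝ) : ℂ)) Q :=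
    Complex.continuous_ofReal.comp_continuousOn gam_cont
  have c3ne : ∀ q ∈ Q, ((Real.Gamma (q.1 - 1) : ℝ) : ℂ) ≠ 0 := fun q hq => by
    exact_mod_cast gam_ne hq
  constructor
  · show ContinuousOn (fun q : ℝ × ℝ => eta q.1 q.2) Q
    unfold eta
    refine ContinuousOn.mul (ContinuousOn.div c1.neg (W_cont.mul e0) ?_) ?_
    · intro q hq
      exact mul_ne_zero (W_ne hq) (Complex.exp_ne_zero _)
    · refine ContinuousOn.add ((k1.mul s1_cont).add (continuousOn_const.mul k2)) ?_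
      exact k3.div s1_cont fun q hq => s1_ne hq
  · show ContinuousOn (fun q : ℝ × ℝ => del q.1 q.2) Q
    unfold del
    refine ContinuousOn.sub (ContinuousOn.sub (ContinuousOn.div ?_ (c3.mul s0_cont) ?_)
      continuousOn_const) (ContinuousOn.mul (ContinuousOn.div c2
        ((W_cont.mul e0).mul s0_cont) ?_) ?_)
    · refine ContinuousOn.add ((k1.mul s0_cont).add (continuousOn_const.mul k2)) ?_
      exact k3.div s0_cont fun q hq => s0_ne hq
    · intro q hq
      exact mul_ne_zero (c3ne q hq) (s0_ne hq)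
    · intro q hq
      exact mul_ne_zero (mul_ne_zero (W_ne hq) (Complex.exp_ne_zero _)) (s0_ne hq)
    · exact (k2.pow 2).sub (k1.mul k3)

end R833.ML
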