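import Pool.Agent.R833.ML.Defs

/-!
Project ML (helper833), piece DEL1 (helper273).
-/

set_option autoImplicit false

namespace R833.ML.DEL1

open MeasureTheory R833.ML

theorem wt_mul_exp (c a t : ℝ) : wt c t * Real.exp (a * t) = wt (c + a) t := by
  unfold wt
  rw [mul_assoc, ← Real.exp_add]
  congr 2
  ring

theorem wt_pos (c t : ℝ) : 0 < wt c t := by unfold wt; positivity

theorem wt_cont (c : ℝ) : Continuous (fun t : ℝ => wt c t) := by
  unfold wt
  fun_prop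

theorem bound (r y D C : ℝ) (w : ℂ) (hr : 0 < r) (hy : 1 ≤ y) (hC : |C| ≤ 1)
    (hw : w = ((r ^ 2 : ℝ) : ℂ) - 2 * (Complex.I * y) * ((r * C : ℝ) : ℂ) + (Complex.I * y) ^ 2)
    (hD : D = ‖w‖) (hl : (19 / 20) * (r ^ 2 + y ^ 2) ≤ D) :
    ‖-((y : ℂ) ^ 2) / w - 1‖ ≤ 3 * r / y := by
  have hDpos : 0 < D := by nlinarith [sq_nonneg r, sq_nonneg y]
  have hw0 : w ≠ 0 := by
    rw [← norm_pos_iff, ← hD]
    exact hDpos
  have e1 : -((y : ℂ) ^ 2) / w - 1 =
      -(((r ^ 2 : ℝ) : ℂ) - 2 * (Complex.I * y) * ((r * C : ℝ) : ℂ)) / w := by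
    field_simp
    rw [hw]
    have hI : Complex.I ^ 2 = -1 := Complex.I_sq
    linear_combination (-(y : ℂ) ^ 2) * hI
  rw [e1, norm_div, norm_neg, ← hD, div_le_div_iff₀ hDpos (by linarith)]
  have h2 : ‖((r ^ 2 : ℝ) : ℂ) - 2 * (Complex.I * y) * ((r * C : ℝ) : ℂ)‖ ≤ r ^ 2 + 2 * y * r := by
    refine le_trans (norm_sub_le _ _) ?_
    rw [Complex.norm_real, Real.norm_of_nonneg (by positivity)]
    have h3 : ‖2 * (Complex.I * y) * ((r * C : ℝ) : ℂ)‖ = 2 * y * (r * |C|) := by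
      rw [norm_mul, norm_mul, norm_mul, Complex.norm_I, Complex.norm_real, Complex.norm_real,
        Real.norm_eq_abs, Real.norm_eq_abs, abs_mul, abs_of_pos hr, abs_of_pos (by linarith)]
      simp
    rw [h3]
    have h4 : r * |C| ≤ r * 1 := mul_le_mul_of_nonneg_left hC hr.le
    nlinarith
  have h5 : ‖((r ^ 2 : ℝ) : ℂ) - 2 * (Complex.I * y) * ((r * C : ℝ) : ℂ)‖ * y ≤
      (r ^ 2 + 2 * y * r) * y := mul_le_mul_of_nonneg_right h2 (by linarith)
  have h6 : (r ^ 2 + 2 * y * r) * y ≤ 3 * r * D := by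
    have h7 : (r ^ 2 + 2 * y * r) * y ≤ 3 * r * ((19 / 20) * (r ^ 2 + y ^ 2)) := by
      have h8 : y * r + 2 * y ^ 2 ≤ (57 / 20) * (r ^ 2 + y ^ 2) := by
        nlinarith [sq_nonneg (r - y), sq_nonneg r, sq_nonneg y]
      have h9 := mul_le_mul_of_nonneg_left h8 hr.le
      nlinarith
    have h10 : 3 * r * ((19 / 20) * (r ^ 2 + y ^ 2)) ≤ 3 * r * D :=
      mul_le_mul_of_nonneg_left hl (by positivity)
    linarith
  linarith

end R833.ML.DEL1

namespace R833.ML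

open MeasureTheory R833.ML.DEL1

theorem t_DEL1 (hG : S_GAM) (h1 : S_G1) (hD : S_DEN1) : S_DEL1 := by
  intro a y ha1 ha2 hy
  obtain ⟨hΓ1, hΓ2, -⟩ := h1 a ha1 ha2
  obtain ⟨i1, v1⟩ := hG a (by linarith)
  obtain ⟨i2, v2⟩ := hG (a + a) (by linarith)
  have hΓ0 : (0 : ℝ) < Real.Gamma a := by linarith
  have hΓc : ((Real.Gamma a : ℝ) : ℂ) ≠ 0 := by exact_mod_cast hΓ0.ne'
  have hy0 : (0 : ℝ) < y := by linarith
  have hDl : ∀ t : ℝ, (19 / 20) * (Real.exp (a * t) ^ 2 + y ^ 2) ≤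
      ‖Den a (Complex.I * y) t‖ := by
    intro t
    have h := hD a y t ha1 ha2.le hy0
    have e : Real.exp (2 * a * t) = Real.exp (a * t) ^ 2 := by
      rw [← Real.exp_nat_mul]
      congr 1
      push_cast
      ring
    rw [e] at h
    exact h
  have hne : ∀ t : ℝ, Den a (Complex.I * y) t ≠ 0 := by
    intro t
    rw [← norm_pos_iff]
    have h := hDl t
    have h2 := Real.exp_pos (a * t)
    nlinarith [sq_nonneg (Real.exp (a * t)), sq_nonneg y]
  have hb : ∀ t : ℝ, ‖-((y : ℂ) ^ 2) / Den a (Complex.I * y) t - 1‖ ≤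
      3 * Real.exp (a * t) / y := by
    intro t
    refine bound (Real.exp (a * t)) y _ (Real.cos (Real.pi * a)) _ (Real.exp_pos _) hy
      (Real.abs_cos_le_one _) ?_ rfl (hDl t)
    unfold Den
    have e : Real.exp (2 * a * t) = Real.exp (a * t) ^ 2 := by
      rw [← Real.exp_nat_mul]
      congr 1
      push_cast
      ring
    rw [e]
  have hdc : Continuous (fun t : ℝ => Den a (Complex.I * y) t) := by
    unfold Den
    fun_prop
  have hwc : Continuous (fun t : ℝ => ((wt a t : ℝ) : ℂ)) :=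
    Complex.continuous_ofReal.comp (wt_cont a)
  -- the integrand
  have hgc : Continuous (fun t : ℝ => ((wt a t : ℝ) : ℂ) *
      (-((y : ℂ) ^ 2) / Den a (Complex.I * y) t - 1)) :=
    hwc.mul ((continuous_const.div hdc hne).sub continuous_const)
  have hgb : ∀ t : ℝ, ‖((wt a t : ℝ) : ℂ) * (-((y : ℂ) ^ 2) / Den a (Complex.I * y) t - 1)‖ ≤
      3 / y * wt (a + a) t := by
    intro t
    rw [norm_mul, Complex.norm_real, Real.norm_of_nonneg (wt_pos _ _).le, ← wt_mul_exp]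
    have h := mul_le_mul_of_nonneg_left (hb t) (wt_pos a t).le
    refine h.trans (le_of_eq ?_)
    field_simp
  have hgi : Integrable (fun t : ℝ => ((wt a t : ℝ) : ℂ) *
      (-((y : ℂ) ^ 2) / Den a (Complex.I * y) t - 1)) :=
    (i2.const_mul (3 / y)).mono' hgc.aestronglyMeasurable (Filter.Eventually.of_forall hgb)
  have i1c : Integrable (fun t : ℝ => ((wt a t : ℝ) : ℂ)) := i1.ofReal
  have v1c : ∫ t : ℝ, ((wt a t : ℝ) : ℂ) = ((Real.Gamma a : ℝ) : ℂ) := by
    rw [integral_complex_ofReal, v1]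
  have hKint : Integrable (fun t : ℝ => (-((y : ℂ) ^ 2)) *
      (((wt a t : ℝ) : ℂ) / Den a (Complex.I * y) t)) := by
    have h := hgi.add i1c
    refine h.congr (Filter.Eventually.of_forall fun t => ?_)
    simp only [Pi.add_apply]
    ring
  have hK : ∫ t : ℝ, ((wt a t : ℝ) : ℂ) * (-((y : ℂ) ^ 2) / Den a (Complex.I * y) t - 1) =
      (-((y : ℂ) ^ 2)) * K a a (Complex.I * y) - ((Real.Gamma a : ℝ) : ℂ) := by
    rw [← v1c]
    unfold K
    rw [← integral_const_mul, ← integral_sub hKint i1c]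
    refine integral_congr_ae (Filter.Eventually.of_forall fun t => ?_)
    simp only
    ring
  have e1 : -((y ^ 2 / Real.Gamma a : ℝ) : ℂ) * K a a (Complex.I * y) - 1 =
      (1 / ((Real.Gamma a : ℝ) : ℂ)) *
        ∫ t : ℝ, ((wt a t : ℝ) : ℂ) * (-((y : ℂ) ^ 2) / Den a (Complex.I * y) t - 1) := by
    rw [hK]
    push_cast
    field_simp
  rw [e1, norm_mul, norm_div, norm_one, Complex.norm_real, Real.norm_of_nonneg hΓ0.le]
  have h2 : ‖∫ t : ℝ, ((wt a t : ℝ) : ℂ) * (-((y : ℂ) ^ 2) / Den a (Complex.I * y) t - 1)‖ ≤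
      ∫ t : ℝ, 3 / y * wt (a + a) t :=
    norm_integral_le_of_norm_le (i2.const_mul (3 / y)) (Filter.Eventually.of_forall hgb)
  rw [integral_const_mul, v2] at h2
  have h3 : Real.Gamma (a + a) ≤ 1 := by
    rw [← two_mul]
    exact hΓ2
  have h4 : 3 / y * Real.Gamma (a + a) ≤ 3 / y * 1 :=
    mul_le_mul_of_nonneg_left h3 (by positivity)
  have h5 : 1 / Real.Gamma a ≤ 1 := by
    rw [div_le_one hΓ0]
    exact hΓ1
  calc 1 / Real.Gamma a *
        ‖∫ t : ℝ, ((wt a t : ℝ) : ℂ) * (-((y : ℂ) ^ 2) / Den a (Complex.I * y) t - 1)‖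
      ≤ 1 * (3 / y) := mul_le_mul h5 (by linarith) (norm_nonneg _) zero_le_one
    _ = 3 / y := one_mul _

end R833.ML
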