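import Pool.Agent.R833.ML.Defs

/-!
# DEN1, DEN2: lower bounds of the denominators
-/

set_option autoImplicit false

namespace R833.ML

lemma DEN1.cos_pi_ten : (19 / 20 : ℝ) ≤ Real.cos (Real.pi / 10) := by
  have h := Real.one_sub_sq_div_two_le_cos (x := Real.pi / 10)
  have h1 : Real.pi < 3.15 := Real.pi_lt_d2
  have h2 : 0 < Real.pi := Real.pi_pos
  nlinarith

lemma DEN1.cos_sq {a : ℝ} (ha : 9 / 10 ≤ a) (ha1 : a ≤ 1) :
    (19 / 20 : ℝ) ^ 2 ≤ Real.cos (Real.pi * a) ^ 2 := by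
  have h1 : Real.cos (Real.pi * a) = -Real.cos (Real.pi - Real.pi * a) := by
    rw [Real.cos_pi_sub]; ring
  rw [h1, neg_sq]
  have h2 : Real.cos (Real.pi / 10) ≤ Real.cos (Real.pi - Real.pi * a) := by
    apply Real.cos_le_cos_of_nonneg_of_le_pi
    · nlinarith [Real.pi_pos]
    · nlinarith [Real.pi_pos]
    · nlinarith [Real.pi_pos]
  have h3 := DEN1.cos_pi_ten
  apply pow_le_pow_left₀ (by norm_num)
  linarith

theorem t_DEN1 : S_DEN1 := by
  intro a y t ha ha1 hy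
  set r := Real.exp (a * t) with hr
  set c := Real.cos (Real.pi * a) with hc
  have hr2 : Real.exp (2 * a * t) = r ^ 2 := by
    rw [hr, ← Real.exp_nat_mul]; congr 1; push_cast; ring
  have hr0 : 0 < r := Real.exp_pos _
  have hc2 : (19 / 20 : ℝ) ^ 2 ≤ c ^ 2 := DEN1.cos_sq ha ha1
  have hc1 : c ^ 2 ≤ 1 := by
    have := Real.cos_sq_le_one (Real.pi * a)
    exact this
  have hD : Den a (Complex.I * y) t = ((r ^ 2 - y ^ 2 : ℝ) : ℂ) + ((-(2 * y * r * c) : ℝ) : ℂ) * Complex.I := by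
    unfold Den
    rw [← hr, ← hc, hr2]
    push_cast
    have : (Complex.I * (y : ℂ)) ^ 2 = -(y : ℂ) ^ 2 := by
      rw [mul_pow, Complex.I_sq]; ring
    rw [this]
    ring
  rw [hD, hr2]
  rw [show ‖((r ^ 2 - y ^ 2 : ℝ) : ℂ) + ((-(2 * y * r * c) : ℝ) : ℂ) * Complex.I‖ =
    Real.sqrt ((r ^ 2 - y ^ 2) ^ 2 + (-(2 * y * r * c)) ^ 2) from Complex.norm_add_mul_I _ _]
  apply Real.le_sqrt_of_sq_le
  have h1 : 0 ≤ (r ^ 2 - y ^ 2) ^ 2 := sq_nonneg _
  have h2 : 0 ≤ (y * r) ^ 2 := sq_nonneg _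
  have h3 : ((19 / 20 : ℝ) * (r ^ 2 + y ^ 2)) ^ 2 = (19 / 20 : ℝ) ^ 2 * ((r ^ 2 - y ^ 2) ^ 2 + 4 * (y * r) ^ 2) := by
    ring
  rw [h3]
  have h4 : (19 / 20 : ℝ) ^ 2 * (4 * (y * r) ^ 2) ≤ c ^ 2 * (4 * (y * r) ^ 2) :=
    mul_le_mul_of_nonneg_right hc2 (by positivity)
  have h5 : (19 / 20 : ℝ) ^ 2 * (r ^ 2 - y ^ 2) ^ 2 ≤ 1 * (r ^ 2 - y ^ 2) ^ 2 :=
    mul_le_mul_of_nonneg_right (by norm_num) h1
  nlinarith

lemma DEN2.norm_ge (r y b : ℝ) (hb : Real.cos b ≤ 0) (hr : 0 < r) (hy : 0 < y) :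
    r ^ 2 + y ^ 2 ≤ Complex.normSq ((r : ℂ) * Complex.exp (b * Complex.I) - y) := by
  have h1 : (r : ℂ) * Complex.exp (b * Complex.I) - y =
      ((r * Real.cos b - y : ℝ) : ℂ) + ((r * Real.sin b : ℝ) : ℂ) * Complex.I := by
    rw [Complex.exp_mul_I, ← Complex.ofReal_cos, ← Complex.ofReal_sin]
    push_cast
    ring
  rw [h1, Complex.normSq_add_mul_I]
  have h2 := Real.sin_sq_add_cos_sq b
  have h3 : r * y * Real.cos b ≤ 0 := mul_nonpos_of_nonneg_of_nonpos (by positivity) hb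
  nlinarith [h2, h3]

theorem t_DEN2 : S_DEN2 := by
  intro a τ t ha ha2 hτ
  set r := Real.exp (a * t) with hr
  set y := τ ^ a with hy
  have hr2 : Real.exp (2 * a * t) = r ^ 2 := by
    rw [hr, ← Real.exp_nat_mul]; congr 1; push_cast; ring
  have hr0 : 0 < r := Real.exp_pos _
  have hy0 : 0 < y := Real.rpow_pos_of_pos hτ _
  rw [hr2]
  have hcos1 : Real.cos (3 * Real.pi * a / 2) ≤ 0 := by
    have h : Real.cos (3 * Real.pi * a / 2) = Real.cos (3 * Real.pi * a / 2 - 2 * Real.pi) := by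
      rw [Real.cos_sub_two_pi]
    rw [h]
    apply Real.cos_nonpos_of_pi_div_two_le_of_le
    · nlinarith [Real.pi_pos]
    · nlinarith [Real.pi_pos]
  have hcos2 : Real.cos (-(Real.pi * a / 2)) ≤ 0 := by
    rw [Real.cos_neg]
    apply Real.cos_nonpos_of_pi_div_two_le_of_le
    · nlinarith [Real.pi_pos]
    · nlinarith [Real.pi_pos]
  -- factorisation
  have hfac : Den a (W a τ) t =
      Complex.exp (-((Real.pi * a / 2 : ℝ) : ℂ) * Complex.I) ^ 2 *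
      (((r : ℂ) * Complex.exp ((3 * Real.pi * a / 2 : ℝ) * Complex.I) - y) *
      ((r : ℂ) * Complex.exp ((-(Real.pi * a / 2) : ℝ) * Complex.I) - y)) := by
    unfold Den W
    rw [← hr, ← hy, hr2]
    set q := Complex.exp (-((Real.pi * a / 2 : ℝ) : ℂ) * Complex.I) with hq
    have e1 : Complex.exp ((-(Real.pi * a / 2) : ℝ) * Complex.I) = q := by
      rw [hq]; congr 1; push_cast; ring
    have e0 : q ≠ 0 := Complex.exp_ne_zero _
    have e2 : Complex.exp ((3 * Real.pi * a / 2 : ℝ) * Complex.I) * q ^ 3 = 1 := by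
      rw [hq, ← Complex.exp_nat_mul, ← Complex.exp_add]
      rw [show ((3 * Real.pi * a / 2 : ℝ) : ℂ) * Complex.I +
        ((3 : ℕ) : ℂ) * (-((Real.pi * a / 2 : ℝ) : ℂ) * Complex.I) = 0 by push_cast; ring]
      exact Complex.exp_zero
    have e3 : 2 * ((Real.cos (Real.pi * a) : ℝ) : ℂ) =
        q ^ 2 + Complex.exp ((3 * Real.pi * a / 2 : ℝ) * Complex.I) * q := by
      rw [Complex.ofReal_cos, Complex.cos, hq, ← Complex.exp_nat_mul, ← Complex.exp_add]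
      rw [show ((2 : ℕ) : ℂ) * (-((Real.pi * a / 2 : ℝ) : ℂ) * Complex.I) =
        -((Real.pi * a : ℝ) : ℂ) * Complex.I by push_cast; ring,
        show ((3 * Real.pi * a / 2 : ℝ) : ℂ) * Complex.I +
          -((Real.pi * a / 2 : ℝ) : ℂ) * Complex.I = ((Real.pi * a : ℝ) : ℂ) * Complex.I by
          push_cast; ring]
      ring
    rw [e1]
    set P := Complex.exp ((3 * Real.pi * a / 2 : ℝ) * Complex.I) with hP
    push_cast
    have e4 : 2 * ((y : ℂ) * q) * ((r : ℂ) * Complex.cos (Real.pi * a)) =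
        ((y : ℂ) * q) * r * (q ^ 2 + P * q) := by
      rw [← e3]; push_cast; ring
    rw [e4]
    linear_combination (-(r : ℂ) ^ 2) * e2
  rw [hfac, norm_mul, norm_pow]
  have hn1 : ‖Complex.exp (-((Real.pi * a / 2 : ℝ) : ℂ) * Complex.I)‖ = 1 := by
    rw [show -((Real.pi * a / 2 : ℝ) : ℂ) * Complex.I = ((-(Real.pi * a / 2) : ℝ) : ℂ) * Complex.I by
      push_cast; ring]
    exact Complex.norm_exp_ofReal_mul_I _
  rw [hn1, one_pow, one_mul, norm_mul]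
  have k1 := DEN2.norm_ge r y (3 * Real.pi * a / 2) hcos1 hr0 hy0
  have k2 := DEN2.norm_ge r y (-(Real.pi * a / 2)) hcos2 hr0 hy0
  rw [Complex.normSq_eq_norm_sq] at k1 k2
  have h0 : 0 ≤ r ^ 2 + y ^ 2 := by positivity
  have hprod : (r ^ 2 + y ^ 2) ^ 2 ≤
      (‖(r : ℂ) * Complex.exp ((3 * Real.pi * a / 2 : ℝ) * Complex.I) - y‖ *
      ‖(r : ℂ) * Complex.exp ((-(Real.pi * a / 2) : ℝ) * Complex.I) - y‖) ^ 2 := by
    rw [mul_pow, sq (r ^ 2 + y ^ 2)]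
    exact mul_le_mul k1 k2 h0 (by positivity)
  exact le_of_sq_le_sq hprod (by positivity)

end R833.ML
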