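import Pool.Agent.R833.ML.Defs

set_option autoImplicit false

namespace R833.ML.EST2

open MeasureTheory

theorem wt_pos (c t : ℝ) : 0 < wt c t := by
  unfold wt
  positivity

theorem wt_cont (c : ℝ) : Continuous (fun t : ℝ => wt c t) := by
  unfold wt
  fun_prop

theorem wt_mul (c a t : ℝ) : wt c t * Real.exp (a * t) = wt (c + a) t := by
  unfold wt
  rw [mul_assoc, ← Real.exp_add]
  congr 2
  ring

theorem norm_W (a τ : ℝ) (hτ : 0 < τ) : ‖W a τ‖ = τ ^ a := by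
  unfold W
  rw [norm_mul]
  have h1 : ‖Complex.exp (-((Real.pi * a / 2 : ℝ) : ℂ) * Complex.I)‖ = 1 := by
    have : -((Real.pi * a / 2 : ℝ) : ℂ) * Complex.I = ((-(Real.pi * a / 2) : ℝ) : ℂ) * Complex.I := by
      push_cast; ring
    rw [this]
    exact Complex.norm_exp_ofReal_mul_I _
  rw [h1, mul_one, Complex.norm_real, Real.norm_of_nonneg (Real.rpow_nonneg hτ.le _)]

theorem Den_cont (a : ℝ) (w : ℂ) : Continuous (fun t : ℝ => Den a w t) := by
  unfold Den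
  fun_prop

theorem key (a τ t : ℝ) (hD : S_DEN2) (ha : 19 / 10 ≤ a) (ha2 : a < 2) (hτ : 1 ≤ τ) :
    ‖W a τ ^ 2 / Den a (W a τ) t - 1‖ ≤ 5 / 2 * Real.exp (a * t) / τ ^ a := by
  have hτ0 : 0 < τ := by linarith
  have hy : 0 < τ ^ a := Real.rpow_pos_of_pos hτ0 _
  have hD1 := hD a τ t ha ha2.le hτ0
  have hr : 0 < Real.exp (a * t) := Real.exp_pos _
  have hr2 : Real.exp (2 * a * t) = Real.exp (a * t) ^ 2 := by
    rw [← Real.exp_nat_mul]; congr 1; push_cast; ring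
  rw [hr2] at hD1
  have hDpos : 0 < ‖Den a (W a τ) t‖ := by
    have : 0 < Real.exp (a * t) ^ 2 + (τ ^ a) ^ 2 := by positivity
    linarith
  have hDne : Den a (W a τ) t ≠ 0 := norm_pos_iff.mp hDpos
  have e1 : W a τ ^ 2 / Den a (W a τ) t - 1 =
      (-(((Real.exp (a * t) ^ 2 : ℝ)) : ℂ) +
        2 * W a τ * ((Real.exp (a * t) * Real.cos (Real.pi * a) : ℝ) : ℂ)) / Den a (W a τ) t := by
    rw [div_sub_one hDne]
    congr 1
    unfold Den
    rw [hr2]
    ring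
  rw [e1, norm_div, div_le_div_iff₀ hDpos hy]
  have hW := norm_W a τ hτ0
  have h2 : ‖-(((Real.exp (a * t) ^ 2 : ℝ)) : ℂ) +
        2 * W a τ * ((Real.exp (a * t) * Real.cos (Real.pi * a) : ℝ) : ℂ)‖ ≤
      Real.exp (a * t) ^ 2 + 2 * τ ^ a * Real.exp (a * t) := by
    refine (norm_add_le _ _).trans ?_
    rw [norm_neg, Complex.norm_real, norm_mul, norm_mul, hW, Complex.norm_real,
      Real.norm_of_nonneg (by positivity : (0:ℝ) ≤ Real.exp (a * t) ^ 2), norm_mul,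
      Real.norm_of_nonneg hr.le]
    have hc : ‖Real.cos (Real.pi * a)‖ ≤ 1 := by
      rw [Real.norm_eq_abs]; exact Real.abs_cos_le_one _
    have h3 : ‖(2:ℂ)‖ = 2 := by simp
    rw [h3]
    have h4 : Real.exp (a * t) * ‖Real.cos (Real.pi * a)‖ ≤ Real.exp (a * t) * 1 :=
      mul_le_mul_of_nonneg_left hc hr.le
    have h5 : 2 * τ ^ a * (Real.exp (a * t) * ‖Real.cos (Real.pi * a)‖) ≤
        2 * τ ^ a * (Real.exp (a * t) * 1) := mul_le_mul_of_nonneg_left h4 (by positivity)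
    linarith
  set r := Real.exp (a * t) with hrdef
  set y := τ ^ a with hydef
  have h6 : (r ^ 2 + 2 * y * r) * y ≤ 5 / 2 * r * (r ^ 2 + y ^ 2) := by
    nlinarith [mul_nonneg hr.le (sq_nonneg (r - y)), mul_pos hr hr, mul_pos hr hy,
      mul_pos hr (mul_pos hr hr)]
  calc ‖-(((r ^ 2 : ℝ)) : ℂ) + 2 * W a τ * ((r * Real.cos (Real.pi * a) : ℝ) : ℂ)‖ * y
      ≤ (r ^ 2 + 2 * y * r) * y := mul_le_mul_of_nonneg_right h2 hy.le
    _ ≤ 5 / 2 * r * (r ^ 2 + y ^ 2) := h6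
    _ ≤ 5 / 2 * r * ‖Den a (W a τ) t‖ := mul_le_mul_of_nonneg_left hD1 (by positivity)

theorem t_EST2 : S_GAM → S_DEN2 → S_G2 → S_EST2 := by
  intro hG hD hG2 a c τ ha ha2 hτ hc
  have hτ0 : 0 < τ := by linarith
  have hy : 0 < τ ^ a := Real.rpow_pos_of_pos hτ0 _
  have hcpos : 0 < c := by
    rcases hc with h | h | h <;> linarith
  obtain ⟨hi1, hv1⟩ := hG c hcpos
  obtain ⟨hi2, hv2⟩ := hG (c + a) (by linarith)
  have hGam : Real.Gamma (c + a) ≤ 24 := (hG2 a ha ha2).2.2.2.2.2.2 c hc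
  have hDne : ∀ t : ℝ, Den a (W a τ) t ≠ 0 := by
    intro t
    have h := hD a τ t ha ha2.le hτ0
    have : 0 < Real.exp (2 * a * t) + (τ ^ a) ^ 2 := by positivity
    exact norm_pos_iff.mp (by linarith)
  have hcont : Continuous (fun t : ℝ => ((wt c t : ℝ) : ℂ) / Den a (W a τ) t) :=
    (Complex.continuous_ofReal.comp (wt_cont c)).div (Den_cont a _) hDne
  have hint : Integrable (fun t : ℝ => ((wt c t : ℝ) : ℂ) / Den a (W a τ) t) := by
    refine Integrable.mono' (hi1.div_const ((τ ^ a) ^ 2)) hcont.aestronglyMeasurable ?_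
    refine Filter.Eventually.of_forall (fun t => ?_)
    rw [norm_div, Complex.norm_real, Real.norm_of_nonneg (wt_pos c t).le]
    have h := hD a τ t ha ha2.le hτ0
    have hpos : 0 < Real.exp (2 * a * t) := Real.exp_pos _
    exact div_le_div_of_nonneg_left (wt_pos c t).le (by positivity) (by linarith)
  have hi1c : Integrable (fun t : ℝ => ((wt c t : ℝ) : ℂ)) := hi1.ofReal
  have e1 : W a τ ^ 2 * K c a (W a τ) - (Real.Gamma c : ℝ) =
      ∫ t : ℝ, ((wt c t : ℝ) : ℂ) * (W a τ ^ 2 / Den a (W a τ) t - 1) := by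
    unfold K
    rw [← hv1, ← integral_complex_ofReal, ← integral_const_mul, ← integral_sub
      (hint.const_mul _) hi1c]
    refine integral_congr_ae (Filter.Eventually.of_forall (fun t => ?_))
    show W a τ ^ 2 * (((wt c t : ℝ) : ℂ) / Den a (W a τ) t) - ((wt c t : ℝ) : ℂ) =
      ((wt c t : ℝ) : ℂ) * (W a τ ^ 2 / Den a (W a τ) t - 1)
    ring
  rw [e1]
  have hb : ∀ t : ℝ, ‖((wt c t : ℝ) : ℂ) * (W a τ ^ 2 / Den a (W a τ) t - 1)‖ ≤
      (5 / 2 / τ ^ a) * wt (c + a) t := by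
    intro t
    rw [norm_mul, Complex.norm_real, Real.norm_of_nonneg (wt_pos c t).le]
    have h := mul_le_mul_of_nonneg_left (key a τ t hD ha ha2 hτ) (wt_pos c t).le
    refine h.trans (le_of_eq ?_)
    rw [← wt_mul c a t]
    ring
  have h3 := norm_integral_le_of_norm_le (hi2.const_mul (5 / 2 / τ ^ a))
    (Filter.Eventually.of_forall hb)
  refine h3.trans ?_
  rw [integral_const_mul, hv2]
  rw [div_mul_eq_mul_div, div_le_div_iff_of_pos_right hy]
  linarith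

end R833.ML.EST2

theorem R833.ML.t_EST2 : R833.ML.S_GAM → R833.ML.S_DEN2 → R833.ML.S_G2 → R833.ML.S_EST2 :=
  R833.ML.EST2.t_EST2
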