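import Pool.Agent.R833.ML.Defs

/-!
Project ML (helper833), piece FIN1 (helper765): the negative answer to MP_ff8adc_an from the pieces.
-/

set_option autoImplicit false

namespace R833.ML.FIN1

open R833.ML Set

/-- `sin (π / (2a))` -/
noncomputable def sn (a : ℝ) : ℝ := Real.sin (Real.pi / (2 * a))

/-- the point `τ(a, θ)` -/
noncomputable def tau (n : ℕ) (q : ℝ × ℝ) : ℝ :=
  (q.2 - Real.pi / 2 + 2 * Real.pi * n) / sn q.1

lemma sn_ge {a : ℝ} (h1 : 9 / 10 ≤ a) (h2 : a ≤ 1) : 1 / 2 ≤ sn a := by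
  have hpi := Real.pi_pos
  have hpi4 := Real.pi_le_four
  have ha : 0 < a := by linarith
  have hx : sn a = Real.cos (Real.pi / (2 * a) - Real.pi / 2) := by
    rw [Real.cos_sub_pi_div_two]; rfl
  have e : Real.pi / (2 * a) - Real.pi / 2 = Real.pi / 2 * ((1 - a) / a) := by
    field_simp
  have h3 : (1 - a) / a ≤ 1 / 9 := by
    rw [div_le_div_iff₀ ha (by norm_num)]; linarith
  have h4 : 0 ≤ (1 - a) / a := div_nonneg (by linarith) ha.le
  have h5 := Real.one_sub_sq_div_two_le_cos (x := Real.pi / (2 * a) - Real.pi / 2)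
  rw [hx]
  rw [e] at h5 ⊢
  have h6 : Real.pi / 2 * ((1 - a) / a) ≤ 1 := by nlinarith
  have h7 : 0 ≤ Real.pi / 2 * ((1 - a) / a) := by positivity
  nlinarith

lemma sn_le (a : ℝ) : sn a ≤ 1 := Real.sin_le_one _

lemma cont_arg {D : Set (ℝ × ℝ)} (hD : ∀ q ∈ D, 9 / 10 ≤ q.1) :
    ContinuousOn (fun q : ℝ × ℝ => Real.pi / (2 * q.1)) D :=
  continuousOn_const.div (continuousOn_const.mul continuousOn_fst) (fun q hq => by
    have := hD q hq
    have : 0 < 2 * q.1 := by linarith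
    exact this.ne')

lemma cont_tau (n : ℕ) {D : Set (ℝ × ℝ)} (hD : ∀ q ∈ D, 9 / 10 ≤ q.1 ∧ q.1 ≤ 1) :
    ContinuousOn (tau n) D := by
  unfold tau
  refine ContinuousOn.div (by fun_prop) ?_ ?_
  · exact Real.continuous_sin.comp_continuousOn (cont_arg (fun q hq => (hD q hq).1))
  · intro q hq
    have := sn_ge (hD q hq).1 (hD q hq).2
    have : 0 < sn q.1 := by linarith
    exact this.ne'

lemma cont_Gamma {D : Set (ℝ × ℝ)} (hD : ∀ q ∈ D, 9 / 10 ≤ q.1) :
    ContinuousOn (fun q : ℝ × ℝ => Real.Gamma q.1) D := by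
  intro q hq
  have h1 := hD q hq
  have h2 : ContinuousAt Real.Gamma q.1 := by
    refine (Real.differentiableAt_Gamma (fun m => ?_)).continuousAt
    have : (0 : ℝ) ≤ m := Nat.cast_nonneg m
    intro h
    linarith
  exact (ContinuousAt.comp (f := fun q : ℝ × ℝ => q.1) h2 continuousAt_fst).continuousWithinAt

lemma final {a T Y θ : ℝ} {n : ℕ} {k : ℂ} (hapos : 0 < a) (hΓ : 0 < Real.Gamma a)
    (hs : 0 < Real.sin (Real.pi * a)) (hYpos : 0 < Y) (hYdef : T ^ a = Y)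
    (hphase : T * Real.sin (Real.pi / (2 * a)) = θ - Real.pi / 2 + 2 * Real.pi * n)
    (hz : (P1 a T : ℂ) * Complex.exp (θ * Complex.I) =
      1 + (-((Y ^ 2 / Real.Gamma a : ℝ) : ℂ) * k - 1)) :
    (1 / a : ℂ) * Complex.exp (T * Complex.exp ((Real.pi / (2 * a) : ℝ) * Complex.I))
      - ((Real.sin (Real.pi * a) / Real.pi : ℝ) : ℂ) * (Complex.I * (Y : ℂ)) * k = 0 := by
  have hpi := Real.pi_pos
  -- the exponential
  have hexp : Complex.exp ((T : ℂ) * Complex.exp ((Real.pi / (2 * a) : ℝ) * Complex.I)) =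
      ((Real.exp (T * Real.cos (Real.pi / (2 * a))) : ℝ) : ℂ) *
        (Complex.exp (θ * Complex.I) * (-Complex.I)) := by
    have e1 : (T : ℂ) * Complex.exp ((Real.pi / (2 * a) : ℝ) * Complex.I) =
        ((T * Real.cos (Real.pi / (2 * a)) : ℝ) : ℂ) +
          ((T * Real.sin (Real.pi / (2 * a)) : ℝ) : ℂ) * Complex.I := by
      rw [Complex.exp_mul_I, ← Complex.ofReal_cos, ← Complex.ofReal_sin]
      push_cast
      ring
    rw [e1, hphase, Complex.exp_add, ← Complex.ofReal_exp]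
    congr 1
    have e2 : ((θ - Real.pi / 2 + 2 * Real.pi * n : ℝ) : ℂ) * Complex.I =
        θ * Complex.I + (-(Real.pi / 2 * Complex.I)) + (n : ℂ) * (2 * Real.pi * Complex.I) := by
      push_cast
      ring
    rw [e2, Complex.exp_add, Complex.exp_nat_mul_two_pi_mul_I, mul_one, Complex.exp_add,
      Complex.exp_neg, Complex.exp_pi_div_two_mul_I, Complex.inv_I]
  rw [hexp]
  -- the equation
  have hP : (P1 a T : ℂ) = (Real.pi * Y / (a * Real.Gamma a * Real.sin (Real.pi * a)) : ℂ) *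
      (Real.exp (T * Real.cos (Real.pi / (2 * a))) : ℂ) := by
    unfold P1
    rw [hYdef]
    push_cast
    ring
  rw [hP] at hz
  have c1 : (a : ℂ) ≠ 0 := by exact_mod_cast hapos.ne'
  have c2 : ((Real.Gamma a : ℝ) : ℂ) ≠ 0 := by exact_mod_cast hΓ.ne'
  have c3 : ((Real.sin (Real.pi * a) : ℝ) : ℂ) ≠ 0 := by exact_mod_cast hs.ne'
  have c4 : ((Real.pi : ℝ) : ℂ) ≠ 0 := by exact_mod_cast hpi.ne'
  have c5 : (Y : ℂ) ≠ 0 := by exact_mod_cast hYpos.ne'
  generalize ((Real.exp (T * Real.cos (Real.pi / (2 * a))) : ℝ) : ℂ) = e at hz ⊢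
  generalize Complex.exp (θ * Complex.I) = f at hz ⊢
  have hz' : (Real.pi * Y / (a * Real.Gamma a * Real.sin (Real.pi * a)) : ℂ) * e * f =
      -((Y : ℂ) ^ 2 / (Real.Gamma a : ℝ)) * k := by
    rw [hz]
    push_cast
    ring
  have hz2 : e * f = -((Y : ℂ) * (a : ℂ) * ((Real.sin (Real.pi * a) : ℝ) : ℂ) / Real.pi) * k := by
    have h1 : (Real.pi * Y / (a * Real.Gamma a * Real.sin (Real.pi * a)) : ℂ) ≠ 0 := by
      simp only [ne_eq, div_eq_zero_iff, mul_eq_zero, not_or]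
      exact ⟨⟨c4, c5⟩, ⟨c1, c2⟩, c3⟩
    apply mul_left_cancel₀ h1
    rw [← mul_assoc, hz']
    field_simp
  calc (1 / a : ℂ) * (e * (f * -Complex.I)) -
        ((Real.sin (Real.pi * a) / Real.pi : ℝ) : ℂ) * (Complex.I * (Y : ℂ)) * k
      = -(1 / a : ℂ) * Complex.I * (e * f) -
        ((Real.sin (Real.pi * a) / Real.pi : ℝ) : ℂ) * (Complex.I * (Y : ℂ)) * k := by ring
    _ = 0 := by
        rw [hz2]
        push_cast
        field_simp
        ring


theorem t_FIN1 : S_REP1 → S_DEL1 → S_CONT1 → S_G1 → S_TOP → S_PA1 → S_PB1 → S_FIN1 := by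
  intro hREP hDEL hCONT hG1 hTOP hPA hPB
  have hpi := Real.pi_pos
  have hpi3 := Real.pi_gt_three
  have hpi4 := Real.pi_le_four
  -- the choice of `n`
  obtain ⟨N0, hN0⟩ : ∃ N0 : ℝ, ∀ τ : ℝ, N0 ≤ τ → P1 (9 / 10) τ ≤ 1 / 10 := by
    have h1 : ∀ᶠ τ : ℝ in Filter.atTop, P1 (9 / 10) τ < 1 / 10 :=
      hPA.eventually (gt_mem_nhds (by norm_num))
    obtain ⟨N0, h2⟩ := Filter.eventually_atTop.1 h1
    exact ⟨N0, fun τ hτ => (h2 τ hτ).le⟩
  obtain ⟨n, hn⟩ : ∃ n : ℕ, max N0 144 ≤ n := exists_nat_ge _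
  have hnN : N0 ≤ n := (le_max_left _ _).trans hn
  have hn144 : (144 : ℝ) ≤ n := (le_max_right _ _).trans hn
  -- bounds for the numerator
  have hnum : ∀ θ : ℝ, θ ∈ Icc (-(Real.pi / 4)) (Real.pi / 4) →
      (n : ℝ) ≤ θ - Real.pi / 2 + 2 * Real.pi * n ∧
        θ - Real.pi / 2 + 2 * Real.pi * n ≤ 2 * Real.pi * n := by
    intro θ hθ
    obtain ⟨h1, h2⟩ := hθ
    constructor
    · nlinarith
    · linarith
  have htau : ∀ q : ℝ × ℝ, 9 / 10 ≤ q.1 → q.1 ≤ 1 → q.2 ∈ Icc (-(Real.pi / 4)) (Real.pi / 4) →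
      (n : ℝ) ≤ tau n q ∧ tau n q ≤ 4 * Real.pi * n := by
    intro q h1 h2 h3
    obtain ⟨h4, h5⟩ := hnum q.2 h3
    have h6 := sn_ge h1 h2
    have h7 := sn_le q.1
    have h8 : 0 < sn q.1 := by linarith
    unfold tau
    constructor
    · rw [le_div_iff₀ h8]
      nlinarith
    · rw [div_le_iff₀ h8]
      nlinarith
  -- the choice of `a₁`
  obtain ⟨a1, ha1, ha1', hbig⟩ := hPB (4 * Real.pi * n) (by nlinarith)
  set D : Set (ℝ × ℝ) := Icc (9 / 10) a1 ×ˢ Icc (-(Real.pi / 4)) (Real.pi / 4) with hDdef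
  have hD : ∀ q ∈ D, 9 / 10 ≤ q.1 ∧ q.1 ≤ 1 := fun q hq => ⟨hq.1.1, hq.1.2.trans ha1'.le⟩
  have hDlt : ∀ q ∈ D, q.1 < 1 := fun q hq => lt_of_le_of_lt hq.1.2 ha1'
  have hτD : ∀ q ∈ D, (n : ℝ) ≤ tau n q ∧ tau n q ≤ 4 * Real.pi * n :=
    fun q hq => htau q (hD q hq).1 (hD q hq).2 hq.2
  have hyD : ∀ q ∈ D, 12 ≤ tau n q ^ q.1 := by
    intro q hq
    have h1 := (hτD q hq).1
    have h2 : (1 : ℝ) ≤ tau n q := by linarith
    have h3 : (144 : ℝ) ^ (1 / 2 : ℝ) ≤ tau n q ^ q.1 :=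
      (Real.rpow_le_rpow (by norm_num) (by linarith) (by norm_num)).trans
        (Real.rpow_le_rpow_of_exponent_le h2 (by linarith [(hD q hq).1]))
    have h4 : (144 : ℝ) ^ (1 / 2 : ℝ) = 12 := by
      rw [← Real.sqrt_eq_rpow, show (144 : ℝ) = 12 ^ 2 by norm_num]
      exact Real.sqrt_sq (by norm_num)
    linarith
  have hcτ := cont_tau n hD
  have hcy : ContinuousOn (fun q : ℝ × ℝ => tau n q ^ q.1) D :=
    hcτ.rpow continuousOn_fst (fun q hq => Or.inr (by linarith [(hD q hq).1]))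
  have hcG := cont_Gamma (D := D) (fun q hq => (hD q hq).1)
  have hGpos : ∀ q ∈ D, 0 < Real.Gamma q.1 := fun q hq =>
    Real.Gamma_pos_of_pos (by linarith [(hD q hq).1])
  have hsin : ∀ q ∈ D, 0 < Real.sin (Real.pi * q.1) := fun q hq =>
    Real.sin_pos_of_pos_of_lt_pi (mul_pos hpi (by linarith [(hD q hq).1]))
      (by nlinarith [hDlt q hq])
  have hPpos : ∀ q ∈ D, 0 < P1 q.1 (tau n q) := by
    intro q hq
    have h1 := hGpos q hq
    have h2 := hsin q hq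
    have h3 := hyD q hq
    have h4 : 0 < q.1 := by linarith [(hD q hq).1]
    unfold P1
    positivity
  -- the zero
  have hcP : ContinuousOn (fun q : ℝ × ℝ => P1 q.1 (tau n q)) D := by
    unfold P1
    refine ContinuousOn.mul (ContinuousOn.div (continuousOn_const.mul hcy)
      ((continuousOn_fst.mul hcG).mul (Real.continuous_sin.comp_continuousOn
        (continuousOn_const.mul continuousOn_fst))) ?_)
      (Real.continuous_exp.comp_continuousOn (hcτ.mul (Real.continuous_cos.comp_continuousOn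
        (cont_arg (fun q hq => (hD q hq).1)))))
    intro q hq
    have h1 := hGpos q hq
    have h2 := hsin q hq
    have h4 : 0 < q.1 := by linarith [(hD q hq).1]
    positivity
  have hcK : ContinuousOn (fun q : ℝ × ℝ => K q.1 q.1 (Complex.I * ((tau n q ^ q.1 : ℝ) : ℂ))) D := by
    have h1 : MapsTo (fun q : ℝ × ℝ => ((q.1, tau n q ^ q.1) : ℝ × ℝ)) D
        (Icc (9 / 10) 1 ×ˢ Ioi 0) := by
      intro q hq
      refine ⟨⟨(hD q hq).1, (hD q hq).2⟩, ?_⟩
      have := hyD q hq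
      show 0 < tau n q ^ q.1
      linarith
    exact hCONT.comp (continuousOn_fst.prodMk hcy) h1
  have hcδ : ContinuousOn (fun q : ℝ × ℝ =>
      -(((tau n q ^ q.1) ^ 2 / Real.Gamma q.1 : ℝ) : ℂ) *
        K q.1 q.1 (Complex.I * ((tau n q ^ q.1 : ℝ) : ℂ)) - 1) D := by
    refine ContinuousOn.sub (ContinuousOn.mul (ContinuousOn.neg ?_) hcK) continuousOn_const
    exact Complex.continuous_ofReal.comp_continuousOn
      ((hcy.pow 2).div hcG (fun q hq => (hGpos q hq).ne'))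
  obtain ⟨a, haI, θ, hθ, hz⟩ := hTOP (9 / 10) a1 (fun q => P1 q.1 (tau n q))
    (fun q => -(((tau n q ^ q.1) ^ 2 / Real.Gamma q.1 : ℝ) : ℂ) *
        K q.1 q.1 (Complex.I * ((tau n q ^ q.1 : ℝ) : ℂ)) - 1) ha1.le hcP hcδ
    (by
      intro q hq
      refine ⟨hPpos q hq, ?_⟩
      have h1 := hyD q hq
      have h2 := hDEL q.1 (tau n q ^ q.1) (hD q hq).1 (hDlt q hq) (by linarith)
      refine h2.trans ?_
      rw [div_le_div_iff₀ (by linarith) (by norm_num)]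
      linarith)
    (by
      intro θ hθ
      apply hN0
      have h1 := (htau (9 / 10, θ) (by norm_num) (by norm_num) hθ).1
      exact hnN.trans h1)
    (by
      intro θ hθ
      have h1 := htau (a1, θ) ha1.le ha1'.le hθ
      exact hbig _ (by linarith [h1.1]) h1.2)
  have hq : ((a, θ) : ℝ × ℝ) ∈ D := ⟨haI, hθ⟩
  have ha9 : 9 / 10 ≤ a := haI.1
  have ha1lt : a < 1 := lt_of_le_of_lt haI.2 ha1'
  have hapos : 0 < a := by linarith
  have hτ1 : (n : ℝ) ≤ tau n (a, θ) := (hτD _ hq).1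
  have hy12 : 12 ≤ tau n (a, θ) ^ a := hyD _ hq
  have hsn : 0 < sn a := by linarith [sn_ge ha9 ha1lt.le]
  have hphase : tau n (a, θ) * Real.sin (Real.pi / (2 * a)) =
      θ - Real.pi / 2 + 2 * Real.pi * n := by
    show (θ - Real.pi / 2 + 2 * Real.pi * n) / sn a * sn a = _
    exact div_mul_cancel₀ _ hsn.ne'
  refine ⟨a, by linarith, ha1lt, tau n (a, θ) ^ a, ?_⟩
  have hz' : (P1 a (tau n (a, θ)) : ℂ) * Complex.exp (θ * Complex.I) =
      1 + (-(((tau n (a, θ) ^ a) ^ 2 / Real.Gamma a : ℝ) : ℂ) *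
        K a a (Complex.I * ((tau n (a, θ) ^ a : ℝ) : ℂ)) - 1) := hz
  have e1 := hREP a (tau n (a, θ)) ha9 ha1lt (by clear hz hz'; linarith)
  have g1 : 0 < Real.Gamma a := hGpos (a, θ) hq
  have g2 : 0 < Real.sin (Real.pi * a) := hsin (a, θ) hq
  have g3 : 0 < tau n (a, θ) ^ a := by clear hz hz' e1; linarith
  rw [e1]
  exact final hapos g1 g2 g3 rfl hphase hz'

end R833.ML.FIN1
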