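import Pool.Agent.R833.ML.Defs

/-! ML-FIN2 (MP_aff8e8_an): final assembly. helper710. -/

set_option autoImplicit false

namespace R833.ML

namespace FIN2

theorem cos_bd (a : ℝ) (h1 : 19 / 10 ≤ a) (h2 : a ≤ 2) :
    9 / 10 ≤ -Real.cos (2 * Real.pi / a) := by
  have ha : 0 < a := by linarith
  have hπ := Real.pi_pos
  have hx : 2 * Real.pi / a = (2 * Real.pi / a - Real.pi) + Real.pi := by ring
  rw [hx, Real.cos_add_pi, neg_neg]
  have h3 := Real.one_sub_sq_div_two_le_cos (x := 2 * Real.pi / a - Real.pi)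
  have h4 : 0 ≤ 2 * Real.pi / a - Real.pi := by
    rw [sub_nonneg, le_div_iff₀ ha]
    nlinarith
  have h5 : 2 * Real.pi / a - Real.pi ≤ 1 / 5 := by
    have h6 : 2 * Real.pi / a ≤ 2 * Real.pi / (19 / 10) :=
      div_le_div_of_nonneg_left (by positivity) (by norm_num) h1
    have h7 := Real.pi_lt_d2
    have h8 : 2 * Real.pi / (19 / 10) = Real.pi * (20 / 19) := by ring
    rw [h8] at h6
    linarith
  nlinarith

/-- the parameter `τ` -/
noncomputable def tt (n : ℕ) (q : ℝ × ℝ) : ℝ :=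
  (q.2 + Real.pi * (q.1 + 1) / 2 + 2 * Real.pi * n) / (-Real.cos (2 * Real.pi / q.1))

theorem tt_lower (n : ℕ) (a θ : ℝ) (h1 : 19 / 10 ≤ a) (h2 : a ≤ 2) (h3 : -(Real.pi / 4) ≤ θ) :
    (n : ℝ) + 1 ≤ tt n (a, θ) := by
  have hπ := Real.pi_pos
  have hπ3 := Real.pi_gt_three
  have hc := cos_bd a h1 h2
  have hc1 : -Real.cos (2 * Real.pi / a) ≤ 1 := by
    linarith [Real.neg_one_le_cos (2 * Real.pi / a)]
  unfold tt
  simp only
  rw [le_div_iff₀ (by linarith)]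
  have hn : (0 : ℝ) ≤ n := Nat.cast_nonneg n
  have e1 : ((n : ℝ) + 1) * -Real.cos (2 * Real.pi / a) ≤ ((n : ℝ) + 1) * 1 :=
    mul_le_mul_of_nonneg_left hc1 (by linarith)
  have e2 : Real.pi * (29 / 10) ≤ Real.pi * (a + 1) :=
    mul_le_mul_of_nonneg_left (by linarith) hπ.le
  have e3 : 3 * (n : ℝ) ≤ Real.pi * n := mul_le_mul_of_nonneg_right hπ3.le hn
  linarith

theorem tt_upper (n : ℕ) (a θ : ℝ) (h1 : 19 / 10 ≤ a) (h2 : a ≤ 2) (h3 : -(Real.pi / 4) ≤ θ)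
    (h4 : θ ≤ Real.pi / 4) :
    tt n (a, θ) ≤ (Real.pi / 4 + Real.pi * 3 / 2 + 2 * Real.pi * n) / (9 / 10) := by
  have hπ := Real.pi_pos
  have hc := cos_bd a h1 h2
  have hn : (0 : ℝ) ≤ n := Nat.cast_nonneg n
  have hn2 : 0 ≤ 2 * Real.pi * n := by positivity
  have e2 : Real.pi * (a + 1) ≤ Real.pi * 3 :=
    mul_le_mul_of_nonneg_left (by linarith) hπ.le
  have e3 : Real.pi * (29 / 10) ≤ Real.pi * (a + 1) :=
    mul_le_mul_of_nonneg_left (by linarith) hπ.le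
  unfold tt
  simp only
  have e4 : (θ + Real.pi * (a + 1) / 2 + 2 * Real.pi * n) / (-Real.cos (2 * Real.pi / a)) ≤
      (θ + Real.pi * (a + 1) / 2 + 2 * Real.pi * n) / (9 / 10) :=
    div_le_div_of_nonneg_left (by linarith) (by norm_num) hc
  refine e4.trans ?_
  exact div_le_div_of_nonneg_right (by linarith) (by norm_num)

theorem tt_cont (n : ℕ) : ContinuousOn (tt n) {q : ℝ × ℝ | 19 / 10 ≤ q.1 ∧ q.1 ≤ 2} := by
  unfold tt
  refine ContinuousOn.div (by fun_prop) ?_ ?_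
  · refine ContinuousOn.neg (Real.continuous_cos.comp_continuousOn ?_)
    refine continuousOn_const.div continuousOn_fst ?_
    intro q hq
    have := hq.1
    linarith
  · intro q hq
    have := cos_bd q.1 hq.1 hq.2
    linarith

theorem Gamma_cont : ContinuousOn Real.Gamma (Set.Ioi 0) := by
  intro x hx
  refine (Real.differentiableAt_Gamma (fun m => ?_)).continuousAt.continuousWithinAt
  have h1 : (0 : ℝ) < x := hx
  have h2 : (0 : ℝ) ≤ m := Nat.cast_nonneg m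
  intro h
  linarith

theorem sg_neg (a : ℝ) (ha : 19 / 10 ≤ a) (ha2 : a < 2) : sg a < 0 := by
  have hπ := Real.pi_pos
  unfold sg
  have h5 : Real.sin (Real.pi * a) < 0 := by
    have e : Real.pi * a = (Real.pi * a - 2 * Real.pi) + 2 * Real.pi := by ring
    rw [e, Real.sin_add_two_pi]
    apply Real.sin_neg_of_neg_of_neg_pi_lt
    · nlinarith
    · nlinarith
  exact div_neg_of_neg_of_pos h5 hπ

theorem P2_pos (a τ : ℝ) (ha : 19 / 10 ≤ a) (ha2 : a < 2) (hτ : 0 < τ) : 0 < P2 a τ := by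
  have hπ := Real.pi_pos
  have ha0 : 0 < a := by linarith
  have hsin : 0 < Real.sin (Real.pi / a) := by
    apply Real.sin_pos_of_pos_of_lt_pi (by positivity)
    rw [div_lt_iff₀ ha0]
    nlinarith
  have hsg := sg_neg a ha ha2
  have hΓ : 0 < Real.Gamma (a - 1) := Real.Gamma_pos_of_pos (by linarith)
  have hsg' : 0 < -sg a := by linarith
  unfold P2
  have h1 : 0 < τ ^ (a - 1) := Real.rpow_pos_of_pos hτ _
  have h2 := Real.exp_pos (τ * Real.sin (2 * Real.pi / a))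
  positivity

theorem P2_cont : ContinuousOn (fun q : ℝ × ℝ => P2 q.1 q.2)
    (Set.Ico (19 / 10) 2 ×ˢ Set.Ioi 0) := by
  unfold P2
  have hfst : ContinuousOn (fun q : ℝ × ℝ => q.1) (Set.Ico (19 / 10) 2 ×ˢ Set.Ioi 0) :=
    continuousOn_fst
  have hsnd : ContinuousOn (fun q : ℝ × ℝ => q.2) (Set.Ico (19 / 10) 2 ×ˢ Set.Ioi 0) :=
    continuousOn_snd
  have h0 : ∀ q ∈ (Set.Ico (19 / 10 : ℝ) 2 ×ˢ Set.Ioi (0 : ℝ)), q.1 ≠ 0 := by
    rintro q ⟨hq, -⟩
    have := hq.1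
    linarith
  have hsg : ContinuousOn (fun q : ℝ × ℝ => -sg q.1) (Set.Ico (19 / 10) 2 ×ˢ Set.Ioi 0) := by
    unfold sg
    fun_prop
  have hG : ContinuousOn (fun q : ℝ × ℝ => Real.Gamma (q.1 - 1))
      (Set.Ico (19 / 10) 2 ×ˢ Set.Ioi 0) := by
    refine Gamma_cont.comp (hfst.sub continuousOn_const) ?_
    rintro q ⟨hq, -⟩
    have := hq.1
    show (0 : ℝ) < q.1 - 1
    linarith
  refine ContinuousOn.mul (ContinuousOn.mul (ContinuousOn.div ?_ ?_ ?_) ?_) ?_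
  · refine continuousOn_const.mul (ContinuousOn.pow ?_ 2)
    exact Real.continuous_sin.comp_continuousOn (continuousOn_const.div hfst h0)
  · exact (hfst.mul hsg).mul hG
  · rintro q ⟨hq, -⟩
    have h1 := sg_neg q.1 hq.1 hq.2
    have h2 : 0 < Real.Gamma (q.1 - 1) := Real.Gamma_pos_of_pos (by linarith [hq.1])
    have h3 := hq.1
    have h4 : 0 < q.1 := by linarith
    have h5 : 0 < -sg q.1 := by linarith
    positivity
  · refine ContinuousOn.rpow hsnd (hfst.sub continuousOn_const) ?_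
    rintro q ⟨-, hq⟩
    exact Or.inl (ne_of_gt hq)
  · refine Real.continuous_exp.comp_continuousOn (hsnd.mul ?_)
    exact Real.continuous_sin.comp_continuousOn (continuousOn_const.div hfst h0)

end FIN2

open FIN2

theorem t_FIN2 (hA : S_ALG2) (hB : S_BD2) (hC : S_CONT3) (hPol : S_POL2) (hT : S_TOP)
    (hPA : S_PA2) (hPB : S_PB2) : S_FIN2 := by
  have hπ := Real.pi_pos
  have hπ3 := Real.pi_gt_three
  have hev := hPA.eventually (Iic_mem_nhds (show (0 : ℝ) < 1 / 10 by norm_num))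
  obtain ⟨T0, hT0⟩ := Filter.eventually_atTop.1 hev
  obtain ⟨n, hn⟩ := exists_nat_ge (max T0 100)
  have hn1 : T0 ≤ n := (le_max_left _ _).trans hn
  have hn2 : (100 : ℝ) ≤ n := (le_max_right _ _).trans hn
  obtain ⟨T, hTd⟩ : ∃ T, T = (Real.pi / 4 + Real.pi * 3 / 2 + 2 * Real.pi * n) / (9 / 10) :=
    ⟨_, rfl⟩
  have hT1 : 1 ≤ T := by
    rw [hTd, le_div_iff₀ (by norm_num)]
    have : 3 * (n : ℝ) ≤ Real.pi * n := mul_le_mul_of_nonneg_right hπ3.le (by linarith)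
    linarith
  obtain ⟨a1, ha1, ha2, hP1⟩ := hPB T hT1
  -- the map
  have hmaps : ∀ q ∈ Set.Icc (19 / 10) a1 ×ˢ Set.Icc (-(Real.pi / 4)) (Real.pi / 4),
      (q.1, tt n q) ∈ (Set.Ico (19 / 10 : ℝ) 2 ×ˢ Set.Ioi (0 : ℝ)) := by
    rintro ⟨a, θ⟩ ⟨hq1, hq2⟩
    have h1 := tt_lower n a θ hq1.1 (hq1.2.trans ha2.le) hq2.1
    refine ⟨⟨hq1.1, lt_of_le_of_lt hq1.2 ha2⟩, ?_⟩
    show 0 < tt n (a, θ)
    linarith
  have hmc : ContinuousOn (fun q : ℝ × ℝ => (q.1, tt n q))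
      (Set.Icc (19 / 10) a1 ×ˢ Set.Icc (-(Real.pi / 4)) (Real.pi / 4)) := by
    refine continuousOn_fst.prodMk ((tt_cont n).mono ?_)
    rintro ⟨a, θ⟩ ⟨hq1, -⟩
    exact ⟨hq1.1, hq1.2.trans ha2.le⟩
  have hge : ∀ q ∈ Set.Icc (19 / 10) a1 ×ˢ Set.Icc (-(Real.pi / 4)) (Real.pi / 4),
      100 ≤ tt n q := by
    rintro ⟨a, θ⟩ ⟨hq1, hq2⟩
    have h1 := tt_lower n a θ hq1.1 (hq1.2.trans ha2.le) hq2.1
    linarith
  have hbd : ∀ q ∈ Set.Icc (19 / 10) a1 ×ˢ Set.Icc (-(Real.pi / 4)) (Real.pi / 4),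
      ‖eta q.1 (tt n q)‖ ≤ 1 / 10 ∧ ‖del q.1 (tt n q)‖ ≤ 1 / 10 := by
    intro q hq
    exact hB q.1 (tt n q) hq.1.1 (lt_of_le_of_lt hq.1.2 ha2) (hge q hq)
  have hne : ∀ q ∈ Set.Icc (19 / 10) a1 ×ˢ Set.Icc (-(Real.pi / 4)) (Real.pi / 4),
      9 / 10 ≤ ‖1 + eta q.1 (tt n q)‖ := by
    intro q hq
    have h1 := (hbd q hq).1
    have h2 : ‖(1 : ℂ)‖ ≤ ‖1 + eta q.1 (tt n q)‖ + ‖eta q.1 (tt n q)‖ := by
      have := norm_sub_le (1 + eta q.1 (tt n q)) (eta q.1 (tt n q))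
      simpa using this
    rw [norm_one] at h2
    linarith
  have hne0 : ∀ q ∈ Set.Icc (19 / 10) a1 ×ˢ Set.Icc (-(Real.pi / 4)) (Real.pi / 4),
      1 + eta q.1 (tt n q) ≠ 0 := by
    intro q hq h0
    have := hne q hq
    rw [h0, norm_zero] at this
    linarith
  obtain ⟨a, ha, θ, hθ, hsol⟩ := hT (19 / 10) a1 (fun q => P2 q.1 (tt n q))
    (fun q => (1 + del q.1 (tt n q)) / (1 + eta q.1 (tt n q)) - 1) ha1.le
    (P2_cont.comp hmc hmaps)
    (((continuousOn_const.add (hC.2.comp hmc hmaps)).div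
      (continuousOn_const.add (hC.1.comp hmc hmaps)) hne0).sub continuousOn_const)
    (by
      intro q hq
      refine ⟨P2_pos q.1 (tt n q) hq.1.1 (lt_of_le_of_lt hq.1.2 ha2)
        (by linarith [hge q hq]), ?_⟩
      have e1 : (1 + del q.1 (tt n q)) / (1 + eta q.1 (tt n q)) - 1 =
          (del q.1 (tt n q) - eta q.1 (tt n q)) / (1 + eta q.1 (tt n q)) := by
        rw [div_sub_one (hne0 q hq)]
        congr 1
        ring
      rw [e1, norm_div]
      have h1 := hne q hq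
      rw [div_le_iff₀ (by linarith)]
      have h2 := norm_sub_le (del q.1 (tt n q)) (eta q.1 (tt n q))
      have h3 := hbd q hq
      linarith [h3.1, h3.2])
    (by
      intro θ hθ
      have h1 := tt_lower n (19 / 10) θ le_rfl (by norm_num) hθ.1
      exact hT0 (tt n (19 / 10, θ)) (by linarith))
    (by
      intro θ hθ
      have h1 := tt_lower n a1 θ ha1.le ha2.le hθ.1
      have h2 := tt_upper n a1 θ ha1.le ha2.le hθ.1 hθ.2
      exact hP1 (tt n (a1, θ)) (by linarith) (by rw [hTd]; exact h2))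
  have hq : ((a, θ) : ℝ × ℝ) ∈ Set.Icc (19 / 10) a1 ×ˢ Set.Icc (-(Real.pi / 4)) (Real.pi / 4) :=
    ⟨ha, hθ⟩
  have ha3 : a < 2 := lt_of_le_of_lt ha.2 ha2
  have hτ : 0 < tt n (a, θ) := by linarith [hge _ hq]
  have hη0 := hne0 _ hq
  simp only at hsol hη0
  refine ⟨a, by linarith [ha.1], ha3, tt n (a, θ) ^ a, Real.rpow_pos_of_pos hτ a, ?_⟩
  refine hA a (tt n (a, θ)) ha.1 ha3 hτ ?_
  have hM := hPol a (tt n (a, θ)) ha.1 ha3 hτ
  have hcos := cos_bd a ha.1 ha3.le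
  have hphase : -(tt n (a, θ) * Real.cos (2 * Real.pi / a)) - Real.pi * (a - 1) / 2 =
      θ + Real.pi + n * (2 * Real.pi) := by
    have h1 : tt n (a, θ) * (-Real.cos (2 * Real.pi / a)) =
        θ + Real.pi * (a + 1) / 2 + 2 * Real.pi * n := by
      unfold tt
      exact div_mul_cancel₀ _ (by linarith)
    linarith
  have hexp : Complex.exp (((-(tt n (a, θ) * Real.cos (2 * Real.pi / a)) -
      Real.pi * (a - 1) / 2 : ℝ) : ℂ) * Complex.I) = -Complex.exp (θ * Complex.I) := by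
    rw [hphase]
    push_cast
    have e1 : ((θ : ℂ) + Real.pi + n * (2 * Real.pi)) * Complex.I =
        θ * Complex.I + Real.pi * Complex.I + n * (2 * Real.pi * Complex.I) := by ring
    rw [e1, Complex.exp_periodic.nat_mul n, Complex.exp_add, Complex.exp_pi_mul_I]
    ring
  rw [hM, hexp]
  have h5 : (1 + del a (tt n (a, θ))) / (1 + eta a (tt n (a, θ))) * (1 + eta a (tt n (a, θ))) =
      1 + del a (tt n (a, θ)) := div_mul_cancel₀ _ hη0
  have h6 : (P2 a (tt n (a, θ)) : ℂ) * Complex.exp (θ * Complex.I) =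
      (1 + del a (tt n (a, θ))) / (1 + eta a (tt n (a, θ))) := by
    rw [hsol]
    ring
  calc (P2 a (tt n (a, θ)) : ℂ) * -Complex.exp (θ * Complex.I) * (1 + eta a (tt n (a, θ)))
      = -((P2 a (tt n (a, θ)) : ℂ) * Complex.exp (θ * Complex.I) *
          (1 + eta a (tt n (a, θ)))) := by ring
    _ = -(1 + del a (tt n (a, θ))) := by rw [h6, h5]

end R833.ML
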