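import Pool.Agent.R833.ML.Defs

/-!
# Project ML, pieces G1 and G2 (helper657): convexity inequalities for the Gamma function
-/

set_option autoImplicit false

namespace R833.ML

theorem Gamma_le_max {x y z : ℝ} (hx : 0 < x) (h1 : x ≤ z) (h2 : z ≤ y) :
    Real.Gamma z ≤ max (Real.Gamma x) (Real.Gamma y) :=
  Real.convexOn_Gamma.le_max_of_mem_Icc (by exact hx) (by exact lt_of_lt_of_le hx (h1.trans h2))
    ⟨h1, h2⟩

theorem Gamma_le_one {z : ℝ} (h1 : 1 ≤ z) (h2 : z ≤ 2) : Real.Gamma z ≤ 1 := by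
  have h := Gamma_le_max (x := 1) one_pos h1 h2
  rwa [Real.Gamma_one, Real.Gamma_two, max_self] at h

theorem one_le_Gamma {z : ℝ} (h1 : 0 < z) (h2 : z < 1) : 1 ≤ Real.Gamma z := by
  have h := Real.convexOn_Gamma.slope_mono_adjacent (x := z) (y := 1) (z := 2) (by exact h1)
    (by norm_num) h2 (by norm_num)
  rw [Real.Gamma_one, Real.Gamma_two, sub_self, zero_div] at h
  have h3 : 0 < 1 - z := by linarith
  rw [div_le_iff₀ h3] at h
  linarith

theorem t_G1 : S_G1 := by
  intro a h1 h2
  refine ⟨one_le_Gamma (by linarith) h2, Gamma_le_one (by linarith) (by linarith), ?_⟩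
  rw [← Real.Gamma_add_one (by linarith)]
  exact Gamma_le_one (by linarith) (by linarith)

theorem t_G2 : S_G2 := by
  intro a h1 h2
  have h3 : 0 < Real.Gamma a := Real.Gamma_pos_of_pos (by linarith)
  have h4 : Real.Gamma a ≤ 1 := Gamma_le_one (by linarith) (by linarith)
  have h5 : 1 ≤ Real.Gamma (a - 1) := one_le_Gamma (by linarith) (by linarith)
  have h6 : Real.Gamma a = (a - 1) * Real.Gamma (a - 1) := by
    rw [← Real.Gamma_add_one (by linarith), sub_add_cancel]
  have h7 : Real.Gamma (a + 1) = a * Real.Gamma a := Real.Gamma_add_one (by linarith)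
  refine ⟨h5, ?_, h3, h4, ?_, ?_, ?_⟩
  · nlinarith
  · rw [h7]
    apply mul_pos (by linarith) h3
  · rw [h7]
    nlinarith
  · intro c hc
    have h8 : 1 ≤ c + a ∧ c + a ≤ 5 := by
      rcases hc with rfl | rfl | rfl <;> constructor <;> linarith
    have h9 := Gamma_le_max (x := 1) one_pos h8.1 h8.2
    have h10 : Real.Gamma 5 = 24 := by
      rw [show (5 : ℝ) = ((4 : ℕ) : ℝ) + 1 by norm_num, Real.Gamma_nat_eq_factorial]
      norm_num [Nat.factorial]
    rw [Real.Gamma_one, h10] at h9
    norm_num at h9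
    exact h9

end R833.ML
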