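import Pool.Agent.R833.ML.Defs

/-!
Project ML, piece GAM: the Gamma integral in logarithmic coordinates.
-/

set_option autoImplicit false

namespace R833.ML

open MeasureTheory Set

namespace GAM

theorem smul_eq (c t : ℝ) :
    |Real.exp t| • (Real.exp (-Real.exp t) * (Real.exp t) ^ (c - 1)) = wt c t := by
  rw [abs_of_pos (Real.exp_pos t), smul_eq_mul, ← Real.exp_mul]
  unfold wt
  rw [← mul_assoc, mul_comm (Real.exp t), mul_assoc, ← Real.exp_add]
  congr 2
  ring

theorem image_exp : Real.exp '' (univ : Set ℝ) = Ioi 0 := by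
  rw [image_univ, Real.range_exp]

end GAM

open GAM in
theorem t_GAM : S_GAM := by
  intro c hc
  have hI : IntegrableOn (fun x : ℝ => Real.exp (-x) * x ^ (c - 1)) (Ioi 0) :=
    Real.GammaIntegral_convergent hc
  have hd : ∀ x ∈ (univ : Set ℝ), HasDerivWithinAt Real.exp (Real.exp x) univ x :=
    fun x _ => (Real.hasDerivAt_exp x).hasDerivWithinAt
  have hinj : InjOn Real.exp (univ : Set ℝ) := Real.exp_injective.injOn
  constructor
  · have h1 := (integrableOn_image_iff_integrableOn_abs_deriv_smul
      MeasurableSet.univ hd hinj (fun x : ℝ => Real.exp (-x) * x ^ (c - 1))).1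
      (by rw [image_exp]; exact hI)
    rw [integrableOn_univ] at h1
    refine h1.congr (Filter.Eventually.of_forall fun t => ?_)
    exact smul_eq c t
  · have h2 := integral_image_eq_integral_abs_deriv_smul
      MeasurableSet.univ hd hinj (fun x : ℝ => Real.exp (-x) * x ^ (c - 1))
    rw [image_exp, setIntegral_univ] at h2
    rw [Real.Gamma_eq_integral hc, h2]
    exact integral_congr_ae (Filter.Eventually.of_forall fun t => (smul_eq c t).symm)

end R833.ML
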