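import Pool.Agent.R833.ML.Defs

/-!
# ML-HK: Hankel's formula
-/

set_option autoImplicit false

namespace R833.ML

open MeasureTheory Filter

theorem HK_one_lim : Tendsto (fun x : ℝ => h 1 x) atBot (nhds 1) := by
  have hpi := Real.pi_pos
  have h0 : Tendsto (fun x : ℝ => 2 * Real.exp x) atBot (nhds 0) := by
    have h1 := Real.tendsto_exp_atBot.const_mul (2 : ℝ)
    rwa [mul_zero] at h1
  rw [tendsto_iff_norm_sub_tendsto_zero]
  refine squeeze_zero' (Eventually.of_forall fun x => norm_nonneg _) ?_ h0
  filter_upwards [eventually_le_atBot 0] with x hx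
  have h1 : h 1 x - 1 = (1 / (2 * Real.pi) : ℂ) * (∫ θ in (-Real.pi)..Real.pi,
      (Complex.exp (Complex.exp (x + θ * Complex.I)) - 1)) := by
    unfold h
    have hc : Continuous fun θ : ℝ => Complex.exp (Complex.exp (x + θ * Complex.I)) := by
      fun_prop
    rw [intervalIntegral.integral_sub (hc.intervalIntegrable _ _)
      (continuous_const.intervalIntegrable _ _)]
    have hπC : (Real.pi : ℂ) ≠ 0 := by exact_mod_cast hpi.ne'
    have e1 : (∫ θ in (-Real.pi)..Real.pi, Complex.exp (Complex.exp (x + θ * Complex.I)) *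
        Complex.exp ((1 - (1 : ℝ) : ℂ) * (x + θ * Complex.I))) =
        ∫ θ in (-Real.pi)..Real.pi, Complex.exp (Complex.exp (x + θ * Complex.I)) := by
      refine intervalIntegral.integral_congr fun θ _ => ?_
      simp
    rw [e1, mul_one Real.pi, Real.sin_pi, intervalIntegral.integral_const]
    obtain ⟨P, hP⟩ : ∃ P, P = ∫ θ in (-Real.pi)..Real.pi,
        Complex.exp (Complex.exp (x + θ * Complex.I)) := ⟨_, rfl⟩
    rw [← hP, zero_div, zero_mul, sub_neg_eq_add]
    have e2 : ((Real.pi + Real.pi) • (1 : ℂ)) = 2 * Real.pi := by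
      rw [Complex.real_smul]
      push_cast
      ring
    rw [e2]
    push_cast
    field_simp
    ring
  rw [h1, norm_mul]
  have h2 : ∀ θ ∈ Set.uIoc (-Real.pi) Real.pi,
      ‖Complex.exp (Complex.exp (x + θ * Complex.I)) - 1‖ ≤ 2 * Real.exp x := by
    intro θ _
    have h3 : ‖Complex.exp (x + θ * Complex.I)‖ = Real.exp x := by
      rw [Complex.norm_exp]
      simp
    have h4 : ‖Complex.exp (x + θ * Complex.I)‖ ≤ 1 := by
      rw [h3]
      exact Real.exp_le_one_iff.2 hx
    have h5 := Complex.norm_exp_sub_one_le h4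
    rwa [h3] at h5
  have h6 := intervalIntegral.norm_integral_le_of_norm_le_const h2
  have h7 : ‖(1 / (2 * Real.pi) : ℂ)‖ = 1 / (2 * Real.pi) := by
    rw [norm_div, norm_one, norm_mul, Complex.norm_real, Real.norm_eq_abs, abs_of_pos hpi]
    norm_num
  rw [h7]
  have h8 : |Real.pi - -Real.pi| = 2 * Real.pi := by
    rw [sub_neg_eq_add, abs_of_pos (by positivity)]
    ring
  rw [h8] at h6
  calc 1 / (2 * Real.pi) * _ ≤ 1 / (2 * Real.pi) * (2 * Real.exp x * (2 * Real.pi)) :=
        mul_le_mul_of_nonneg_left h6 (by positivity)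
    _ = 2 * Real.exp x := by field_simp

theorem t_HK (h1 : S_HK1) (h2 : S_HK2) (h3 : S_HK3) : S_HK := by
  have key : ∀ n : ℕ, ∀ w : ℝ, 0 < w → w ≤ n + 1 → ∀ x : ℝ,
      h w x = ((1 / Real.Gamma w : ℝ) : ℂ) := by
    intro n
    induction n with
    | zero =>
      intro w hw hw1 x
      rw [Nat.cast_zero, zero_add] at hw1
      have hconst : Tendsto (fun y : ℝ => h w y) atBot (nhds (h w x)) := by
        have h4 : (fun y : ℝ => h w y) = fun _ => h w x := by
          funext y
          exact h1 w y x
        rw [h4]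
        exact tendsto_const_nhds
      rcases lt_or_eq_of_le hw1 with hlt | heq
      · exact tendsto_nhds_unique hconst (h2 w hw hlt)
      · rw [heq] at hconst ⊢
        rw [Real.Gamma_one]
        have h5 := tendsto_nhds_unique hconst HK_one_lim
        rw [h5]
        norm_num
    | succ n ih =>
      intro w hw hw1 x
      by_cases hle : w ≤ n + 1
      · exact ih w hw hle x
      · push Not at hle
        have hn : (0 : ℝ) ≤ n := Nat.cast_nonneg _
        have hw' : 0 < w - 1 := by linarith
        have h4 := h3 (w - 1) x hw'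
        push_cast at hw1
        have h5 := ih (w - 1) hw' (by linarith) x
        rw [sub_add_cancel, h5] at h4
        have h6 : Real.Gamma w = (w - 1) * Real.Gamma (w - 1) := by
          have := Real.Gamma_add_one hw'.ne'
          rwa [sub_add_cancel] at this
        have h7 : ((w - 1 : ℝ) : ℂ) ≠ 0 := by exact_mod_cast hw'.ne'
        have h8 : 0 < Real.Gamma (w - 1) := Real.Gamma_pos_of_pos hw'
        have h9 : ((Real.Gamma (w - 1) : ℝ) : ℂ) ≠ 0 := by exact_mod_cast h8.ne'
        have h10 : h w x = ((1 / Real.Gamma (w - 1) : ℝ) : ℂ) / ((w - 1 : ℝ) : ℂ) := by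
          rw [eq_div_iff h7, mul_comm]
          exact h4.symm
        rw [h10, h6]
        push_cast at h7 ⊢
        field_simp
  intro w x hw
  obtain ⟨n, hn⟩ := exists_nat_gt w
  exact key n w hw (by linarith) x

end R833.ML
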