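import Pool.Agent.R833.ML.Defs

/-!
Project ML, piece HK1 (helper468): the Hankel integral does not depend on the abscissa.
-/

set_option autoImplicit false

namespace R833.ML.HK1

open MeasureTheory Set Filter Topology

/-- `wt c` is continuous -/
lemma wt_cont (c : ℝ) : Continuous (fun t : ℝ => wt c t) := by
  unfold wt
  fun_prop

/-- `wt c` is integrable on every half line to the right -/
lemma wt_int (c x : ℝ) : IntegrableOn (fun t : ℝ => wt c t) (Ioi x) := by
  refine integrable_of_isBigO_exp_neg (b := 1) one_pos (wt_cont c).continuousOn ?_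
  refine Asymptotics.IsBigO.of_bound 1 ?_
  filter_upwards [eventually_ge_atTop (max 0 (2 * |c + 1|))] with t ht
  have h0 : 0 ≤ t := le_trans (le_max_left _ _) ht
  have h1 : 2 * |c + 1| ≤ t := le_trans (le_max_right _ _) ht
  have h2 := Real.quadratic_le_exp_of_nonneg h0
  have h3 : (c + 1) * t ≤ |c + 1| * t := mul_le_mul_of_nonneg_right (le_abs_self _) h0
  have h4 : |c + 1| * t ≤ t / 2 * t := mul_le_mul_of_nonneg_right (by linarith) h0
  rw [one_mul, Real.norm_eq_abs, Real.norm_eq_abs, Real.abs_exp]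
  unfold wt
  rw [← Real.exp_add, Real.abs_exp, Real.exp_le_exp]
  nlinarith

/-- the entire function of the contour integral -/
noncomputable def g (w : ℝ) (z : ℂ) : ℂ :=
  Complex.exp (Complex.exp z) * Complex.exp ((1 - w : ℂ) * z)

lemma g_diff (w : ℝ) : Differentiable ℂ (g w) := by
  unfold g
  fun_prop

lemma g_low (w x : ℝ) : g w (x + ((-Real.pi : ℝ) : ℂ) * Complex.I) =
    ((wt (1 - w) x : ℝ) : ℂ) * Complex.exp (-(((1 - w) * Real.pi : ℝ) : ℂ) * Complex.I) := by
  unfold g wt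
  have e1 : Complex.exp (x + ((-Real.pi : ℝ) : ℂ) * Complex.I) = -((Real.exp x : ℝ) : ℂ) := by
    rw [Complex.exp_add]
    have : ((-Real.pi : ℝ) : ℂ) * Complex.I = -(Real.pi * Complex.I) := by push_cast; ring
    rw [this, Complex.exp_neg, Complex.exp_pi_mul_I]
    push_cast
    norm_num
  rw [e1]
  push_cast
  rw [← Complex.exp_add, ← Complex.exp_add, ← Complex.exp_add]
  congr 1
  ring

lemma g_high (w x : ℝ) : g w (x + ((Real.pi : ℝ) : ℂ) * Complex.I) =
    ((wt (1 - w) x : ℝ) : ℂ) * Complex.exp ((((1 - w) * Real.pi : ℝ) : ℂ) * Complex.I) := by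
  unfold g wt
  have e1 : Complex.exp (x + ((Real.pi : ℝ) : ℂ) * Complex.I) = -((Real.exp x : ℝ) : ℂ) := by
    rw [Complex.exp_add, Complex.exp_pi_mul_I]
    push_cast
    ring
  rw [e1]
  push_cast
  rw [← Complex.exp_add, ← Complex.exp_add, ← Complex.exp_add]
  congr 1
  ring

lemma g_diffc (w x : ℝ) : g w (x + ((-Real.pi : ℝ) : ℂ) * Complex.I) -
    g w (x + ((Real.pi : ℝ) : ℂ) * Complex.I) =
    -(2 * Complex.I * ((Real.sin (Real.pi * w) : ℝ) : ℂ)) * ((wt (1 - w) x : ℝ) : ℂ) := by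
  rw [g_low, g_high]
  have e : Complex.exp (-(((1 - w) * Real.pi : ℝ) : ℂ) * Complex.I) -
      Complex.exp ((((1 - w) * Real.pi : ℝ) : ℂ) * Complex.I) =
      -(2 * Complex.I * ((Real.sin (Real.pi * w) : ℝ) : ℂ)) := by
    rw [Complex.exp_mul_I, Complex.exp_mul_I, Complex.cos_neg, Complex.sin_neg,
      ← Complex.ofReal_sin, ← Complex.ofReal_cos]
    have : Real.sin ((1 - w) * Real.pi) = Real.sin (Real.pi * w) := by
      rw [show (1 - w) * Real.pi = Real.pi - Real.pi * w by ring, Real.sin_pi_sub]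
    rw [this]
    ring
  rw [← mul_sub, e]
  ring

/-- HK1 -/
theorem t_HK1' : ∀ w x₁ x₂ : ℝ, h w x₁ = h w x₂ := by
  intro w x₁ x₂
  have hr := Complex.integral_boundary_rect_eq_zero_of_differentiableOn (g w)
    (x₁ + ((-Real.pi : ℝ) : ℂ) * Complex.I) (x₂ + ((Real.pi : ℝ) : ℂ) * Complex.I)
    (g_diff w).differentiableOn
  have r1 : ∀ x y : ℝ, ((x : ℂ) + (y : ℂ) * Complex.I).re = x := by intro x y; simp
  have r2 : ∀ x y : ℝ, ((x : ℂ) + (y : ℂ) * Complex.I).im = y := by intro x y; simp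
  rw [r1, r1, r2, r2] at hr
  have hgc : Continuous (g w) := (g_diff w).continuous
  have i1 : IntervalIntegrable (fun x : ℝ => g w (x + ((-Real.pi : ℝ) : ℂ) * Complex.I)) volume x₁ x₂ :=
    Continuous.intervalIntegrable (by fun_prop) _ _
  have i2 : IntervalIntegrable (fun x : ℝ => g w (x + ((Real.pi : ℝ) : ℂ) * Complex.I)) volume x₁ x₂ :=
    Continuous.intervalIntegrable (by fun_prop) _ _
  rw [← intervalIntegral.integral_sub i1 i2] at hr
  have e1 : (∫ x in x₁..x₂, (g w (x + ((-Real.pi : ℝ) : ℂ) * Complex.I) -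
      g w (x + ((Real.pi : ℝ) : ℂ) * Complex.I))) =
      -(2 * Complex.I * ((Real.sin (Real.pi * w) : ℝ) : ℂ)) * ((∫ x in x₁..x₂, wt (1 - w) x : ℝ) : ℂ) := by
    rw [← intervalIntegral.integral_ofReal, ← intervalIntegral.integral_const_mul]
    refine intervalIntegral.integral_congr fun x _ => ?_
    exact g_diffc w x
  rw [e1] at hr
  have e2 : (∫ x in x₁..x₂, wt (1 - w) x) = (∫ t in Ioi x₁, wt (1 - w) t) - ∫ t in Ioi x₂, wt (1 - w) t :=
    (intervalIntegral.integral_Ioi_sub_Ioi' (wt_int _ _) (wt_int _ _)).symm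
  rw [e2] at hr
  have e3 : ∀ x : ℝ, h w x = (1 / (2 * Real.pi) : ℂ) * (∫ y in (-Real.pi)..Real.pi, g w (x + y * Complex.I)) +
      (((Real.sin (Real.pi * w) / Real.pi) * ∫ t in Set.Ioi x, wt (1 - w) t : ℝ) : ℂ) := by
    intro x
    rfl
  rw [e3, e3]
  set V₁ := ∫ y in (-Real.pi)..Real.pi, g w (x₁ + y * Complex.I)
  set V₂ := ∫ y in (-Real.pi)..Real.pi, g w (x₂ + y * Complex.I)
  set J₁ := ∫ t in Set.Ioi x₁, wt (1 - w) t
  set J₂ := ∫ t in Set.Ioi x₂, wt (1 - w) t
  set s := Real.sin (Real.pi * w)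
  have hp : (Real.pi : ℂ) ≠ 0 := by exact_mod_cast Real.pi_ne_zero
  simp only [smul_eq_mul] at hr
  push_cast at hr ⊢
  have h1 : Complex.I * (V₂ - V₁ - 2 * s * (J₁ - J₂)) = 0 := by linear_combination hr
  have h2 : V₂ - V₁ - 2 * s * (J₁ - J₂) = 0 := by
    rcases mul_eq_zero.1 h1 with h | h
    · exact absurd h Complex.I_ne_zero
    · exact h
  field_simp
  linear_combination -h2

end R833.ML.HK1

namespace R833.ML

theorem t_HK1 : S_HK1 := R833.ML.HK1.t_HK1'

end R833.ML
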