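import Pool.Agent.R833.ML.Defs

/-!
# ML-HK2: the limit for `x → -∞`
-/

set_option autoImplicit false

namespace R833.ML

open MeasureTheory Filter

theorem HK2_norm (w x θ : ℝ) :
    ‖Complex.exp (Complex.exp (x + θ * Complex.I)) *
        Complex.exp ((1 - w : ℂ) * (x + θ * Complex.I))‖ ≤
      Real.exp (Real.exp x) * Real.exp ((1 - w) * x) := by
  rw [norm_mul]
  have h1 : ‖Complex.exp (x + θ * Complex.I)‖ = Real.exp x := by
    rw [Complex.norm_exp]
    simp
  have h2 : ‖Complex.exp (Complex.exp (x + θ * Complex.I))‖ ≤ Real.exp (Real.exp x) := by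
    rw [Complex.norm_exp]
    refine Real.exp_le_exp.2 ?_
    rw [← h1]
    exact Complex.re_le_norm _
  have h3 : ‖Complex.exp ((1 - w : ℂ) * (x + θ * Complex.I))‖ = Real.exp ((1 - w) * x) := by
    rw [Complex.norm_exp]
    simp
  rw [h3]
  exact mul_le_mul_of_nonneg_right h2 (Real.exp_pos _).le

theorem t_HK2 (hG : S_GAM) : S_HK2 := by
  intro w hw0 hw1
  obtain ⟨hint, hval⟩ := hG (1 - w) (by linarith)
  have hpi := Real.pi_pos
  have hsin : 0 < Real.sin (Real.pi * w) := by
    refine Real.sin_pos_of_pos_of_lt_pi (by positivity) ?_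
    nlinarith
  have h2 : Tendsto (fun x : ℝ => ∫ t in Set.Ioi x, wt (1 - w) t) atBot
      (nhds (Real.Gamma (1 - w))) := by
    rw [← hval]
    exact (aecover_Ioi tendsto_id).integral_tendsto_of_countably_generated hint
  have h3 : Tendsto (fun x : ℝ => (((Real.sin (Real.pi * w) / Real.pi) *
      ∫ t in Set.Ioi x, wt (1 - w) t : ℝ) : ℂ)) atBot (nhds ((1 / Real.Gamma w : ℝ) : ℂ)) := by
    have h4 : (1 / Real.Gamma w : ℝ) = (Real.sin (Real.pi * w) / Real.pi) *
        Real.Gamma (1 - w) := by
      have h5 := Real.Gamma_mul_Gamma_one_sub w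
      have h6 : 0 < Real.Gamma w := Real.Gamma_pos_of_pos hw0
      rw [eq_div_iff hsin.ne'] at h5
      field_simp
      linarith
    rw [h4]
    exact (Complex.continuous_ofReal.tendsto _).comp (h2.const_mul _)
  have h4 : Tendsto (fun x : ℝ => (1 / (2 * Real.pi) : ℂ) * (∫ θ in (-Real.pi)..Real.pi,
      Complex.exp (Complex.exp (x + θ * Complex.I)) *
        Complex.exp ((1 - w : ℂ) * (x + θ * Complex.I)))) atBot (nhds 0) := by
    have h5 : Tendsto (fun x : ℝ => Real.exp (Real.exp x) * Real.exp ((1 - w) * x)) atBot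
        (nhds 0) := by
      have h6 : Tendsto (fun x : ℝ => Real.exp (Real.exp x)) atBot (nhds (Real.exp 0)) :=
        (Real.continuous_exp.tendsto 0).comp Real.tendsto_exp_atBot
      have h7 : Tendsto (fun x : ℝ => Real.exp ((1 - w) * x)) atBot (nhds 0) :=
        Real.tendsto_exp_atBot.comp (tendsto_id.const_mul_atBot (by linarith))
      have h8 := h6.mul h7
      rwa [mul_zero] at h8
    refine squeeze_zero_norm (fun x => ?_) h5
    have h6 := intervalIntegral.norm_integral_le_of_norm_le_const (a := -Real.pi) (b := Real.pi)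
      (f := fun θ : ℝ => Complex.exp (Complex.exp (x + θ * Complex.I)) *
        Complex.exp ((1 - w : ℂ) * (x + θ * Complex.I)))
      (C := Real.exp (Real.exp x) * Real.exp ((1 - w) * x)) (fun θ _ => HK2_norm w x θ)
    rw [norm_mul]
    have h7 : ‖(1 / (2 * Real.pi) : ℂ)‖ = 1 / (2 * Real.pi) := by
      rw [norm_div, norm_one, norm_mul, Complex.norm_real, Real.norm_eq_abs, abs_of_pos hpi]
      norm_num
    rw [h7]
    have h8 : |Real.pi - -Real.pi| = 2 * Real.pi := by
      rw [sub_neg_eq_add, abs_of_pos (by positivity)]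
      ring
    rw [h8] at h6
    calc 1 / (2 * Real.pi) * _ ≤ 1 / (2 * Real.pi) *
        (Real.exp (Real.exp x) * Real.exp ((1 - w) * x) * (2 * Real.pi)) :=
          mul_le_mul_of_nonneg_left h6 (by positivity)
      _ = Real.exp (Real.exp x) * Real.exp ((1 - w) * x) := by
          field_simp
  have h5 := h4.add h3
  rw [zero_add] at h5
  exact h5

end R833.ML
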