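import Pool.Agent.R833.ML.Defs

/-!
# ML-HK3: the recurrence
-/

set_option autoImplicit false

namespace R833.ML

open MeasureTheory Filter

theorem wt_cont (c : ℝ) : Continuous (wt c) := by
  unfold wt
  fun_prop

theorem wt_le (c t : ℝ) (ht : 0 ≤ t) : wt c t ≤ Real.exp (c ^ 2 / 2) * Real.exp (-t) := by
  unfold wt
  rw [← Real.exp_add, ← Real.exp_add]
  refine Real.exp_le_exp.2 ?_
  have h1 := Real.quadratic_le_exp_of_nonneg ht
  nlinarith [sq_nonneg (t - c)]

theorem wt_pos (c t : ℝ) : 0 < wt c t := by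
  unfold wt
  positivity

theorem wt_int (c x : ℝ) : IntegrableOn (wt c) (Set.Ioi x) := by
  refine integrable_of_isBigO_exp_neg (b := 1) one_pos (wt_cont c).continuousOn ?_
  refine Asymptotics.IsBigO.of_bound (Real.exp (c ^ 2 / 2)) ?_
  filter_upwards [eventually_ge_atTop 0] with t ht
  rw [Real.norm_eq_abs, abs_of_pos (wt_pos c t), Real.norm_eq_abs, abs_of_pos (Real.exp_pos _)]
  have h1 := wt_le c t ht
  rw [show -1 * t = -t by ring]
  exact h1

theorem wt_lim (c : ℝ) : Tendsto (wt c) atTop (nhds 0) := by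
  have h1 : Tendsto (fun t : ℝ => Real.exp (c ^ 2 / 2) * Real.exp (-t)) atTop (nhds 0) := by
    have h2 := (Real.tendsto_exp_neg_atTop_nhds_zero).const_mul (Real.exp (c ^ 2 / 2))
    rwa [mul_zero] at h2
  refine squeeze_zero' (Eventually.of_forall fun t => (wt_pos c t).le) ?_ h1
  filter_upwards [eventually_ge_atTop 0] with t ht using wt_le c t ht

theorem wt_deriv (w t : ℝ) : HasDerivAt (wt (-w)) (-wt (1 - w) t - w * wt (-w) t) t := by
  have h1 : HasDerivAt (fun t : ℝ => Real.exp (-Real.exp t))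
      (Real.exp (-Real.exp t) * (-Real.exp t)) t := (Real.hasDerivAt_exp t).fun_neg.exp
  have h2 : HasDerivAt (fun t : ℝ => Real.exp (-w * t)) (Real.exp (-w * t) * (-w)) t := by
    have h3 : HasDerivAt (fun t : ℝ => -w * t) (-w) t := by
      simpa using (hasDerivAt_id t).const_mul (-w)
    exact h3.exp
  have h4 := h1.mul h2
  refine h4.congr_deriv ?_
  unfold wt
  have h5 : Real.exp ((1 - w) * t) = Real.exp t * Real.exp (-w * t) := by
    rw [← Real.exp_add]
    congr 1
    ring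
  rw [h5]
  ring

theorem half_line (w x : ℝ) : ∫ t in Set.Ioi x, wt (1 - w) t =
    wt (-w) x - w * ∫ t in Set.Ioi x, wt (-w) t := by
  have hn : IntegrableOn (fun t => -wt (1 - w) t) (Set.Ioi x) := (wt_int _ x).neg
  have h1 : IntegrableOn (fun t => -wt (1 - w) t - w * wt (-w) t) (Set.Ioi x) :=
    hn.sub ((wt_int _ x).const_mul w)
  have h2 := integral_Ioi_of_hasDerivAt_of_tendsto (a := x) (f := wt (-w))
    (f' := fun t => -wt (1 - w) t - w * wt (-w) t) (wt_cont (-w)).continuousWithinAt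
    (fun t _ => wt_deriv w t) h1 (wt_lim (-w))
  rw [integral_sub hn ((wt_int _ x).const_mul w), integral_neg,
    integral_const_mul] at h2
  linarith

/-- the primitive -/
noncomputable def FF (w : ℝ) (ζ : ℂ) : ℂ :=
  Complex.exp (Complex.exp ζ) * Complex.exp (-(w : ℂ) * ζ)

theorem FF_deriv (w x θ : ℝ) : HasDerivAt (fun θ : ℝ => FF w (x + θ * Complex.I))
    (Complex.I * (Complex.exp (Complex.exp (x + θ * Complex.I)) *
      Complex.exp ((1 - w : ℂ) * (x + θ * Complex.I)) - w * (Complex.exp (Complex.exp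
        (x + θ * Complex.I)) * Complex.exp ((1 - ((w + 1 : ℝ) : ℂ)) * (x + θ * Complex.I))))) θ := by
  have h0 : HasDerivAt (fun z : ℂ => (x : ℂ) + z * Complex.I) Complex.I (θ : ℂ) := by
    simpa using ((hasDerivAt_id (θ : ℂ)).mul_const Complex.I).const_add (x : ℂ)
  have h1 : HasDerivAt (fun z : ℂ => Complex.exp (Complex.exp ((x : ℂ) + z * Complex.I)))
      (Complex.exp (Complex.exp ((x : ℂ) + θ * Complex.I)) *
        (Complex.exp ((x : ℂ) + θ * Complex.I) * Complex.I)) (θ : ℂ) := h0.cexp.cexp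
  have h2 : HasDerivAt (fun z : ℂ => Complex.exp (-(w : ℂ) * ((x : ℂ) + z * Complex.I)))
      (Complex.exp (-(w : ℂ) * ((x : ℂ) + θ * Complex.I)) * (-(w : ℂ) * Complex.I)) (θ : ℂ) :=
    (h0.const_mul (-(w : ℂ))).cexp
  have h3 := (h1.mul h2).comp_ofReal
  refine h3.congr_deriv ?_
  have h5 : Complex.exp ((1 - w : ℂ) * (x + θ * Complex.I)) =
      Complex.exp ((x : ℂ) + θ * Complex.I) * Complex.exp (-(w : ℂ) * (x + θ * Complex.I)) := by
    rw [← Complex.exp_add]
    congr 1
    ring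
  have h6 : (1 - ((w + 1 : ℝ) : ℂ)) = -(w : ℂ) := by push_cast; ring
  rw [h5, h6]
  ring

theorem segment (w x : ℝ) : (∫ θ in (-Real.pi)..Real.pi,
      Complex.exp (Complex.exp (x + θ * Complex.I)) *
        Complex.exp ((1 - w : ℂ) * (x + θ * Complex.I))) -
    w * (∫ θ in (-Real.pi)..Real.pi, Complex.exp (Complex.exp (x + θ * Complex.I)) *
        Complex.exp ((1 - ((w + 1 : ℝ) : ℂ)) * (x + θ * Complex.I))) =
    -((2 * Real.sin (Real.pi * w) * wt (-w) x : ℝ) : ℂ) := by
  have hc1 : Continuous fun θ : ℝ => Complex.exp (Complex.exp (x + θ * Complex.I)) *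
      Complex.exp ((1 - w : ℂ) * (x + θ * Complex.I)) := by fun_prop
  have hc2 : Continuous fun θ : ℝ => Complex.exp (Complex.exp (x + θ * Complex.I)) *
      Complex.exp ((1 - ((w + 1 : ℝ) : ℂ)) * (x + θ * Complex.I)) := by fun_prop
  have hc3 : Continuous fun θ : ℝ => Complex.I * (Complex.exp (Complex.exp (x + θ * Complex.I)) *
      Complex.exp ((1 - w : ℂ) * (x + θ * Complex.I)) - w * (Complex.exp (Complex.exp
        (x + θ * Complex.I)) * Complex.exp ((1 - ((w + 1 : ℝ) : ℂ)) * (x + θ * Complex.I)))) := by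
    fun_prop
  have h1 := intervalIntegral.integral_eq_sub_of_hasDerivAt (a := -Real.pi) (b := Real.pi)
    (fun θ _ => FF_deriv w x θ) (hc3.intervalIntegrable _ _)
  rw [intervalIntegral.integral_const_mul, intervalIntegral.integral_sub
    (hc1.intervalIntegrable _ _) ((hc2.const_mul _).intervalIntegrable _ _),
    intervalIntegral.integral_const_mul] at h1
  have hexp : Complex.exp ((x : ℂ) + Real.pi * Complex.I) = -((Real.exp x : ℝ) : ℂ) := by
    rw [Complex.exp_add, Complex.exp_pi_mul_I]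
    push_cast
    ring
  have hexp' : Complex.exp ((x : ℂ) + ((-Real.pi : ℝ) : ℂ) * Complex.I) =
      -((Real.exp x : ℝ) : ℂ) := by
    rw [Complex.exp_add]
    have : Complex.exp (((-Real.pi : ℝ) : ℂ) * Complex.I) = -1 := by
      rw [Complex.ofReal_neg, neg_mul, Complex.exp_neg, Complex.exp_pi_mul_I]
      norm_num
    rw [this]
    push_cast
    ring
  have hF1 : FF w ((x : ℂ) + Real.pi * Complex.I) =
      ((wt (-w) x : ℝ) : ℂ) * Complex.exp (-((Real.pi * w : ℝ) : ℂ) * Complex.I) := by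
    unfold FF wt
    rw [hexp]
    push_cast
    have e1 : Complex.exp (-(w : ℂ) * (x + Real.pi * Complex.I)) =
        Complex.exp (-(w : ℂ) * x) * Complex.exp (-((Real.pi : ℂ) * w) * Complex.I) := by
      rw [← Complex.exp_add]
      congr 1
      ring
    rw [e1]
    ring
  have hF2 : FF w ((x : ℂ) + ((-Real.pi : ℝ) : ℂ) * Complex.I) =
      ((wt (-w) x : ℝ) : ℂ) * Complex.exp (((Real.pi * w : ℝ) : ℂ) * Complex.I) := by
    unfold FF wt
    rw [hexp']
    push_cast
    have e1 : Complex.exp (-(w : ℂ) * (x + -(Real.pi : ℂ) * Complex.I)) =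
        Complex.exp (-(w : ℂ) * x) * Complex.exp (((Real.pi : ℂ) * w) * Complex.I) := by
      rw [← Complex.exp_add]
      congr 1
      ring
    rw [e1]
    ring
  rw [hF1, hF2] at h1
  have hsin : Complex.exp (-((Real.pi * w : ℝ) : ℂ) * Complex.I) -
      Complex.exp (((Real.pi * w : ℝ) : ℂ) * Complex.I) =
      -(2 * Complex.I * ((Real.sin (Real.pi * w) : ℝ) : ℂ)) := by
    rw [Complex.ofReal_sin, Complex.sin]
    have hI : Complex.I * Complex.I = -1 := Complex.I_mul_I
    linear_combination (Complex.exp (-((Real.pi * w : ℝ) : ℂ) * Complex.I) -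
      Complex.exp (((Real.pi * w : ℝ) : ℂ) * Complex.I)) * hI
  have h2 : Complex.I * ((∫ θ in (-Real.pi)..Real.pi,
      Complex.exp (Complex.exp (x + θ * Complex.I)) *
        Complex.exp ((1 - w : ℂ) * (x + θ * Complex.I))) -
    w * (∫ θ in (-Real.pi)..Real.pi, Complex.exp (Complex.exp (x + θ * Complex.I)) *
        Complex.exp ((1 - ((w + 1 : ℝ) : ℂ)) * (x + θ * Complex.I)))) =
      Complex.I * (-((2 * Real.sin (Real.pi * w) * wt (-w) x : ℝ) : ℂ)) := by
    rw [h1]
    push_cast at hsin ⊢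
    linear_combination ((wt (-w) x : ℝ) : ℂ) * hsin
  exact mul_left_cancel₀ Complex.I_ne_zero h2

theorem t_HK3 : S_HK3 := by
  intro w x _
  have hpi : (Real.pi : ℂ) ≠ 0 := by exact_mod_cast Real.pi_ne_zero
  unfold h
  have h1 := segment w x
  have h2 := half_line w x
  have h3 : 1 - (w + 1) = -w := by ring
  have h4 : Real.sin (Real.pi * (w + 1)) = -Real.sin (Real.pi * w) := by
    rw [mul_add, mul_one, Real.sin_add_pi]
  rw [h2, h3, h4]
  obtain ⟨P, hP⟩ : ∃ P, P = (∫ θ in (-Real.pi)..Real.pi,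
      Complex.exp (Complex.exp (x + θ * Complex.I)) *
        Complex.exp ((1 - w : ℂ) * (x + θ * Complex.I))) := ⟨_, rfl⟩
  obtain ⟨Q, hQ⟩ : ∃ Q, Q = (∫ θ in (-Real.pi)..Real.pi,
      Complex.exp (Complex.exp (x + θ * Complex.I)) *
        Complex.exp ((1 - ((w + 1 : ℝ) : ℂ)) * (x + θ * Complex.I))) := ⟨_, rfl⟩
  rw [← hP, ← hQ] at h1 ⊢
  have h5 : P = w * Q + -((2 * Real.sin (Real.pi * w) * wt (-w) x : ℝ) : ℂ) := by
    rw [← h1]
    ring
  rw [h5]
  push_cast
  field_simp
  ring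

end R833.ML
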