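import Pool.Agent.R833.ML.Defs

/-!
Project ML (helper833), piece INTJ (helper273).
-/

set_option autoImplicit false

namespace R833.ML.INTJ

open MeasureTheory R833.ML

theorem wt_mul_exp (c a t : ℝ) : wt c t * Real.exp (a * t) = wt (c + a) t := by
  unfold wt
  rw [mul_assoc, ← Real.exp_add]
  congr 2
  ring

theorem wt_pos (c t : ℝ) : 0 < wt c t := by unfold wt; positivity

theorem wt_cont (c : ℝ) : Continuous (fun t : ℝ => wt c t) := by
  unfold wt
  fun_prop

/-- the denominator as a function of `r = exp (a t)` -/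
noncomputable def D (a : ℝ) (w : ℂ) (r : ℝ) : ℂ :=
  ((r : ℂ) * Complex.exp ((Real.pi * a : ℝ) * Complex.I) - w) *
    ((r : ℂ) * Complex.exp (-((Real.pi * a : ℝ) * Complex.I)) - w)

theorem den_eq_D (a : ℝ) (w : ℂ) (t : ℝ) : Den a w t = D a w (Real.exp (a * t)) := by
  unfold Den D
  have e1 : Complex.exp ((Real.pi * a : ℝ) * Complex.I) =
      Complex.cos ((Real.pi * a : ℝ)) + Complex.sin ((Real.pi * a : ℝ)) * Complex.I := by
    rw [Complex.exp_mul_I]
  have e2 : Complex.exp (-((Real.pi * a : ℝ) * Complex.I)) =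
      Complex.cos ((Real.pi * a : ℝ)) - Complex.sin ((Real.pi * a : ℝ)) * Complex.I := by
    rw [← neg_mul, Complex.exp_mul_I, Complex.cos_neg, Complex.sin_neg]
    ring
  have e3 : ((Real.exp (2 * a * t) : ℝ) : ℂ) = ((Real.exp (a * t) : ℝ) : ℂ) ^ 2 := by
    rw [← Complex.ofReal_pow, ← Real.exp_nat_mul]
    congr 2
    push_cast
    ring
  have e4 : Complex.cos ((Real.pi * a : ℝ)) ^ 2 + Complex.sin ((Real.pi * a : ℝ)) ^ 2 = 1 :=
    Complex.cos_sq_add_sin_sq _
  rw [e1, e2, e3]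
  rw [Complex.ofReal_mul, Complex.ofReal_cos]
  generalize hR : ((Real.exp (a * t) : ℝ) : ℂ) = R
  generalize hC : Complex.cos ((Real.pi * a : ℝ)) = C at *
  generalize hS : Complex.sin ((Real.pi * a : ℝ)) = S at *
  have hI : Complex.I ^ 2 = -1 := Complex.I_sq
  linear_combination (-(R ^ 2)) * e4 + (-(R ^ 2 * S ^ 2)) * hI * (-1)

theorem D_cont (a : ℝ) (w : ℂ) : Continuous (fun r : ℝ => D a w r) := by
  unfold D
  fun_prop

theorem D_ne (a : ℝ) (w : ℂ) (Z : Finset ℂ) (ha : 0 < a) (hw : w ≠ 0) (hZ : Poles a w Z)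
    (r : ℝ) (hr : 0 ≤ r) : D a w r ≠ 0 := by
  rcases hr.eq_or_lt with h0 | hpos
  · rw [← h0]
    unfold D
    simp [hw]
  · intro h
    unfold D at h
    have key : ∀ s : ℝ, |s| = Real.pi → (r : ℂ) * Complex.exp ((s * a : ℝ) * Complex.I) - w ≠ 0 := by
      intro s hs hz
      have hp : Complex.exp (a * ((Real.log r / a : ℝ) + s * Complex.I)) = w := by
        have : (a : ℂ) * ((Real.log r / a : ℝ) + s * Complex.I) =
            ((Real.log r : ℝ) : ℂ) + (s * a : ℝ) * Complex.I := by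
          have ha' : (a : ℂ) ≠ 0 := by exact_mod_cast ha.ne'
          push_cast
          field_simp
        rw [this, Complex.exp_add, ← Complex.ofReal_exp, Real.exp_log hpos]
        exact sub_eq_zero.mp hz
      have him : (((Real.log r / a : ℝ) : ℂ) + s * Complex.I).im = s := by
        simp
      have hmem := hZ.2 _ (by rw [him, hs]) hp
      have := (hZ.1 _ hmem).2
      rw [him, hs] at this
      exact lt_irrefl _ this
    rcases mul_eq_zero.mp h with h1 | h1
    · exact key Real.pi (abs_of_pos Real.pi_pos) h1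
    · refine key (-Real.pi) (by rw [abs_neg, abs_of_pos Real.pi_pos]) ?_
      rw [← h1]
      congr 3
      push_cast
      ring

theorem D_lower (a : ℝ) (w : ℂ) (Z : Finset ℂ) (ha : 0 < a) (hw : w ≠ 0) (hZ : Poles a w Z) :
    ∃ c : ℝ, 0 < c ∧ ∀ r : ℝ, 0 ≤ r → c ≤ ‖D a w r‖ := by
  have hw' : 0 < ‖w‖ := norm_pos_iff.mpr hw
  obtain ⟨r0, hr0, hmin⟩ := (isCompact_Icc (a := (0 : ℝ)) (b := 2 * ‖w‖)).exists_isMinOn
    ⟨0, by constructor <;> positivity⟩ (D_cont a w).norm.continuousOn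
  have h0 : 0 < ‖D a w r0‖ := norm_pos_iff.mpr (D_ne a w Z ha hw hZ r0 hr0.1)
  refine ⟨min ‖D a w r0‖ (‖w‖ ^ 2), by positivity, ?_⟩
  intro r hr
  by_cases h : r ≤ 2 * ‖w‖
  · exact le_trans (min_le_left _ _) (hmin ⟨hr, h⟩)
  · push Not at h
    refine le_trans (min_le_right _ _) ?_
    unfold D
    rw [norm_mul]
    have hn : ∀ s : ℝ, ‖w‖ ≤ ‖(r : ℂ) * Complex.exp ((s : ℝ) * Complex.I) - w‖ := by
      intro s
      have h1 : ‖(r : ℂ) * Complex.exp ((s : ℝ) * Complex.I)‖ = r := by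
        rw [norm_mul, Complex.norm_exp_ofReal_mul_I, mul_one, Complex.norm_real,
          Real.norm_of_nonneg hr]
      have h2 := norm_sub_norm_le ((r : ℂ) * Complex.exp ((s : ℝ) * Complex.I)) w
      rw [h1] at h2
      linarith
    have h1 := hn (Real.pi * a)
    have h2 := hn (-(Real.pi * a))
    have e : ((-(Real.pi * a) : ℝ) : ℂ) * Complex.I = -((Real.pi * a : ℝ) * Complex.I) := by
      push_cast
      ring
    rw [e] at h2
    calc ‖w‖ ^ 2 = ‖w‖ * ‖w‖ := by ring
      _ ≤ _ := mul_le_mul h1 h2 (norm_nonneg _) (norm_nonneg _)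

end R833.ML.INTJ

namespace R833.ML

open MeasureTheory R833.ML.INTJ

theorem t_INTJ (hG : S_GAM) : S_INTJ := by
  intro a b w Z ha hb hw hZ
  have hne : ∀ t : ℝ, Den a w t ≠ 0 := by
    intro t
    rw [den_eq_D]
    exact D_ne a w Z ha hw hZ _ (Real.exp_pos _).le
  refine ⟨?_, hne⟩
  obtain ⟨c, hc, hcl⟩ := D_lower a w Z ha hw hZ
  have hcl' : ∀ t : ℝ, c ≤ ‖Den a w t‖ := by
    intro t
    rw [den_eq_D]
    exact hcl _ (Real.exp_pos _).le
  have i1 := (hG (1 - b + a) hb).1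
  have i2 := (hG (1 - b + a + a) (by linarith)).1
  have i3 : Integrable (fun t : ℝ => (‖w‖ / c) * wt (1 - b + a) t + (1 / c) * wt (1 - b + a + a) t) :=
    (i1.const_mul _).add (i2.const_mul _)
  have hdc : Continuous (fun t : ℝ => Den a w t) := by
    unfold Den
    fun_prop
  have hcont : Continuous (fun t : ℝ => Jf a b w t) := by
    unfold Jf
    refine Continuous.div ?_ hdc hne
    refine Continuous.mul (Complex.continuous_ofReal.comp (wt_cont _)) ?_
    fun_prop
  refine i3.mono' hcont.aestronglyMeasurable (Filter.Eventually.of_forall fun t => ?_)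
  unfold Jf
  rw [norm_div, norm_mul, Complex.norm_real, Real.norm_of_nonneg (wt_pos _ _).le]
  have hnum : ‖w * ((Real.sin (Real.pi * (1 - b + a)) : ℝ) : ℂ)
      - ((Real.exp (a * t) * Real.sin (Real.pi * (1 - b)) : ℝ) : ℂ)‖ ≤ ‖w‖ + Real.exp (a * t) := by
    refine le_trans (norm_sub_le _ _) ?_
    rw [norm_mul, Complex.norm_real, Complex.norm_real, Real.norm_eq_abs, Real.norm_eq_abs, abs_mul,
      abs_of_pos (Real.exp_pos _)]
    have h1 := Real.abs_sin_le_one (Real.pi * (1 - b + a))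
    have h2 := Real.abs_sin_le_one (Real.pi * (1 - b))
    have h3 : ‖w‖ * |Real.sin (Real.pi * (1 - b + a))| ≤ ‖w‖ * 1 :=
      mul_le_mul_of_nonneg_left h1 (norm_nonneg _)
    have h4 : Real.exp (a * t) * |Real.sin (Real.pi * (1 - b))| ≤ Real.exp (a * t) * 1 :=
      mul_le_mul_of_nonneg_left h2 (Real.exp_pos _).le
    linarith
  have hwt := wt_pos (1 - b + a) t
  rw [div_le_iff₀ (norm_pos_iff.mpr (hne t))]
  have e1 : wt (1 - b + a + a) t = wt (1 - b + a) t * Real.exp (a * t) := (wt_mul_exp _ _ _).symm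
  have e2 : ‖w‖ / c * wt (1 - b + a) t + 1 / c * wt (1 - b + a + a) t =
      wt (1 - b + a) t * (‖w‖ + Real.exp (a * t)) / c := by
    rw [e1]; field_simp
  rw [e2]
  have h5 : wt (1 - b + a) t * (‖w‖ + Real.exp (a * t)) ≤
      wt (1 - b + a) t * (‖w‖ + Real.exp (a * t)) / c * ‖Den a w t‖ := by
    rw [div_mul_eq_mul_div, le_div_iff₀ hc]
    exact mul_le_mul_of_nonneg_left (hcl' t) (by positivity)
  exact le_trans (mul_le_mul_of_nonneg_left hnum hwt.le) h5

end R833.ML
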