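import Pool.Agent.R833.ML.Defs

/-!
Project ML, piece LIMB (helper468): the limit of the left vertical side.
-/

set_option autoImplicit false

namespace R833.ML.LIMB

open MeasureTheory Set Filter Topology

lemma re_line (x θ : ℝ) : ((x : ℂ) + (θ : ℂ) * Complex.I).re = x := by simp

lemma norm_exp_line (a x θ : ℝ) : ‖Complex.exp (a * (x + θ * Complex.I))‖ = Real.exp (a * x) := by
  rw [Complex.norm_exp]
  congr 1
  simp

lemma norm_exp_line1 (x θ : ℝ) : ‖Complex.exp (x + θ * Complex.I)‖ = Real.exp x := by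
  rw [Complex.norm_exp, re_line]

lemma norm_exp_exp_line (x θ : ℝ) :
    ‖Complex.exp (Complex.exp (x + θ * Complex.I))‖ ≤ Real.exp (Real.exp x) := by
  rw [Complex.norm_exp, Real.exp_le_exp]
  refine le_trans (Complex.re_le_norm _) ?_
  rw [norm_exp_line1]

lemma exp_atBot {a : ℝ} (ha : 0 < a) : Tendsto (fun x : ℝ => Real.exp (a * x)) atBot (𝓝 0) :=
  Real.tendsto_exp_atBot.comp (Tendsto.const_mul_atBot ha tendsto_id)

lemma low {a : ℝ} (ha : 0 < a) {c : ℂ} (hc : c ≠ 0) :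
    ∀ᶠ x : ℝ in atBot, ∀ θ : ℝ, ‖c‖ / 2 ≤ ‖Complex.exp (a * (x + θ * Complex.I)) - c‖ := by
  have h0 : 0 < ‖c‖ / 2 := by positivity
  filter_upwards [(exp_atBot ha).eventually (gt_mem_nhds h0)] with x hx θ
  have h1 := norm_sub_norm_le c (Complex.exp (a * (x + θ * Complex.I)))
  rw [norm_exp_line, norm_sub_rev] at h1
  linarith

lemma A_le {a b : ℝ} (ha : 0 < a) {w : ℂ} (hw : w ≠ 0) :
    ∀ᶠ x : ℝ in atBot, ∀ θ : ℝ, ‖A a b w (x + θ * Complex.I)‖ ≤
      2 / ‖w‖ * (Real.exp (Real.exp x) * Real.exp ((1 - b + a) * x)) := by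
  have hw0 : 0 < ‖w‖ := norm_pos_iff.2 hw
  filter_upwards [low ha hw] with x hx θ
  unfold A
  rw [norm_div, norm_mul, norm_mul, norm_exp_line]
  have e1 : ‖Complex.exp ((1 - b : ℂ) * (x + θ * Complex.I))‖ = Real.exp ((1 - b) * x) := by
    have := norm_exp_line (1 - b) x θ
    push_cast at this
    exact this
  rw [e1, mul_assoc, ← Real.exp_add]
  have h1 := hx θ
  have h2 := norm_exp_exp_line x θ
  have e2 : (1 - b) * x + a * x = (1 - b + a) * x := by ring
  rw [e2]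
  calc ‖Complex.exp (Complex.exp (x + θ * Complex.I))‖ * Real.exp ((1 - b + a) * x) /
        ‖Complex.exp (a * (x + θ * Complex.I)) - w‖
      ≤ Real.exp (Real.exp x) * Real.exp ((1 - b + a) * x) / (‖w‖ / 2) := by gcongr
    _ = 2 / ‖w‖ * (Real.exp (Real.exp x) * Real.exp ((1 - b + a) * x)) := by
        field_simp

lemma B_le {a b : ℝ} (ha : 0 < a) (p : ℂ) :
    ∀ᶠ x : ℝ in atBot, ∀ θ : ℝ, ‖B a b p (x + θ * Complex.I)‖ ≤
      ‖Complex.exp ((1 - b : ℂ) * p)‖ * (2 / (a * ‖Complex.exp p‖)) *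
        (Real.exp (Real.exp x) * Real.exp (1 * x)) := by
  have hp : 0 < ‖Complex.exp p‖ := norm_pos_iff.2 (Complex.exp_ne_zero p)
  filter_upwards [low one_pos (Complex.exp_ne_zero p)] with x hx θ
  unfold B
  rw [norm_div, norm_mul, norm_mul, norm_mul, norm_exp_line1, Complex.norm_real, Real.norm_eq_abs,
    abs_of_pos ha, one_mul]
  have h1 := hx θ
  rw [Complex.ofReal_one, one_mul] at h1
  have h2 := norm_exp_exp_line x θ
  calc ‖Complex.exp ((1 - b : ℂ) * p)‖ * (‖Complex.exp (Complex.exp (x + θ * Complex.I))‖ * Real.exp x) /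
        (a * ‖Complex.exp (x + θ * Complex.I) - Complex.exp p‖)
      ≤ ‖Complex.exp ((1 - b : ℂ) * p)‖ * (Real.exp (Real.exp x) * Real.exp x) /
        (a * (‖Complex.exp p‖ / 2)) := by gcongr
    _ = _ := by field_simp

lemma lim0 {c : ℝ} (hc : 0 < c) (K : ℝ) :
    Tendsto (fun x : ℝ => K * (Real.exp (Real.exp x) * Real.exp (c * x))) atBot (𝓝 0) := by
  have h1 : Tendsto (fun x : ℝ => Real.exp (Real.exp x)) atBot (𝓝 (Real.exp 0)) :=
    (Real.continuous_exp.tendsto 0).comp Real.tendsto_exp_atBot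
  have h2 := (h1.mul (exp_atBot hc)).const_mul K
  simpa using h2

theorem t_LIMB' (a b : ℝ) (w : ℂ) (Z : Finset ℂ) (ha : 0 < a) (hb : 0 < 1 - b + a) (hw : w ≠ 0) :
    Tendsto (fun x : ℝ => mv (G a b w Z) x) atBot (𝓝 0) := by
  have hB : ∀ᶠ x : ℝ in atBot, ∀ p ∈ Z, ∀ θ : ℝ, ‖B a b p (x + θ * Complex.I)‖ ≤
      ‖Complex.exp ((1 - b : ℂ) * p)‖ * (2 / (a * ‖Complex.exp p‖)) *
        (Real.exp (Real.exp x) * Real.exp (1 * x)) :=
    (Filter.eventually_all_finset Z).2 fun p _ => B_le ha p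
  refine squeeze_zero_norm' (a := fun x => 2 / ‖w‖ * (Real.exp (Real.exp x) * Real.exp ((1 - b + a) * x)) +
    ∑ p ∈ Z, ‖Complex.exp ((1 - b : ℂ) * p)‖ * (2 / (a * ‖Complex.exp p‖)) *
        (Real.exp (Real.exp x) * Real.exp (1 * x))) ?_ ?_
  · filter_upwards [hB, A_le (b := b) ha hw] with x h1 h2
    unfold mv
    have h3 : ∀ θ : ℝ, ‖G a b w Z (x + θ * Complex.I)‖ ≤
        2 / ‖w‖ * (Real.exp (Real.exp x) * Real.exp ((1 - b + a) * x)) +
        ∑ p ∈ Z, ‖Complex.exp ((1 - b : ℂ) * p)‖ * (2 / (a * ‖Complex.exp p‖)) *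
        (Real.exp (Real.exp x) * Real.exp (1 * x)) := by
      intro θ
      unfold G
      refine le_trans (norm_sub_le _ _) (add_le_add (h2 θ) ?_)
      exact le_trans (norm_sum_le _ _) (Finset.sum_le_sum fun p hp => h1 p hp θ)
    have h4 := intervalIntegral.norm_integral_le_of_norm_le_const (a := -Real.pi) (b := Real.pi)
      (f := fun θ : ℝ => G a b w Z (x + θ * Complex.I)) (fun θ _ => h3 θ)
    rw [norm_mul]
    have e1 : ‖(1 / (2 * Real.pi) : ℂ)‖ = 1 / (2 * Real.pi) := by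
      have : (1 / (2 * Real.pi) : ℂ) = ((1 / (2 * Real.pi) : ℝ) : ℂ) := by push_cast; ring
      rw [this, Complex.norm_real, Real.norm_eq_abs, abs_of_pos (by positivity)]
    rw [e1]
    have e2 : |Real.pi - -Real.pi| = 2 * Real.pi := by
      rw [abs_of_pos (by linarith [Real.pi_pos])]
      ring
    rw [e2] at h4
    have hp := Real.pi_pos
    have key : ∀ C : ℝ, 1 / (2 * Real.pi) * (C * (2 * Real.pi)) = C := by
      intro C
      field_simp
    exact le_trans (mul_le_mul_of_nonneg_left h4 (by positivity)) (le_of_eq (key _))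
  · have h1 := tendsto_finsetSum Z fun p (_ : p ∈ Z) =>
      lim0 one_pos (‖Complex.exp ((1 - b : ℂ) * p)‖ * (2 / (a * ‖Complex.exp p‖)))
    have h2 := (lim0 hb (2 / ‖w‖)).add h1
    simpa using h2

end R833.ML.LIMB

namespace R833.ML

theorem t_LIMB : S_LIMB := fun a b w Z ha hb hw => R833.ML.LIMB.t_LIMB' a b w Z ha hb hw

end R833.ML
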