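import Pool.Agent.R833.ML.Defs

/-!
Project ML, pieces PA1 and PB1: the size of `P1` at `a = 9/10` and near `a = 1`.
-/

set_option autoImplicit false

namespace R833.ML

open MeasureTheory Set

namespace PA1

theorem cos_neg1 : Real.cos (Real.pi / (2 * (9 / 10))) < 0 := by
  apply Real.cos_neg_of_pi_div_two_lt_of_lt
  · have := Real.pi_pos
    rw [div_lt_div_iff₀ (by norm_num) (by norm_num)]
    nlinarith
  · have := Real.pi_pos
    rw [div_lt_iff₀ (by norm_num)]
    nlinarith

end PA1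

theorem t_PA1 : S_PA1 := by
  have hc := PA1.cos_neg1
  set c := Real.cos (Real.pi / (2 * (9 / 10))) with hcdef
  have h1 := tendsto_rpow_mul_exp_neg_mul_atTop_nhds_zero (9 / 10) (-c) (by linarith)
  have h2 := h1.const_mul (Real.pi / ((9 / 10) * Real.Gamma (9 / 10) *
    Real.sin (Real.pi * (9 / 10))))
  rw [mul_zero] at h2
  refine h2.congr fun τ => ?_
  unfold P1
  rw [← hcdef]
  rw [show - -c * τ = τ * c by ring]
  ring

theorem t_PB1 : S_G1 → S_PB1 := by
  intro hG T hT
  have hTpos : 0 < T := by linarith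
  set ε : ℝ := 1 / (20 * T) with hε
  have hε0 : 0 < ε := by positivity
  have hTε : T * ε = 1 / 20 := by rw [hε]; field_simp
  have hε1 : ε ≤ 1 / 20 := by nlinarith
  have hpi := Real.pi_pos
  have hpi4 : Real.pi < 3.15 := Real.pi_lt_d2
  refine ⟨1 - ε, by linarith, by linarith, ?_⟩
  intro τ hτ1 hτT
  obtain ⟨hg1, -, hg2⟩ := hG (1 - ε) (by linarith) (by linarith)
  have ha : 0 < 1 - ε := by linarith
  have hg0 : 0 < (1 - ε) * Real.Gamma (1 - ε) := by
    have : 0 < Real.Gamma (1 - ε) := by linarith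
    positivity
  have hsin : Real.sin (Real.pi * (1 - ε)) = Real.sin (Real.pi * ε) := by
    rw [show Real.pi * (1 - ε) = Real.pi - Real.pi * ε by ring, Real.sin_pi_sub]
  have hπε : 0 < Real.pi * ε := by positivity
  have hs0 : 0 < Real.sin (Real.pi * ε) := by
    apply Real.sin_pos_of_pos_of_lt_pi hπε
    nlinarith
  have hs1 : Real.sin (Real.pi * ε) ≤ Real.pi * ε := Real.sin_le hπε.le
  have hτa : 1 ≤ τ ^ (1 - ε) := Real.one_le_rpow hτ1 ha.le
  have hden : (1 - ε) * Real.Gamma (1 - ε) * Real.sin (Real.pi * ε) ≤ Real.pi * ε := by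
    calc (1 - ε) * Real.Gamma (1 - ε) * Real.sin (Real.pi * ε)
        ≤ 1 * Real.sin (Real.pi * ε) := mul_le_mul_of_nonneg_right hg2 hs0.le
      _ ≤ Real.pi * ε := by rw [one_mul]; exact hs1
  have hden0 : 0 < (1 - ε) * Real.Gamma (1 - ε) * Real.sin (Real.pi * ε) := mul_pos hg0 hs0
  have hfrac : 20 ≤ Real.pi * τ ^ (1 - ε) /
      ((1 - ε) * Real.Gamma (1 - ε) * Real.sin (Real.pi * ε)) := by
    rw [le_div_iff₀ hden0]
    have h3 : 20 * (Real.pi * ε) ≤ Real.pi := by nlinarith
    nlinarith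
  have hcos : -(Real.pi * ε) ≤ Real.cos (Real.pi / (2 * (1 - ε))) := by
    have hx : 0 ≤ Real.pi / (2 * (1 - ε)) - Real.pi / 2 := by
      rw [sub_nonneg, div_le_div_iff₀ (by norm_num) (by linarith)]
      nlinarith
    have hx2 : Real.pi / (2 * (1 - ε)) - Real.pi / 2 ≤ Real.pi * ε := by
      rw [sub_le_iff_le_add, div_le_iff₀ (by linarith)]
      nlinarith
    have : Real.cos (Real.pi / (2 * (1 - ε))) =
        -Real.sin (Real.pi / (2 * (1 - ε)) - Real.pi / 2) := by
      rw [Real.sin_sub_pi_div_two]; ring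
    rw [this]
    have := Real.sin_le hx
    linarith
  have hexp : (1 : ℝ) / 2 ≤ Real.exp (τ * Real.cos (Real.pi / (2 * (1 - ε)))) := by
    have h4 : -(1 / 5) ≤ τ * Real.cos (Real.pi / (2 * (1 - ε))) := by
      have h5 : τ * (-(Real.pi * ε)) ≤ τ * Real.cos (Real.pi / (2 * (1 - ε))) :=
        mul_le_mul_of_nonneg_left hcos (by linarith)
      have h6 : τ * (Real.pi * ε) ≤ T * (Real.pi * ε) :=
        mul_le_mul_of_nonneg_right hτT hπε.le
      have h7 : T * (Real.pi * ε) = Real.pi / 20 := by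
        rw [show T * (Real.pi * ε) = Real.pi * (T * ε) by ring, hTε]; ring
      linarith
    have h8 := Real.add_one_le_exp (τ * Real.cos (Real.pi / (2 * (1 - ε))))
    linarith
  unfold P1
  rw [hsin]
  nlinarith

end R833.ML
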