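import Pool.Agent.R833.ML.Defs

/-!
Project ML (helper833), piece REP1 (helper273).
-/

set_option autoImplicit false

namespace R833.ML

open MeasureTheory

theorem t_REP1 (hR : S_REPG) : S_REP1 := by
  intro a τ ha1 ha2 hτ
  have ha : 0 < a := by linarith
  have hac : (a : ℂ) ≠ 0 := by exact_mod_cast ha.ne'
  have hpi := Real.pi_pos
  obtain ⟨p₀, hp₀⟩ : ∃ p₀ : ℂ, p₀ = ((Real.log τ : ℝ) : ℂ) +
      ((Real.pi / (2 * a) : ℝ) : ℂ) * Complex.I := ⟨_, rfl⟩
  obtain ⟨w, hw⟩ : ∃ w : ℂ, w = Complex.I * ((τ ^ a : ℝ) : ℂ) := ⟨_, rfl⟩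
  have hwne : w ≠ 0 := by
    rw [hw]
    exact mul_ne_zero Complex.I_ne_zero (by exact_mod_cast (Real.rpow_pos_of_pos hτ a).ne')
  have hap : (a : ℂ) * p₀ = ((a * Real.log τ : ℝ) : ℂ) + ((Real.pi / 2 : ℝ) : ℂ) * Complex.I := by
    rw [hp₀]
    push_cast
    field_simp
  have hexp : Complex.exp (a * p₀) = w := by
    rw [hap, Complex.exp_add, ← Complex.ofReal_exp]
    have h1 : Complex.exp (((Real.pi / 2 : ℝ) : ℂ) * Complex.I) = Complex.I := by
      push_cast
      exact Complex.exp_pi_div_two_mul_I
    rw [h1, hw, Real.rpow_def_of_pos hτ, mul_comm a (Real.log τ)]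
    ring
  have him : p₀.im = Real.pi / (2 * a) := by
    rw [hp₀, Complex.add_im, Complex.ofReal_im, Complex.mul_im, Complex.ofReal_re,
      Complex.ofReal_im, Complex.I_re, Complex.I_im]
    ring
  have hapim : ((a : ℂ) * p₀).im = Real.pi / 2 := by
    rw [hap]
    simp
  have hpoles : Poles a w {p₀} := by
    constructor
    · intro p hp
      rw [Finset.mem_singleton] at hp
      rw [hp]
      refine ⟨hexp, ?_⟩
      rw [him, abs_of_pos (by positivity), div_lt_iff₀ (by positivity)]
      nlinarith
    · intro p hpim hpe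
      rw [Finset.mem_singleton]
      rw [← hexp, Complex.exp_eq_exp_iff_exists_int] at hpe
      obtain ⟨n, hn⟩ := hpe
      have h1 : ((a : ℂ) * p).im = Real.pi / 2 + n * (2 * Real.pi) := by
        rw [hn, Complex.add_im, hapim]
        simp
      have h2 : ((a : ℂ) * p).im = a * p.im := by simp
      rw [h2] at h1
      have h3 := abs_le.mp hpim
      have h4 : a * p.im < Real.pi := by nlinarith
      have h5 : -Real.pi < a * p.im := by nlinarith
      have hn0 : n = 0 := by
        have h6 : (n : ℝ) < 1 := by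
          by_contra hcon
          push Not at hcon
          nlinarith
        have h7 : (-1 : ℝ) < n := by
          by_contra hcon
          push Not at hcon
          nlinarith
        have h8 : n < 1 := by exact_mod_cast h6
        have h9 : -1 < n := by exact_mod_cast h7
        omega
      rw [hn0] at hn
      have h10 : (a : ℂ) * p = (a : ℂ) * p₀ := by
        rw [hn]
        simp
      exact mul_left_cancel₀ hac h10
  have hrep := hR a 1 w {p₀} ha one_pos (by linarith) hwne hpoles
  rw [← hw, hrep, Finset.sum_singleton]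
  have e1 : Complex.exp p₀ = (τ : ℂ) * Complex.exp ((Real.pi / (2 * a) : ℝ) * Complex.I) := by
    rw [hp₀, Complex.exp_add, ← Complex.ofReal_exp, Real.exp_log hτ]
  have e2 : (1 / Real.pi : ℂ) * ∫ t : ℝ, Jf a 1 w t =
      ((Real.sin (Real.pi * a) / Real.pi : ℝ) : ℂ) * w * K a a w := by
    have e3 : ∀ t : ℝ, Jf a 1 w t =
        (w * ((Real.sin (Real.pi * a) : ℝ) : ℂ)) * (((wt a t : ℝ) : ℂ) / Den a w t) := by
      intro t
      unfold Jf
      have e4 : (1 : ℝ) - 1 + a = a := by ring
      rw [e4]
      simp only [sub_self, mul_zero, Real.sin_zero, Complex.ofReal_zero, sub_zero]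
      ring
    unfold K
    simp_rw [e3]
    rw [integral_const_mul]
    push_cast
    ring
  rw [e2, e1]
  simp

end R833.ML
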