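import Pool.Agent.R833.ML.Main2
import Pool.Agent.R833.ML.REP1
import Pool.Agent.R833.ML.DEL1
import Pool.Agent.R833.ML.CONT1
import Pool.Agent.R833.ML.PA1
import Pool.Agent.R833.ML.FIN1

set_option autoImplicit false

namespace R833.ML

theorem all_FIN1 : S_FIN1 :=
  FIN1.t_FIN1 (t_REP1 all_REPG) (t_DEL1 t_GAM t_G1 t_DEN1) (t_CONT1 t_DEN1 t_GAM) t_G1 TOP.t_TOP
    t_PA1 (t_PB1 t_G1)

end R833.ML
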