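import Pool.Agent.R833.ML.Defs

/-!
Project ML, pieces PA2 and PB2: the size of `P2` at `a = 19/10` and near `a = 2`.
-/

set_option autoImplicit false

namespace R833.ML

open MeasureTheory Set

namespace PA2

theorem sin_neg1 : Real.sin (2 * Real.pi / (19 / 10)) < 0 := by
  have hpi := Real.pi_pos
  have h : Real.sin (2 * Real.pi / (19 / 10)) = -Real.sin (2 * Real.pi / (19 / 10) - Real.pi) := by
    rw [Real.sin_sub_pi]; ring
  rw [h, neg_lt_zero]
  apply Real.sin_pos_of_pos_of_lt_pi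
  · rw [sub_pos, lt_div_iff₀ (by norm_num)]
    nlinarith
  · rw [sub_lt_iff_lt_add, div_lt_iff₀ (by norm_num)]
    nlinarith

end PA2

theorem t_PA2 : S_PA2 := by
  have hc := PA2.sin_neg1
  set c := Real.sin (2 * Real.pi / (19 / 10)) with hcdef
  have h1 := tendsto_rpow_mul_exp_neg_mul_atTop_nhds_zero (19 / 10 - 1) (-c) (by linarith)
  have h2 := h1.const_mul (4 * Real.sin (Real.pi / (19 / 10)) ^ 2 /
    ((19 / 10) * (-sg (19 / 10)) * Real.Gamma (19 / 10 - 1)))
  rw [mul_zero] at h2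
  refine h2.congr fun τ => ?_
  unfold P2
  rw [← hcdef]
  rw [show - -c * τ = τ * c by ring]
  ring

theorem t_PB2 : S_G2 → S_PB2 := by
  intro hG T hT
  have hTpos : 0 < T := by linarith
  set ε : ℝ := 1 / (20 * T) with hε
  have hε0 : 0 < ε := by positivity
  have hTε : T * ε = 1 / 20 := by rw [hε]; field_simp
  have hε1 : ε ≤ 1 / 20 := by nlinarith
  have hpi := Real.pi_pos
  have hpi4 : Real.pi < 3.15 := Real.pi_lt_d2
  refine ⟨2 - ε, by linarith, by linarith, ?_⟩
  intro τ hτ1 hτT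
  obtain ⟨hg1, hg2, -⟩ := hG (2 - ε) (by linarith) (by linarith)
  have ha : 0 < 2 - ε := by linarith
  set g := Real.Gamma (2 - ε - 1) with hg
  have hsin : -sg (2 - ε) = Real.sin (Real.pi * ε) / Real.pi := by
    unfold sg
    rw [show Real.pi * (2 - ε) = 2 * Real.pi - Real.pi * ε by ring, Real.sin_two_pi_sub]
    ring
  have hπε : 0 < Real.pi * ε := by positivity
  have hs0 : 0 < Real.sin (Real.pi * ε) := by
    apply Real.sin_pos_of_pos_of_lt_pi hπε
    nlinarith
  have hs1 : Real.sin (Real.pi * ε) ≤ Real.pi * ε := Real.sin_le hπε.le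
  have hsg0 : 0 < -sg (2 - ε) := by rw [hsin]; positivity
  have hsg1 : -sg (2 - ε) ≤ ε := by
    rw [hsin, div_le_iff₀ hpi]; linarith
  have hτa : 1 ≤ τ ^ (2 - ε - 1) := Real.one_le_rpow hτ1 (by linarith)
  have hden0 : 0 < (2 - ε) * (-sg (2 - ε)) * g := by positivity
  have hden : (2 - ε) * (-sg (2 - ε)) * g ≤ 12 / 5 * ε := by
    calc (2 - ε) * (-sg (2 - ε)) * g ≤ (2 * ε) * (6 / 5) := by
          apply mul_le_mul _ hg2 (by linarith) (by positivity)
          apply mul_le_mul (by linarith) hsg1 hsg0.le (by norm_num)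
      _ = 12 / 5 * ε := by ring
  have hx0 : 0 ≤ Real.pi / (2 - ε) - Real.pi / 2 := by
    rw [sub_nonneg, div_le_div_iff₀ (by norm_num) (by linarith)]
    nlinarith
  have hx1 : Real.pi / (2 - ε) - Real.pi / 2 ≤ 1 / 5 := by
    rw [sub_le_iff_le_add, div_le_iff₀ (by linarith)]
    nlinarith
  have hsq : 9 / 10 ≤ Real.sin (Real.pi / (2 - ε)) ^ 2 := by
    have h1 : Real.sin (Real.pi / (2 - ε)) = Real.cos (Real.pi / (2 - ε) - Real.pi / 2) := by
      rw [Real.cos_sub_pi_div_two]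
    have h2 := Real.one_sub_sq_div_two_le_cos (x := Real.pi / (2 - ε) - Real.pi / 2)
    rw [h1]
    have h3 : (98 / 100 : ℝ) ≤ Real.cos (Real.pi / (2 - ε) - Real.pi / 2) := by nlinarith
    nlinarith
  have hfrac : 20 ≤ 4 * Real.sin (Real.pi / (2 - ε)) ^ 2 /
      ((2 - ε) * (-sg (2 - ε)) * g) := by
    rw [le_div_iff₀ hden0]
    nlinarith
  have hfrac2 : 20 ≤ 4 * Real.sin (Real.pi / (2 - ε)) ^ 2 /
      ((2 - ε) * (-sg (2 - ε)) * g) * τ ^ (2 - ε - 1) := by
    nlinarith
  have hsn : -(Real.pi * ε) ≤ Real.sin (2 * Real.pi / (2 - ε)) := by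
    have hx : 0 ≤ 2 * Real.pi / (2 - ε) - Real.pi := by
      rw [sub_nonneg, le_div_iff₀ ha]
      nlinarith
    have hx2 : 2 * Real.pi / (2 - ε) - Real.pi ≤ Real.pi * ε := by
      rw [sub_le_iff_le_add, div_le_iff₀ ha]
      nlinarith
    have h4 : Real.sin (2 * Real.pi / (2 - ε)) =
        -Real.sin (2 * Real.pi / (2 - ε) - Real.pi) := by
      rw [Real.sin_sub_pi]; ring
    rw [h4]
    have := Real.sin_le hx
    linarith
  have hexp : (1 : ℝ) / 2 ≤ Real.exp (τ * Real.sin (2 * Real.pi / (2 - ε))) := by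
    have h4 : -(1 / 5) ≤ τ * Real.sin (2 * Real.pi / (2 - ε)) := by
      have h5 : τ * (-(Real.pi * ε)) ≤ τ * Real.sin (2 * Real.pi / (2 - ε)) :=
        mul_le_mul_of_nonneg_left hsn (by linarith)
      have h6 : τ * (Real.pi * ε) ≤ T * (Real.pi * ε) :=
        mul_le_mul_of_nonneg_right hτT hπε.le
      have h7 : T * (Real.pi * ε) = Real.pi / 20 := by
        rw [show T * (Real.pi * ε) = Real.pi * (T * ε) by ring, hTε]; ring
      linarith
    have h8 := Real.add_one_le_exp (τ * Real.sin (2 * Real.pi / (2 - ε)))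
    linarith
  unfold P2
  nlinarith

end R833.ML
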