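import Pool.Agent.R833.ML.Defs

set_option autoImplicit false

namespace R833.ML

open MeasureTheory

theorem t_POL2 : S_POL2 := by
  intro a τ ha1 ha2 hτ
  have hs1 : s1 a τ = ((τ * Real.sin (2 * Real.pi / a) : ℝ) : ℂ) +
      ((-(τ * Real.cos (2 * Real.pi / a)) : ℝ) : ℂ) * Complex.I := by
    unfold s1
    rw [Complex.exp_mul_I, ← Complex.ofReal_cos, ← Complex.ofReal_sin,
      Real.cos_sub_pi_div_two, Real.sin_sub_pi_div_two]
    push_cast
    ring
  have hs0 : s0 τ ≠ 0 := by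
    unfold s0
    rw [neg_ne_zero]
    exact mul_ne_zero Complex.I_ne_zero (by exact_mod_cast hτ.ne')
  have hpow : τ ^ a = τ ^ (a - 1) * τ := by
    rw [← Real.rpow_add_one hτ.ne', sub_add_cancel]
  have hW : W a τ / s0 τ = ((τ ^ (a - 1) : ℝ) : ℂ) *
      Complex.exp (((-(Real.pi * (a - 1) / 2) : ℝ) : ℂ) * Complex.I) := by
    rw [div_eq_iff hs0]
    unfold W s0
    rw [hpow]
    have h1 : Complex.exp (((-(Real.pi * (a - 1) / 2) : ℝ) : ℂ) * Complex.I) =
        Complex.exp (-((Real.pi * a / 2 : ℝ) : ℂ) * Complex.I) * Complex.I := by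
      have h2 : (((-(Real.pi * (a - 1) / 2) : ℝ) : ℂ) * Complex.I) =
          -((Real.pi * a / 2 : ℝ) : ℂ) * Complex.I + (Real.pi / 2 : ℂ) * Complex.I := by
        push_cast
        ring
      rw [h2, Complex.exp_add, Complex.exp_pi_div_two_mul_I]
    rw [h1, Complex.ofReal_mul]
    linear_combination (((τ ^ (a - 1) : ℝ) : ℂ)) * (τ : ℂ) *
      Complex.exp (-((Real.pi * a / 2 : ℝ) : ℂ) * Complex.I) * Complex.I_sq
  unfold M2 P2
  rw [hW, hs1, Complex.exp_add]
  have h3 : Complex.exp (((-(τ * Real.cos (2 * Real.pi / a)) - Real.pi * (a - 1) / 2 : ℝ) : ℂ) *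
      Complex.I) = Complex.exp (((-(Real.pi * (a - 1) / 2) : ℝ) : ℂ) * Complex.I) *
      Complex.exp (((-(τ * Real.cos (2 * Real.pi / a)) : ℝ) : ℂ) * Complex.I) := by
    rw [← Complex.exp_add]
    congr 1
    push_cast
    ring
  have h4 : 4 * Real.sin (Real.pi / a) ^ 2 / (a * (-sg a) * Real.Gamma (a - 1)) =
      -(4 * Real.sin (Real.pi / a) ^ 2 / (a * sg a * Real.Gamma (a - 1))) := by
    rw [← div_neg]
    congr 1
    ring
  rw [h3, h4, ← Complex.ofReal_exp]
  push_cast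
  ring

end R833.ML
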