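import Pool.Agent.R833.ML.Defs

/-!
Project ML: the rectangle theorem for `G` (removable singularities at the points of `Z`).
-/

set_option autoImplicit false

namespace R833.ML.RECT

open MeasureTheory Filter Topology Set

/-- `exp ζ = exp p` in the closed strip only for `ζ = p`. -/
theorem exp_inj {p ζ : ℂ} (hp : |p.im| < Real.pi) (hζ : |ζ.im| ≤ Real.pi)
    (h : Complex.exp ζ = Complex.exp p) : ζ = p := by
  obtain ⟨n, hn⟩ := Complex.exp_eq_exp_iff_exists_int.1 h
  have him : ζ.im = p.im + n * (2 * Real.pi) := by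
    rw [hn]
    simp
  have hn0 : n = 0 := by
    have h1 := abs_lt.1 hp
    have h2 := abs_le.1 hζ
    have hpi := Real.pi_pos
    by_contra hne
    rcases lt_or_gt_of_ne hne with hlt | hgt
    · have h3 : (n : ℝ) ≤ -1 := by exact_mod_cast (by omega : n ≤ -1)
      nlinarith [h1.1, h1.2, h2.1, h2.2]
    · have h3 : (1 : ℝ) ≤ n := by exact_mod_cast (by omega : 1 ≤ n)
      nlinarith [h1.1, h1.2, h2.1, h2.2]
  rw [hn, hn0]
  simp

theorem diff_A {a b : ℝ} {w ζ : ℂ} (h : Complex.exp (a * ζ) ≠ w) :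
    DifferentiableAt ℂ (A a b w) ζ := by
  unfold A
  refine DifferentiableAt.fun_div ?_ ?_ (sub_ne_zero.2 h)
  · fun_prop
  · fun_prop

theorem diff_B {a b : ℝ} {p ζ : ℂ} (ha : a ≠ 0) (h : Complex.exp ζ ≠ Complex.exp p) :
    DifferentiableAt ℂ (B a b p) ζ := by
  unfold B
  refine DifferentiableAt.fun_div ?_ ?_ ?_
  · fun_prop
  · fun_prop
  · have ha' : (a : ℂ) ≠ 0 := by exact_mod_cast ha
    exact mul_ne_zero ha' (sub_ne_zero.2 h)

theorem diff_G {a b : ℝ} {w : ℂ} {Z : Finset ℂ} (ha : a ≠ 0) (hZ : Poles a w Z) {ζ : ℂ}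
    (hζ : |ζ.im| ≤ Real.pi) (hn : ζ ∉ Z) : DifferentiableAt ℂ (G a b w Z) ζ := by
  unfold G
  refine DifferentiableAt.fun_sub ?_ ?_
  · exact diff_A fun h => hn (hZ.2 ζ hζ h)
  · refine DifferentiableAt.fun_sum ?_
    intro p hp
    refine diff_B ha fun h => hn ?_
    have := exp_inj (hZ.1 p hp).2 hζ h
    rw [this]
    exact hp

/-- punctured neighbourhoods of a point of `Z` -/
theorem eventually_good {a : ℝ} {w : ℂ} {Z : Finset ℂ} (hZ : Poles a w Z) {p : ℂ} (hp : p ∈ Z) :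
    ∀ᶠ ζ in 𝓝[≠] p, |ζ.im| ≤ Real.pi ∧ ζ ∉ Z := by
  have h1 : ∀ᶠ ζ in 𝓝 p, |ζ.im| < Real.pi := by
    have hc : Continuous fun ζ : ℂ => |ζ.im| := Complex.continuous_im.abs
    exact hc.continuousAt.eventually_lt continuousAt_const (hZ.1 p hp).2
  have h2 : ∀ᶠ ζ in 𝓝[≠] p, ζ ∉ Z := by
    have hf : IsClosed ((Z : Set ℂ) \ {p}) := ((Z.finite_toSet).subset sdiff_subset).isClosed
    have h3 : ∀ᶠ ζ in 𝓝 p, ζ ∉ ((Z : Set ℂ) \ {p}) :=
      hf.isOpen_compl.mem_nhds (by simp)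
    filter_upwards [mem_nhdsWithin_of_mem_nhds h3, self_mem_nhdsWithin] with ζ h4 h5 h6
    exact h4 ⟨h6, h5⟩
  filter_upwards [mem_nhdsWithin_of_mem_nhds h1, h2] with ζ h3 h4
  exact ⟨h3.le, h4⟩

/-- the reciprocal of a difference quotient -/
theorem tendsto_inv_slope {f : ℂ → ℂ} {p d : ℂ} (hf : HasDerivAt f d p) (hd : d ≠ 0) :
    Tendsto (fun z => (z - p) / (f z - f p)) (𝓝[≠] p) (𝓝 (1 / d)) := by
  have h1 := (hf.tendsto_slope).inv₀ hd
  rw [one_div]
  refine h1.congr fun z => ?_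
  simp only [slope, vsub_eq_sub, smul_eq_mul, mul_inv, inv_inv]
  rw [div_eq_mul_inv]

theorem tendsto_A {a b : ℝ} {w p : ℂ} (ha : a ≠ 0) (hw : w ≠ 0)
    (hp : Complex.exp (a * p) = w) :
    Tendsto (fun z => (z - p) * A a b w z) (𝓝[≠] p)
      (𝓝 (Complex.exp (Complex.exp p) * Complex.exp ((1 - b : ℂ) * p) / a)) := by
  have ha' : (a : ℂ) ≠ 0 := by exact_mod_cast ha
  have hd : HasDerivAt (fun z : ℂ => Complex.exp (a * z)) (w * a) p := by
    have h := ((hasDerivAt_id p).const_mul (a : ℂ)).cexp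
    simpa [hp] using h
  have h1 := tendsto_inv_slope hd (mul_ne_zero hw ha')
  have hN : ContinuousAt (fun z : ℂ => Complex.exp (Complex.exp z) *
      Complex.exp ((1 - b : ℂ) * z) * Complex.exp (a * z)) p := by fun_prop
  have h2 := (hN.tendsto.mono_left (nhdsWithin_le_nhds (s := {p}ᶜ))).mul h1
  have e : Complex.exp (Complex.exp p) * Complex.exp ((1 - b : ℂ) * p) * Complex.exp (a * p) *
      (1 / (w * a)) = Complex.exp (Complex.exp p) * Complex.exp ((1 - b : ℂ) * p) / a := by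
    rw [hp]
    field_simp
  rw [e] at h2
  refine h2.congr fun z => ?_
  simp only [A, hp]
  ring

theorem tendsto_B {a b : ℝ} {p : ℂ} (ha : a ≠ 0) :
    Tendsto (fun z => (z - p) * B a b p z) (𝓝[≠] p)
      (𝓝 (Complex.exp (Complex.exp p) * Complex.exp ((1 - b : ℂ) * p) / a)) := by
  have ha' : (a : ℂ) ≠ 0 := by exact_mod_cast ha
  have hd : HasDerivAt (fun z : ℂ => Complex.exp z) (Complex.exp p) p := Complex.hasDerivAt_exp p
  have h1 := tendsto_inv_slope hd (Complex.exp_ne_zero p)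
  have hN : ContinuousAt (fun z : ℂ => Complex.exp ((1 - b : ℂ) * p) *
      (Complex.exp (Complex.exp z) * Complex.exp z) / a) p := by fun_prop
  have h2 := (hN.tendsto.mono_left (nhdsWithin_le_nhds (s := {p}ᶜ))).mul h1
  have hep := Complex.exp_ne_zero p
  have e : Complex.exp ((1 - b : ℂ) * p) *
      (Complex.exp (Complex.exp p) * Complex.exp p) / a * (1 / Complex.exp p) =
      Complex.exp (Complex.exp p) * Complex.exp ((1 - b : ℂ) * p) / a := by
    field_simp
  rw [e] at h2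
  refine h2.congr fun z => ?_
  simp only [B]
  rw [div_mul_div_comm, mul_div_assoc']
  ring

theorem tendsto_G {a b : ℝ} {w : ℂ} {Z : Finset ℂ} (ha : a ≠ 0) (hw : w ≠ 0) (hZ : Poles a w Z)
    {p : ℂ} (hp : p ∈ Z) :
    Tendsto (fun z => (z - p) * G a b w Z z) (𝓝[≠] p) (𝓝 0) := by
  have h1 := tendsto_A (b := b) ha hw (hZ.1 p hp).1
  have h2 := tendsto_B (b := b) (p := p) ha
  have h0 : Tendsto (fun z : ℂ => z - p) (𝓝[≠] p) (𝓝 0) := by
    have hc : ContinuousAt (fun z : ℂ => z - p) p := by fun_prop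
    have := hc.tendsto.mono_left (nhdsWithin_le_nhds (s := {p}ᶜ))
    simpa using this
  have h3 : ∀ q ∈ Z.erase p, Tendsto (fun z => (z - p) * B a b q z) (𝓝[≠] p) (𝓝 0) := by
    intro q hq
    have hq' := Finset.mem_erase.1 hq
    have hc : ContinuousAt (B a b q) p := by
      refine (diff_B ha fun h => hq'.1 ?_).continuousAt
      exact (exp_inj (hZ.1 q hq'.2).2 (hZ.1 p hp).2.le h).symm
    have h4 := h0.mul (hc.tendsto.mono_left (nhdsWithin_le_nhds (s := {p}ᶜ)))
    simpa using h4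
  have h4 := tendsto_finsetSum (Z.erase p) h3
  have h5 := (h1.sub h2).sub h4
  have e : Complex.exp (Complex.exp p) * Complex.exp ((1 - b : ℂ) * p) / a -
      Complex.exp (Complex.exp p) * Complex.exp ((1 - b : ℂ) * p) / a -
      ∑ q ∈ Z.erase p, (0 : ℂ) = 0 := by simp
  rw [e] at h5
  refine h5.congr fun z => ?_
  simp only [G]
  rw [← Finset.add_sum_erase Z (fun q => B a b q z) hp, ← Finset.mul_sum]
  ring

theorem lim_G {a b : ℝ} {w : ℂ} {Z : Finset ℂ} (ha : a ≠ 0) (hw : w ≠ 0) (hZ : Poles a w Z)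
    {p : ℂ} (hp : p ∈ Z) :
    Tendsto (G a b w Z) (𝓝[≠] p) (𝓝 (limUnder (𝓝[≠] p) (G a b w Z))) := by
  refine Complex.tendsto_limUnder_of_differentiable_on_punctured_nhds_of_isLittleO ?_ ?_
  · filter_upwards [eventually_good hZ hp] with ζ h
    exact diff_G ha hZ h.1 h.2
  · have hne : ∀ᶠ z in 𝓝[≠] p, (z - p)⁻¹ = 0 → G a b w Z z - G a b w Z p = 0 := by
      filter_upwards [self_mem_nhdsWithin] with z hz h
      exact absurd (inv_eq_zero.1 h) (sub_ne_zero.2 hz)
    rw [Asymptotics.isLittleO_iff_tendsto' hne]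
    have h0 : Tendsto (fun z : ℂ => (z - p) * G a b w Z p) (𝓝[≠] p) (𝓝 0) := by
      have hc : ContinuousAt (fun z : ℂ => (z - p) * G a b w Z p) p := by fun_prop
      have := hc.tendsto.mono_left (nhdsWithin_le_nhds (s := {p}ᶜ))
      simpa using this
    have h1 := (tendsto_G (b := b) ha hw hZ hp).sub h0
    rw [sub_zero] at h1
    refine h1.congr fun z => ?_
    rw [div_inv_eq_mul]
    ring

open Classical in
/-- the extension of `G` -/
noncomputable def Gx (a b : ℝ) (w : ℂ) (Z : Finset ℂ) (ζ : ℂ) : ℂ :=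
  if ζ ∈ Z then limUnder (𝓝[≠] ζ) (G a b w Z) else G a b w Z ζ

theorem Gx_of_not_mem {a b : ℝ} {w : ℂ} {Z : Finset ℂ} {ζ : ℂ} (h : ζ ∉ Z) :
    Gx a b w Z ζ = G a b w Z ζ := by
  simp [Gx, h]

theorem Gx_eventually {a b : ℝ} {w : ℂ} {Z : Finset ℂ} {ζ : ℂ} (h : ζ ∉ Z) :
    Gx a b w Z =ᶠ[𝓝 ζ] G a b w Z := by
  have h1 : ∀ᶠ x in 𝓝 ζ, x ∉ (Z : Set ℂ) := (Z.finite_toSet.isClosed.isOpen_compl).mem_nhds h
  filter_upwards [h1] with x hx
  exact Gx_of_not_mem hx

theorem diff_Gx {a b : ℝ} {w : ℂ} {Z : Finset ℂ} (ha : a ≠ 0) (hZ : Poles a w Z) {ζ : ℂ}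
    (hζ : |ζ.im| ≤ Real.pi) (hn : ζ ∉ Z) : DifferentiableAt ℂ (Gx a b w Z) ζ :=
  (diff_G ha hZ hζ hn).congr_of_eventuallyEq (Gx_eventually hn)

theorem cont_Gx {a b : ℝ} {w : ℂ} {Z : Finset ℂ} (ha : a ≠ 0) (hw : w ≠ 0) (hZ : Poles a w Z)
    {ζ : ℂ} (hζ : |ζ.im| ≤ Real.pi) : ContinuousAt (Gx a b w Z) ζ := by
  by_cases hn : ζ ∈ Z
  · rw [continuousAt_iff_punctured_nhds]
    have h1 := lim_G (b := b) ha hw hZ hn
    have e : Gx a b w Z ζ = limUnder (𝓝[≠] ζ) (G a b w Z) := by simp [Gx, hn]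
    rw [e]
    refine h1.congr' ?_
    filter_upwards [eventually_good hZ hn] with z hz
    exact (Gx_of_not_mem hz.2).symm
  · exact (diff_Gx ha hZ hζ hn).continuousAt

/-- `exp (x ± iπ) = - exp x` -/
theorem exp_top (x : ℝ) : Complex.exp (x + (Real.pi : ℝ) * Complex.I) = -Complex.exp x := by
  rw [Complex.exp_add, Complex.exp_pi_mul_I]
  ring

theorem exp_bot (x : ℝ) :
    Complex.exp (x + ((-Real.pi : ℝ) : ℂ) * Complex.I) = -Complex.exp x := by
  rw [Complex.exp_add, Complex.ofReal_neg, neg_mul, Complex.exp_neg, Complex.exp_pi_mul_I]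
  norm_num

theorem B_per (a b : ℝ) (p : ℂ) (x : ℝ) :
    B a b p (x + ((-Real.pi : ℝ) : ℂ) * Complex.I) = B a b p (x + (Real.pi : ℝ) * Complex.I) := by
  unfold B
  rw [exp_top, exp_bot]

theorem A_jump {a b : ℝ} {w : ℂ} {Z : Finset ℂ} (hZ : Poles a w Z) (x : ℝ) :
    A a b w (x + ((-Real.pi : ℝ) : ℂ) * Complex.I) - A a b w (x + (Real.pi : ℝ) * Complex.I) =
      2 * Complex.I * Jf a b w x := by
  have hpi := Real.pi_pos
  have h1 : Complex.exp (a * (x + ((-Real.pi : ℝ) : ℂ) * Complex.I)) - w ≠ 0 := by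
    intro h
    have hm := hZ.2 (x + ((-Real.pi : ℝ) : ℂ) * Complex.I)
      (by simp [abs_of_pos hpi]) (sub_eq_zero.1 h)
    have h3 := (hZ.1 _ hm).2
    simp [abs_of_pos hpi] at h3
  have h2 : Complex.exp (a * (x + (Real.pi : ℝ) * Complex.I)) - w ≠ 0 := by
    intro h
    have hm := hZ.2 (x + (Real.pi : ℝ) * Complex.I)
      (by simp [abs_of_pos hpi]) (sub_eq_zero.1 h)
    have h3 := (hZ.1 _ hm).2
    simp [abs_of_pos hpi] at h3
  have k1 : Complex.exp (a * (x + ((-Real.pi : ℝ) : ℂ) * Complex.I)) =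
      Complex.exp (a * x) * Complex.exp (-((Real.pi * a : ℝ) : ℂ) * Complex.I) := by
    rw [← Complex.exp_add]
    congr 1
    push_cast
    ring
  have k2 : Complex.exp (a * (x + (Real.pi : ℝ) * Complex.I)) =
      Complex.exp (a * x) * Complex.exp (((Real.pi * a : ℝ) : ℂ) * Complex.I) := by
    rw [← Complex.exp_add]
    congr 1
    push_cast
    ring
  have k3 : Complex.exp ((1 - b : ℂ) * (x + ((-Real.pi : ℝ) : ℂ) * Complex.I)) =
      Complex.exp ((1 - b : ℂ) * x) *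
        Complex.exp (-((Real.pi * (1 - b) : ℝ) : ℂ) * Complex.I) := by
    rw [← Complex.exp_add]
    congr 1
    push_cast
    ring
  have k4 : Complex.exp ((1 - b : ℂ) * (x + (Real.pi : ℝ) * Complex.I)) =
      Complex.exp ((1 - b : ℂ) * x) *
        Complex.exp (((Real.pi * (1 - b) : ℝ) : ℂ) * Complex.I) := by
    rw [← Complex.exp_add]
    congr 1
    push_cast
    ring
  have s1 : ((Real.sin (Real.pi * (1 - b)) : ℝ) : ℂ) =
      (Complex.exp (-((Real.pi * (1 - b) : ℝ) : ℂ) * Complex.I) -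
        Complex.exp (((Real.pi * (1 - b) : ℝ) : ℂ) * Complex.I)) * Complex.I / 2 := by
    rw [Complex.ofReal_sin]
    rfl
  have s2 : ((Real.sin (Real.pi * (1 - b + a)) : ℝ) : ℂ) =
      (Complex.exp (-((Real.pi * (1 - b) : ℝ) : ℂ) * Complex.I) *
          Complex.exp (-((Real.pi * a : ℝ) : ℂ) * Complex.I) -
        Complex.exp (((Real.pi * (1 - b) : ℝ) : ℂ) * Complex.I) *
          Complex.exp (((Real.pi * a : ℝ) : ℂ) * Complex.I)) * Complex.I / 2 := by
    rw [← Complex.exp_add, ← Complex.exp_add, Complex.ofReal_sin]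
    have e1 : -((Real.pi * (1 - b) : ℝ) : ℂ) * Complex.I + -((Real.pi * a : ℝ) : ℂ) * Complex.I
        = -((Real.pi * (1 - b + a) : ℝ) : ℂ) * Complex.I := by
      push_cast
      ring
    have e2 : ((Real.pi * (1 - b) : ℝ) : ℂ) * Complex.I + ((Real.pi * a : ℝ) : ℂ) * Complex.I
        = ((Real.pi * (1 - b + a) : ℝ) : ℂ) * Complex.I := by
      push_cast
      ring
    rw [e1, e2]
    rfl
  have c1 : ((Real.cos (Real.pi * a) : ℝ) : ℂ) =
      (Complex.exp (((Real.pi * a : ℝ) : ℂ) * Complex.I) +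
        Complex.exp (-((Real.pi * a : ℝ) : ℂ) * Complex.I)) / 2 := by
    rw [Complex.ofReal_cos]
    rfl
  have u1 : Complex.exp (((Real.pi * a : ℝ) : ℂ) * Complex.I) *
      Complex.exp (-((Real.pi * a : ℝ) : ℂ) * Complex.I) = 1 := by
    rw [← Complex.exp_add]
    simp
  have w1 : ((wt (1 - b + a) x : ℝ) : ℂ) = Complex.exp (-Complex.exp x) *
      (Complex.exp ((1 - b : ℂ) * x) * Complex.exp (a * x)) := by
    rw [← Complex.exp_add]
    unfold wt
    push_cast
    congr 2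
    ring
  have r2 : ((Real.exp (2 * a * x) : ℝ) : ℂ) = Complex.exp (a * x) * Complex.exp (a * x) := by
    rw [← Complex.exp_add]
    push_cast
    congr 1
    ring
  have r1 : ((Real.exp (a * x) : ℝ) : ℂ) = Complex.exp (a * x) := by
    push_cast
    rfl
  have x1 : Complex.exp (-Complex.exp x) = Complex.exp (-Complex.exp x) := rfl
  rw [k1] at h1
  rw [k2] at h2
  unfold A Jf Den
  rw [exp_top, exp_bot, k1, k2, k3, k4, w1, r2]
  simp only [Complex.ofReal_mul (Real.exp (a * x))]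
  rw [s1, s2, c1, r1]
  generalize Complex.exp (-((Real.pi * a : ℝ) : ℂ) * Complex.I) = ea' at *
  generalize Complex.exp (((Real.pi * a : ℝ) : ℂ) * Complex.I) = ea at *
  generalize Complex.exp (-((Real.pi * (1 - b) : ℝ) : ℂ) * Complex.I) = e1' at *
  generalize Complex.exp (((Real.pi * (1 - b) : ℝ) : ℂ) * Complex.I) = e1 at *
  generalize Complex.exp (-Complex.exp x) = X at *
  generalize Complex.exp ((1 - b : ℂ) * x) = Y at *
  generalize Complex.exp (a * x) = r at *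
  have hden : r * r - 2 * w * (r * ((ea + ea') / 2)) + w ^ 2 = (r * ea' - w) * (r * ea - w) := by
    linear_combination (-(r * r)) * u1
  rw [hden, div_sub_div _ _ h1 h2, ← mul_div_assoc]
  congr 1
  have hI : Complex.I * Complex.I = -1 := Complex.I_mul_I
  linear_combination (X * Y * r * r * (e1' - e1)) * u1 +
    (-(X * Y * r) * (w * (e1' * ea' - e1 * ea) - r * (e1' - e1))) * hI

theorem G_jump {a b : ℝ} {w : ℂ} {Z : Finset ℂ} (hZ : Poles a w Z) (x : ℝ) :
    G a b w Z (x + ((-Real.pi : ℝ) : ℂ) * Complex.I) - G a b w Z (x + (Real.pi : ℝ) * Complex.I) =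
      2 * Complex.I * Jf a b w x := by
  rw [← A_jump hZ x]
  unfold G
  have : ∑ p ∈ Z, B a b p (x + ((-Real.pi : ℝ) : ℂ) * Complex.I) =
      ∑ p ∈ Z, B a b p (x + (Real.pi : ℝ) * Complex.I) :=
    Finset.sum_congr rfl fun p _ => B_per a b p x
  rw [this]
  ring

theorem re_of_mem {a : ℝ} {w : ℂ} {Z : Finset ℂ} (hZ : Poles a w Z) {p : ℂ} (hp : p ∈ Z) :
    Real.exp (a * p.re) = ‖w‖ := by
  rw [← (hZ.1 p hp).1, Complex.norm_exp]
  congr 1
  simp

end RECT

open MeasureTheory Filter Topology Set in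
theorem t_RECT : S_RECT := by
  intro a b w Z ha hw hZ x₁ x₂ hx₁ hx₂
  have hpi := Real.pi_pos
  have ha0 : a ≠ 0 := ha.ne'
  have key := Complex.integral_boundary_rect_eq_zero_of_differentiable_on_off_countable
    (RECT.Gx a b w Z) (⟨x₁, -Real.pi⟩ : ℂ) (⟨x₂, Real.pi⟩ : ℂ) (Z : Set ℂ)
    Z.finite_toSet.countable ?_ ?_
  · have e1 : ∀ x : ℝ, RECT.Gx a b w Z (x + ((-Real.pi : ℝ) : ℂ) * Complex.I) =
        G a b w Z (x + ((-Real.pi : ℝ) : ℂ) * Complex.I) := by
      intro x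
      refine RECT.Gx_of_not_mem fun h => ?_
      have := (hZ.1 _ h).2
      simp [abs_of_pos hpi] at this
    have e2 : ∀ x : ℝ, RECT.Gx a b w Z (x + ((Real.pi : ℝ) : ℂ) * Complex.I) =
        G a b w Z (x + ((Real.pi : ℝ) : ℂ) * Complex.I) := by
      intro x
      refine RECT.Gx_of_not_mem fun h => ?_
      have := (hZ.1 _ h).2
      simp [abs_of_pos hpi] at this
    have e3 : ∀ y : ℝ, RECT.Gx a b w Z (x₂ + (y : ℂ) * Complex.I) =
        G a b w Z (x₂ + (y : ℂ) * Complex.I) := by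
      intro y
      refine RECT.Gx_of_not_mem fun h => ?_
      have := RECT.re_of_mem hZ h
      simp at this
      linarith
    have e4 : ∀ y : ℝ, RECT.Gx a b w Z (x₁ + (y : ℂ) * Complex.I) =
        G a b w Z (x₁ + (y : ℂ) * Complex.I) := by
      intro y
      refine RECT.Gx_of_not_mem fun h => ?_
      have := RECT.re_of_mem hZ h
      simp at this
      linarith
    simp only [e1, e2, e3, e4] at key
    have hint : ∀ s : ℝ, |s| ≤ Real.pi →
        Continuous fun x : ℝ => RECT.Gx a b w Z (x + (s : ℂ) * Complex.I) := by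
      intro s hs
      rw [continuous_iff_continuousAt]
      intro x
      have h1 : ContinuousAt (RECT.Gx a b w Z) ((x : ℂ) + (s : ℂ) * Complex.I) :=
        RECT.cont_Gx ha0 hw hZ (by simpa using hs)
      have h2 : ContinuousAt (fun x : ℝ => (x : ℂ) + (s : ℂ) * Complex.I) x := by fun_prop
      exact ContinuousAt.comp (f := fun x : ℝ => (x : ℂ) + (s : ℂ) * Complex.I) h1 h2
    have hi1 : IntervalIntegrable
        (fun x : ℝ => G a b w Z (x + ((-Real.pi : ℝ) : ℂ) * Complex.I)) volume x₁ x₂ := by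
      have h := (hint (-Real.pi) (by simp [abs_of_pos hpi])).intervalIntegrable (μ := volume) x₁ x₂
      simpa only [e1] using h
    have hi2 : IntervalIntegrable
        (fun x : ℝ => G a b w Z (x + ((Real.pi : ℝ) : ℂ) * Complex.I)) volume x₁ x₂ := by
      have h := (hint (Real.pi) (by simp [abs_of_pos hpi])).intervalIntegrable (μ := volume) x₁ x₂
      simpa only [e2] using h
    have hJ : (∫ x in x₁..x₂, G a b w Z (x + ((-Real.pi : ℝ) : ℂ) * Complex.I)) -
        (∫ x in x₁..x₂, G a b w Z (x + ((Real.pi : ℝ) : ℂ) * Complex.I)) =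
        2 * Complex.I * ∫ t in x₁..x₂, Jf a b w t := by
      rw [← intervalIntegral.integral_sub hi1 hi2, ← intervalIntegral.integral_const_mul]
      refine intervalIntegral.integral_congr fun x _ => ?_
      exact RECT.G_jump hZ x
    rw [hJ] at key
    unfold mv
    simp only [smul_eq_mul] at key
    have hpc : (Real.pi : ℂ) ≠ 0 := by exact_mod_cast hpi.ne'
    generalize (∫ y in (-Real.pi)..Real.pi, G a b w Z (x₂ + (y : ℂ) * Complex.I)) = V2 at *
    generalize (∫ y in (-Real.pi)..Real.pi, G a b w Z (x₁ + (y : ℂ) * Complex.I)) = V1 at *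
    generalize (∫ t in x₁..x₂, Jf a b w t) = J at *
    have h4 : Complex.I * (2 * J + V2 - V1) = 0 := by linear_combination key
    have h5 : 2 * J + V2 - V1 = 0 := by
      rcases mul_eq_zero.1 h4 with h | h
      · exact absurd h Complex.I_ne_zero
      · exact h
    have h6 : V2 = V1 - 2 * J := by linear_combination h5
    rw [h6]
    field_simp
  · intro ζ hζ
    refine (RECT.cont_Gx ha0 hw hZ ?_).continuousWithinAt
    have h1 := hζ.2
    simp only [mem_preimage] at h1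
    rw [uIcc_of_le (by linarith)] at h1
    exact abs_le.2 ⟨h1.1, h1.2⟩
  · rintro ζ ⟨hζ, hn⟩
    refine RECT.diff_Gx ha0 hZ ?_ hn
    have h1 := hζ.2
    simp only [mem_preimage] at h1
    rw [min_eq_left (by linarith), max_eq_right (by linarith)] at h1
    exact abs_le.2 ⟨h1.1.le, h1.2.le⟩

end R833.ML
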