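import Pool.Agent.R833.ML.Defs

/-!
Piece REP2: the representation of the Mittag-Leffler functions with two poles.
-/

set_option autoImplicit false

namespace R833.ML.REP2

open MeasureTheory R833.ML

noncomputable def p0 (τ : ℝ) : ℂ := ((Real.log τ : ℝ) : ℂ) + ((-(Real.pi / 2) : ℝ) : ℂ) * Complex.I

noncomputable def p1 (a τ : ℝ) : ℂ :=
  ((Real.log τ : ℝ) : ℂ) + ((2 * Real.pi / a - Real.pi / 2 : ℝ) : ℂ) * Complex.I

theorem exp_log (τ : ℝ) (hτ : 0 < τ) : Complex.exp ((Real.log τ : ℝ) : ℂ) = (τ : ℂ) := by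
  rw [← Complex.ofReal_exp, Real.exp_log hτ]

theorem exp_alog (a τ : ℝ) (hτ : 0 < τ) :
    Complex.exp ((a * Real.log τ : ℝ) : ℂ) = ((τ ^ a : ℝ) : ℂ) := by
  rw [← Complex.ofReal_exp, Real.rpow_def_of_pos hτ, mul_comm]

theorem exp_p0 (τ : ℝ) (hτ : 0 < τ) : Complex.exp (p0 τ) = s0 τ := by
  rw [p0, Complex.exp_add, exp_log τ hτ, s0]
  have : Complex.exp (((-(Real.pi / 2) : ℝ) : ℂ) * Complex.I) = -Complex.I := by
    have h : ((-(Real.pi / 2) : ℝ) : ℂ) * Complex.I = -((Real.pi / 2 : ℂ) * Complex.I) := by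
      push_cast; ring
    rw [h, Complex.exp_neg, Complex.exp_pi_div_two_mul_I, Complex.inv_I]
  rw [this]
  ring

theorem exp_p1 (a τ : ℝ) (hτ : 0 < τ) : Complex.exp (p1 a τ) = s1 a τ := by
  rw [p1, Complex.exp_add, exp_log τ hτ, s1]

theorem exp_ap0 (a τ : ℝ) (hτ : 0 < τ) : Complex.exp (a * p0 τ) = W a τ := by
  have h : (a : ℂ) * p0 τ = ((a * Real.log τ : ℝ) : ℂ) +
      -((Real.pi * a / 2 : ℝ) : ℂ) * Complex.I := by
    rw [p0]; push_cast; ring
  rw [h, Complex.exp_add, exp_alog a τ hτ, W]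

theorem exp_ap1 (a τ : ℝ) (ha : a ≠ 0) (hτ : 0 < τ) : Complex.exp (a * p1 a τ) = W a τ := by
  have hac : (a : ℂ) ≠ 0 := by exact_mod_cast ha
  have h : (a : ℂ) * p1 a τ = (((a * Real.log τ : ℝ) : ℂ) +
      -((Real.pi * a / 2 : ℝ) : ℂ) * Complex.I) + 2 * Real.pi * Complex.I := by
    rw [p1]; push_cast; field_simp; ring
  rw [h, Complex.exp_add, Complex.exp_two_pi_mul_I, mul_one, Complex.exp_add, exp_alog a τ hτ, W]

theorem im_p0 (τ : ℝ) : (p0 τ).im = -(Real.pi / 2) := by
  simp [p0]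

theorem im_p1 (a τ : ℝ) : (p1 a τ).im = 2 * Real.pi / a - Real.pi / 2 := by
  rw [p1, Complex.add_im, Complex.ofReal_im, Complex.im_ofReal_mul, Complex.I_im]
  ring

theorem poles (a τ : ℝ) (ha : 19 / 10 ≤ a) (ha2 : a < 2) (hτ : 0 < τ) :
    Poles a (W a τ) {p0 τ, p1 a τ} := by
  have ha0 : 0 < a := by linarith
  have hpi := Real.pi_pos
  constructor
  · intro p hp
    simp only [Finset.mem_insert, Finset.mem_singleton] at hp
    rcases hp with rfl | rfl
    · refine ⟨exp_ap0 a τ hτ, ?_⟩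
      rw [im_p0, abs_lt]
      constructor <;> linarith
    · refine ⟨exp_ap1 a τ ha0.ne' hτ, ?_⟩
      rw [im_p1, abs_lt]
      have h1 : 0 < 2 * Real.pi / a := by positivity
      have h2 : 2 * Real.pi / a < 3 / 2 * Real.pi := by
        rw [div_lt_iff₀ ha0]
        nlinarith
      constructor <;> linarith
  · intro p him hexp
    rw [← exp_ap0 a τ hτ, Complex.exp_eq_exp_iff_exists_int] at hexp
    obtain ⟨n, hn⟩ := hexp
    have hre : a * p.re = a * Real.log τ := by
      have := congrArg Complex.re hn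
      simpa [p0] using this
    have him2 : a * p.im = a * -(Real.pi / 2) + n * (2 * Real.pi) := by
      have := congrArg Complex.im hn
      simpa [p0] using this
    have hre' : p.re = Real.log τ := mul_left_cancel₀ ha0.ne' hre
    obtain ⟨hl, hu⟩ := abs_le.mp him
    have hn0 : -1 < n := by
      have : (-1 : ℝ) < n := by
        by_contra hcon
        push Not at hcon
        have h1 : (n : ℝ) * (2 * Real.pi) ≤ -1 * (2 * Real.pi) :=
          mul_le_mul_of_nonneg_right hcon (by positivity)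
        have h2 : a * -Real.pi ≤ a * p.im := mul_le_mul_of_nonneg_left hl ha0.le
        nlinarith
      exact_mod_cast this
    have hn1 : n < 2 := by
      have : (n : ℝ) < 2 := by
        by_contra hcon
        push Not at hcon
        have h1 : (2 : ℝ) * (2 * Real.pi) ≤ n * (2 * Real.pi) :=
          mul_le_mul_of_nonneg_right hcon (by positivity)
        have h2 : a * p.im ≤ a * Real.pi := mul_le_mul_of_nonneg_left hu ha0.le
        nlinarith
      exact_mod_cast this
    have hcase : n = 0 ∨ n = 1 := by omega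
    simp only [Finset.mem_insert, Finset.mem_singleton]
    rcases hcase with rfl | rfl
    · left
      apply Complex.ext
      · rw [hre']; simp [p0]
      · rw [im_p0]
        apply mul_left_cancel₀ ha0.ne'
        rw [him2]; push_cast; ring
    · right
      apply Complex.ext
      · rw [hre']; simp [p1]
      · rw [im_p1]
        apply mul_left_cancel₀ ha0.ne'
        rw [him2]; push_cast; field_simp; ring

theorem p_ne (a τ : ℝ) (ha : 0 < a) : p0 τ ≠ p1 a τ := by
  intro h
  have h1 := congrArg Complex.im h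
  rw [im_p0, im_p1] at h1
  have h2 : 0 < 2 * Real.pi / a := by positivity
  linarith

theorem W_ne (a τ : ℝ) (hτ : 0 < τ) : W a τ ≠ 0 := by
  rw [← exp_ap0 a τ hτ]
  exact Complex.exp_ne_zero _

theorem t_REP2 : S_REPG → S_REP2 := by
  intro hR a τ ha ha2 hτ
  have ha0 : 0 < a := by linarith
  have hP := poles a τ ha ha2 hτ
  have hW := W_ne a τ hτ
  have hne := p_ne a τ ha0
  have hs0 : s0 τ ≠ 0 := by rw [← exp_p0 τ hτ]; exact Complex.exp_ne_zero _
  have hs1 : s1 a τ ≠ 0 := by rw [← exp_p1 a τ hτ]; exact Complex.exp_ne_zero _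
  have hpi : (Real.pi : ℂ) ≠ 0 := by exact_mod_cast Real.pi_ne_zero
  refine ⟨?_, ?_, ?_⟩
  · have h := hR a 1 (W a τ) {p0 τ, p1 a τ} ha0 one_pos (by linarith) hW hP
    rw [h, Finset.sum_pair hne]
    have hJ : (fun t : ℝ => Jf a 1 (W a τ) t) = fun t : ℝ =>
        (W a τ * ((Real.sin (Real.pi * a) : ℝ) : ℂ)) *
          (((wt a t : ℝ) : ℂ) / Den a (W a τ) t) := by
      funext t
      have e1 : (1 : ℝ) - 1 + a = a := by ring
      have e2 : Real.sin (Real.pi * (1 - 1)) = 0 := by simp
      rw [Jf, e1, e2]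
      push_cast
      ring
    rw [hJ, integral_const_mul]
    rw [exp_p0 τ hτ, exp_p1 a τ hτ]
    have e3 : ((1 : ℂ) - ((1 : ℝ) : ℂ)) = 0 := by simp
    rw [e3, zero_mul, zero_mul, Complex.exp_zero, one_mul, one_mul]
    rw [K, sg]
    push_cast
    ring
  · have h := hR a 2 (W a τ) {p0 τ, p1 a τ} ha0 two_pos (by linarith) hW hP
    rw [h, Finset.sum_pair hne]
    have hJ : (fun t : ℝ => Jf a 2 (W a τ) t) = fun t : ℝ =>
        (-(W a τ * ((Real.sin (Real.pi * a) : ℝ) : ℂ))) *
          (((wt (a - 1) t : ℝ) : ℂ) / Den a (W a τ) t) := by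
      funext t
      have e1 : (1 : ℝ) - 2 + a = a - 1 := by ring
      have e2 : Real.sin (Real.pi * (1 - 2)) = 0 := by
        have : Real.pi * (1 - 2) = -Real.pi := by ring
        rw [this, Real.sin_neg, Real.sin_pi, neg_zero]
      have e3 : Real.sin (Real.pi * (a - 1)) = -Real.sin (Real.pi * a) := by
        have : Real.pi * (a - 1) = Real.pi * a - Real.pi := by ring
        rw [this, Real.sin_sub_pi]
      rw [Jf, e1, e2, e3]
      push_cast
      ring
    rw [hJ, integral_const_mul]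
    have e4 : ∀ p : ℂ, Complex.exp (((1 : ℂ) - ((2 : ℝ) : ℂ)) * p) = (Complex.exp p)⁻¹ := by
      intro p
      rw [← Complex.exp_neg]
      congr 1
      push_cast
      ring
    rw [e4, e4, exp_p0 τ hτ, exp_p1 a τ hτ, K, sg]
    push_cast
    ring
  · have h := hR a a (W a τ) {p0 τ, p1 a τ} ha0 ha0 (by linarith) hW hP
    rw [h, Finset.sum_pair hne]
    have hJ : (fun t : ℝ => Jf a a (W a τ) t) = fun t : ℝ =>
        (-((Real.sin (Real.pi * a) : ℝ) : ℂ)) *
          (((wt (a + 1) t : ℝ) : ℂ) / Den a (W a τ) t) := by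
      funext t
      have e1 : (1 : ℝ) - a + a = 1 := by ring
      have e2 : Real.sin (Real.pi * (1 - a)) = Real.sin (Real.pi * a) := by
        have : Real.pi * (1 - a) = Real.pi - Real.pi * a := by ring
        rw [this, Real.sin_pi_sub]
      have e3 : wt (a + 1) t = wt 1 t * Real.exp (a * t) := by
        rw [wt, wt, mul_assoc, ← Real.exp_add (1 * t) (a * t)]
        congr 2
        ring
      rw [Jf, e1, e2, e3]
      simp only [mul_one, Real.sin_pi]
      push_cast
      ring
    rw [hJ, integral_const_mul]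
    have e4 : ∀ p : ℂ, Complex.exp (((1 : ℂ) - (a : ℂ)) * p) =
        Complex.exp p / Complex.exp (a * p) := by
      intro p
      rw [← Complex.exp_sub]
      congr 1
      ring
    rw [e4, e4, exp_ap0 a τ hτ, exp_ap1 a τ ha0.ne' hτ, exp_p0 τ hτ, exp_p1 a τ hτ, K, sg]
    push_cast
    ring

end R833.ML.REP2

/-- the same theorem under the name given in the task -/
theorem R833.ML.t_REP2 : R833.ML.S_REPG → R833.ML.S_REP2 := R833.ML.REP2.t_REP2
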