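import Pool.Agent.R833.ML.Defs

/-!
Project ML (helper833), piece REPG (helper273).
-/

set_option autoImplicit false

namespace R833.ML.REPG

open MeasureTheory R833.ML

/-- the CIRC integrand -/
noncomputable def C (p ζ : ℂ) : ℂ :=
  Complex.exp (Complex.exp ζ) * Complex.exp ζ / (Complex.exp ζ - Complex.exp p)

theorem B_eq (a b : ℝ) (p ζ : ℂ) :
    B a b p ζ = (Complex.exp ((1 - b : ℂ) * p) / a) * C p ζ := by
  unfold B C
  rw [div_mul_div_comm, mul_div_assoc, mul_div_assoc]

theorem norm_exp_line (x θ : ℝ) : ‖Complex.exp ((x : ℂ) + θ * Complex.I)‖ = Real.exp x := by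
  rw [Complex.norm_exp]
  simp

theorem norm_exp_line' (a x θ : ℝ) :
    ‖Complex.exp ((a : ℂ) * ((x : ℂ) + θ * Complex.I))‖ = Real.exp (a * x) := by
  rw [Complex.norm_exp]
  simp

theorem C_cont (p : ℂ) (x : ℝ) (hp : p.re < x) :
    Continuous (fun θ : ℝ => C p (x + θ * Complex.I)) := by
  unfold C
  refine Continuous.div (by fun_prop) (by fun_prop) ?_
  intro θ h
  have h1 : Complex.exp ((x : ℂ) + θ * Complex.I) = Complex.exp p := sub_eq_zero.mp h
  have h2 := congrArg (fun z : ℂ => ‖z‖) h1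
  simp only [norm_exp_line] at h2
  rw [Complex.norm_exp] at h2
  exact hp.ne' (Real.exp_injective h2)

theorem A_cont (a b : ℝ) (w : ℂ) (x : ℝ) (hx : ‖w‖ < Real.exp (a * x)) :
    Continuous (fun θ : ℝ => A a b w (x + θ * Complex.I)) := by
  unfold A
  refine Continuous.div (by fun_prop) (by fun_prop) ?_
  intro θ h
  have h1 : Complex.exp ((a : ℂ) * ((x : ℂ) + θ * Complex.I)) = w := sub_eq_zero.mp h
  have h2 := congrArg (fun z : ℂ => ‖z‖) h1
  simp only [norm_exp_line'] at h2
  exact hx.ne' h2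

end R833.ML.REPG

namespace R833.ML

open MeasureTheory R833.ML.REPG

theorem t_REPG (hR : S_RECT) (hL : S_LIMB) (hC : S_CIRC) (hS : S_SER) (hI : S_INTJ) : S_REPG := by
  intro a b w Z ha hb hab hw hZ
  obtain ⟨hint, hden⟩ := hI a b w Z ha hab hw hZ
  have hw' : 0 < ‖w‖ := norm_pos_iff.mpr hw
  obtain ⟨x₂, hx2⟩ : ∃ x₂ : ℝ, ‖w‖ < Real.exp (a * x₂) := by
    refine ⟨Real.log (‖w‖ + 1) / a, ?_⟩
    rw [mul_div_cancel₀ _ ha.ne', Real.exp_log (by positivity)]
    linarith
  have l1 : Filter.Tendsto (fun x : ℝ => mv (G a b w Z) x -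
      (1 / Real.pi : ℂ) * ∫ t in x..x₂, Jf a b w t) Filter.atBot
      (nhds (0 - (1 / Real.pi : ℂ) * ∫ t in Set.Iic x₂, Jf a b w t)) := by
    refine (hL a b w Z ha hab hw).sub (Filter.Tendsto.const_mul _ ?_)
    exact MeasureTheory.intervalIntegral_tendsto_integral_Iic x₂ hint.integrableOn
      Filter.tendsto_id
  have l2 : Filter.Tendsto (fun x : ℝ => mv (G a b w Z) x -
      (1 / Real.pi : ℂ) * ∫ t in x..x₂, Jf a b w t) Filter.atBot
      (nhds (mv (G a b w Z) x₂)) := by
    refine Filter.Tendsto.congr' ?_ tendsto_const_nhds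
    have hev : ∀ᶠ x : ℝ in Filter.atBot, Real.exp (a * x) < ‖w‖ := by
      have ht : Filter.Tendsto (fun x : ℝ => Real.exp (a * x)) Filter.atBot (nhds 0) :=
        Real.tendsto_exp_atBot.comp (Filter.Tendsto.const_mul_atBot ha Filter.tendsto_id)
      exact ht.eventually_lt_const hw'
    filter_upwards [hev] with x hx
    exact hR a b w Z ha hw hZ x x₂ hx hx2
  have hmv := tendsto_nhds_unique l2 l1
  have hre : ∀ p ∈ Z, p.re < x₂ := by
    intro p hp
    have h1 := (hZ.1 p hp).1
    have h2 : Real.exp (a * p.re) = ‖w‖ := by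
      rw [← h1, Complex.norm_exp]
      simp
    rw [← h2] at hx2
    have h3 := Real.exp_lt_exp.mp hx2
    exact lt_of_mul_lt_mul_left h3 ha.le
  have hBmv : ∀ p ∈ Z, mv (B a b p) x₂ =
      (1 / a : ℂ) * (Complex.exp ((1 - b : ℂ) * p) * Complex.exp (Complex.exp p)) := by
    intro p hp
    have h1 := hC p x₂ (hre p hp)
    have h2 : mv (B a b p) x₂ = (Complex.exp ((1 - b : ℂ) * p) / a) * mv (C p) x₂ := by
      unfold mv
      simp_rw [B_eq]
      rw [intervalIntegral.integral_const_mul]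
      ring
    rw [h2]
    have h3 : mv (C p) x₂ = Complex.exp (Complex.exp p) := h1
    rw [h3]
    ring
  have hGmv : mv (G a b w Z) x₂ = mv (A a b w) x₂ - ∑ p ∈ Z, mv (B a b p) x₂ := by
    have hBc : ∀ p ∈ Z, IntervalIntegrable (fun θ : ℝ => B a b p (x₂ + θ * Complex.I)) volume
        (-Real.pi) Real.pi := by
      intro p hp
      simp_rw [B_eq]
      exact (continuous_const.mul (C_cont p x₂ (hre p hp))).intervalIntegrable _ _
    unfold mv G
    rw [intervalIntegral.integral_sub ((A_cont a b w x₂ hx2).intervalIntegrable _ _)]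
    · rw [intervalIntegral.integral_finsetSum hBc, mul_sub, Finset.mul_sum]
    · refine (continuous_finsetSum Z fun p hp => ?_).intervalIntegrable _ _
      simp_rw [B_eq]
      exact continuous_const.mul (C_cont p x₂ (hre p hp))
  rw [hGmv, Finset.sum_congr rfl hBmv, ← Finset.mul_sum, hS a b w ha hb x₂ hx2] at hmv
  have hsplit : ∫ t : ℝ, Jf a b w t =
      (∫ t in Set.Iic x₂, Jf a b w t) + ∫ t in Set.Ioi x₂, Jf a b w t :=
    (intervalIntegral.integral_Iic_add_Ioi hint.integrableOn hint.integrableOn).symm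
  rw [hsplit]
  linear_combination hmv

end R833.ML
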