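import Mathlib
import Pool.Agent.R833.ML.Defs

/-!
Project ML, piece SER: the right vertical side, by expansion in a geometric series.
-/

set_option autoImplicit false

namespace R833.ML

open MeasureTheory Set Filter Topology

namespace SER

theorem hs_congr {f g : ℕ → ℂ} {a b : ℂ} (h : HasSum f a) (hfg : ∀ k, g k = f k) (hab : b = a) :
    HasSum g b := by
  rw [show g = f from funext hfg, hab]
  exact h

/-- the weight is integrable on every half line -/
theorem wt_int (c x : ℝ) : IntegrableOn (fun t : ℝ => wt c t) (Ioi x) := by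
  set m : ℝ := |c| + 1 with hm
  have hm0 : 0 < m := by rw [hm]; positivity
  have hmc : 0 < m - c := by
    have := le_abs_self c
    rw [hm]; linarith
  have hbound : ∀ t : ℝ, wt c t ≤ Real.exp (-m + m * Real.log m) * Real.exp (-(m - c) * t) := by
    intro t
    unfold wt
    rw [← Real.exp_add, ← Real.exp_add]
    apply Real.exp_le_exp.mpr
    have h1 : (t - Real.log m) + 1 ≤ Real.exp (t - Real.log m) := Real.add_one_le_exp _
    have h2 : Real.exp (t - Real.log m) = Real.exp t / m := by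
      rw [Real.exp_sub, Real.exp_log hm0]
    rw [h2, le_div_iff₀ hm0] at h1
    nlinarith
  have hint : IntegrableOn (fun t : ℝ => Real.exp (-m + m * Real.log m) *
      Real.exp (-(m - c) * t)) (Ioi x) :=
    (exp_neg_integrableOn_Ioi x hmc).const_mul _
  refine Integrable.mono' hint ?_ ?_
  · refine Continuous.aestronglyMeasurable ?_
    unfold wt
    fun_prop
  · refine Filter.Eventually.of_forall fun t => ?_
    rw [Real.norm_eq_abs, abs_of_nonneg]
    · exact hbound t
    · unfold wt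
      positivity

theorem sin_sum (q : ℂ) (hq : ‖q‖ < 1) (a b : ℝ) :
    HasSum (fun k : ℕ => q ^ k * ((Real.sin (Real.pi * (a * k + b)) : ℝ) : ℂ))
      ((((Real.sin (Real.pi * b) : ℝ) : ℂ) - q * ((Real.sin (Real.pi * (b - a)) : ℝ) : ℂ)) /
        (1 - 2 * q * ((Real.cos (Real.pi * a) : ℝ) : ℂ) + q ^ 2)) := by
  set u : ℂ := Complex.exp ((Real.pi * a : ℝ) * Complex.I) with hu
  set u' : ℂ := Complex.exp (-((Real.pi * a : ℝ) * Complex.I)) with hu'
  set v : ℂ := Complex.exp ((Real.pi * b : ℝ) * Complex.I) with hv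
  set v' : ℂ := Complex.exp (-((Real.pi * b : ℝ) * Complex.I)) with hv'
  have huu : u * u' = 1 := by rw [hu, hu', ← Complex.exp_add, add_neg_cancel, Complex.exp_zero]
  have hun : ‖u‖ = 1 := Complex.norm_exp_ofReal_mul_I _
  have hun' : ‖u'‖ = 1 := by
    have h1 : -((Real.pi * a : ℝ) * Complex.I : ℂ) = ((-(Real.pi * a) : ℝ) : ℂ) * Complex.I := by
      push_cast; ring
    rw [hu', h1]
    exact Complex.norm_exp_ofReal_mul_I _
  have hqu : ‖q * u‖ < 1 := by rw [norm_mul, hun, mul_one]; exact hq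
  have hqu' : ‖q * u'‖ < 1 := by rw [norm_mul, hun', mul_one]; exact hq
  have hne : 1 - q * u ≠ 0 := by
    intro h0
    have h1 : q * u = 1 := (sub_eq_zero.mp h0).symm
    rw [h1] at hqu
    simp at hqu
  have hne' : 1 - q * u' ≠ 0 := by
    intro h0
    have h1 : q * u' = 1 := (sub_eq_zero.mp h0).symm
    rw [h1] at hqu'
    simp at hqu'
  have hsin : ∀ y : ℝ, ((Real.sin y : ℝ) : ℂ) =
      (Complex.exp (-((y : ℂ) * Complex.I)) - Complex.exp ((y : ℂ) * Complex.I)) *
        Complex.I / 2 := by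
    intro y
    rw [Complex.ofReal_sin]
    simp only [Complex.sin, neg_mul]
  have hterm : ∀ k : ℕ, q ^ k * ((Real.sin (Real.pi * (a * k + b)) : ℝ) : ℂ)
      = (Complex.I / 2 * v') * (q * u') ^ k - (Complex.I / 2 * v) * (q * u) ^ k := by
    intro k
    rw [hsin]
    have h1 : Complex.exp (-(((Real.pi * (a * k + b) : ℝ) : ℂ) * Complex.I)) = v' * u' ^ k := by
      rw [hv', hu', ← Complex.exp_nat_mul, ← Complex.exp_add]
      congr 1
      push_cast
      ring
    have h2 : Complex.exp (((Real.pi * (a * k + b) : ℝ) : ℂ) * Complex.I) = v * u ^ k := by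
      rw [hv, hu, ← Complex.exp_nat_mul, ← Complex.exp_add]
      congr 1
      push_cast
      ring
    rw [h1, h2, mul_pow, mul_pow]
    ring
  have hs1 := (hasSum_geometric_of_norm_lt_one hqu').mul_left (Complex.I / 2 * v')
  have hs2 := (hasSum_geometric_of_norm_lt_one hqu).mul_left (Complex.I / 2 * v)
  have hs := hs1.sub hs2
  refine hs_congr hs hterm ?_
  have hsb : ((Real.sin (Real.pi * b) : ℝ) : ℂ) = (v' - v) * Complex.I / 2 := hsin _
  have hsba : ((Real.sin (Real.pi * (b - a)) : ℝ) : ℂ) = (v' * u - v * u') * Complex.I / 2 := by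
    rw [hsin]
    have h1 : Complex.exp (-(((Real.pi * (b - a) : ℝ) : ℂ) * Complex.I)) = v' * u := by
      rw [hv', hu, ← Complex.exp_add]
      congr 1
      push_cast
      ring
    have h2 : Complex.exp (((Real.pi * (b - a) : ℝ) : ℂ) * Complex.I) = v * u' := by
      rw [hv, hu', ← Complex.exp_add]
      congr 1
      push_cast
      ring
    rw [h1, h2]
  have hcos : ((Real.cos (Real.pi * a) : ℝ) : ℂ) = (u + u') / 2 := by
    rw [Complex.ofReal_cos]
    simp only [Complex.cos, neg_mul]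
    rw [hu, hu']
  have hden : 1 - 2 * q * ((Real.cos (Real.pi * a) : ℝ) : ℂ) + q ^ 2
      = (1 - q * u') * (1 - q * u) := by
    rw [hcos]
    linear_combination (-(q ^ 2)) * huu
  rw [hden, hsb, hsba]
  field_simp
  ring

/-- the jump integrand -/
theorem Jf_eq (a b : ℝ) (w : ℂ) (t : ℝ) :
    Jf a b w t = -(((wt (1 - b) t : ℝ) : ℂ) *
      ((((Real.sin (Real.pi * b) : ℝ) : ℂ) -
        (w * ((Real.exp (-(a * t)) : ℝ) : ℂ)) * ((Real.sin (Real.pi * (b - a)) : ℝ) : ℂ)) /
        (1 - 2 * (w * ((Real.exp (-(a * t)) : ℝ) : ℂ)) * ((Real.cos (Real.pi * a) : ℝ) : ℂ) +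
          (w * ((Real.exp (-(a * t)) : ℝ) : ℂ)) ^ 2))) := by
  set r : ℂ := ((Real.exp (a * t) : ℝ) : ℂ) with hr
  have hr0 : r ≠ 0 := by
    rw [hr]
    exact_mod_cast (Real.exp_pos _).ne'
  have hrinv : ((Real.exp (-(a * t)) : ℝ) : ℂ) = r⁻¹ := by
    rw [Real.exp_neg, Complex.ofReal_inv]
  set q : ℂ := w * r⁻¹ with hq
  have hw : w = q * r := by rw [hq, mul_assoc, inv_mul_cancel₀ hr0, mul_one]
  rw [hrinv, ← hq]
  have hwt : ((wt (1 - b + a) t : ℝ) : ℂ) = ((wt (1 - b) t : ℝ) : ℂ) * r := by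
    rw [hr, ← Complex.ofReal_mul]
    congr 1
    unfold wt
    have h0 : Real.exp ((1 - b + a) * t) = Real.exp ((1 - b) * t) * Real.exp (a * t) := by
      rw [← Real.exp_add]
      congr 1
      ring
    rw [h0]
    ring
  have hs1 : Real.sin (Real.pi * (1 - b + a)) = Real.sin (Real.pi * (b - a)) := by
    rw [← Real.sin_pi_sub]
    congr 1
    ring
  have hs2 : Real.sin (Real.pi * (1 - b)) = Real.sin (Real.pi * b) := by
    rw [← Real.sin_pi_sub]
    congr 1
    ring
  have hden : Den a w t = r ^ 2 * (1 - 2 * q * ((Real.cos (Real.pi * a) : ℝ) : ℂ) + q ^ 2) := by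
    unfold Den
    have h1 : ((Real.exp (2 * a * t) : ℝ) : ℂ) = r ^ 2 := by
      rw [hr, ← Complex.ofReal_pow, ← Real.exp_nat_mul]
      congr 2
      push_cast
      ring
    have h2 : ((Real.exp (a * t) * Real.cos (Real.pi * a) : ℝ) : ℂ)
        = r * ((Real.cos (Real.pi * a) : ℝ) : ℂ) := by
      rw [hr, Complex.ofReal_mul]
    rw [h1, h2, hw]
    ring
  unfold Jf
  rw [hden, hwt, hs1, hs2]
  have h3 : ((Real.exp (a * t) * Real.sin (Real.pi * b) : ℝ) : ℂ)
      = r * ((Real.sin (Real.pi * b) : ℝ) : ℂ) := by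
    rw [hr, Complex.ofReal_mul]
  rw [h3]
  have h4 : ((wt (1 - b) t : ℝ) : ℂ) * r *
      (w * ((Real.sin (Real.pi * (b - a)) : ℝ) : ℂ) - r * ((Real.sin (Real.pi * b) : ℝ) : ℂ))
      = r ^ 2 * (-(((wt (1 - b) t : ℝ) : ℂ) * (((Real.sin (Real.pi * b) : ℝ) : ℂ) -
        q * ((Real.sin (Real.pi * (b - a)) : ℝ) : ℂ)))) := by
    rw [hw]
    ring
  rw [h4, mul_div_mul_left _ _ (pow_ne_zero 2 hr0)]
  ring

/-- the terms of the second series -/
noncomputable def Fk (a b : ℝ) (w : ℂ) (k : ℕ) (t : ℝ) : ℂ :=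
  w ^ k * ((Real.sin (Real.pi * (a * k + b)) * wt (1 - (a * k + b)) t : ℝ) : ℂ)

theorem wt_shift (a b t : ℝ) (k : ℕ) :
    wt (1 - (a * k + b)) t = wt (1 - b) t * Real.exp (-(a * t)) ^ k := by
  unfold wt
  have h0 : Real.exp ((1 - (a * k + b)) * t)
      = Real.exp ((1 - b) * t) * Real.exp (-(a * t)) ^ k := by
    rw [← Real.exp_nat_mul, ← Real.exp_add]
    congr 1
    ring
  rw [h0]
  ring

theorem hasSum_Fk (a b x : ℝ) (w : ℂ) (ha : 0 < a) (hw : ‖w‖ < Real.exp (a * x)) (t : ℝ)
    (ht : x < t) : HasSum (fun k => Fk a b w k t) (-(Jf a b w t)) := by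
  have hq : ‖w * ((Real.exp (-(a * t)) : ℝ) : ℂ)‖ < 1 := by
    rw [norm_mul, Complex.norm_real, Real.norm_eq_abs, abs_of_pos (Real.exp_pos _), Real.exp_neg,
      mul_inv_lt_iff₀ (Real.exp_pos _), one_mul]
    exact hw.trans (Real.exp_lt_exp.mpr (by nlinarith))
  have h1 := (sin_sum _ hq a b).mul_left ((wt (1 - b) t : ℝ) : ℂ)
  rw [Jf_eq, neg_neg]
  refine hs_congr h1 (fun k => ?_) rfl
  unfold Fk
  rw [wt_shift]
  push_cast
  ring

theorem norm_Fk (a b x : ℝ) (w : ℂ) (ha : 0 < a) (t : ℝ) (ht : x < t) (k : ℕ) :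
    ‖Fk a b w k t‖ ≤ (‖w‖ * Real.exp (-(a * x))) ^ k * wt (1 - b) t := by
  unfold Fk
  rw [norm_mul, norm_pow, Complex.norm_real, Real.norm_eq_abs, abs_mul, wt_shift]
  have hwt : 0 ≤ wt (1 - b) t := by unfold wt; positivity
  have h1 : |Real.sin (Real.pi * (a * k + b))| ≤ 1 := Real.abs_sin_le_one _
  rw [abs_of_nonneg (mul_nonneg hwt (by positivity))]
  have h2 : Real.exp (-(a * t)) ^ k ≤ Real.exp (-(a * x)) ^ k := by
    refine pow_le_pow_left₀ (Real.exp_pos _).le ?_ k
    exact Real.exp_le_exp.mpr (by nlinarith)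
  calc ‖w‖ ^ k * (|Real.sin (Real.pi * (a * k + b))| * (wt (1 - b) t * Real.exp (-(a * t)) ^ k))
      ≤ ‖w‖ ^ k * (1 * (wt (1 - b) t * Real.exp (-(a * x)) ^ k)) := by
        gcongr
    _ = _ := by rw [mul_pow]; ring

end SER

open SER in
theorem t_SER : S_HK → S_SER := by
  intro hHK a b w ha hb x hw
  have hpi : (Real.pi : ℂ) ≠ 0 := by exact_mod_cast Real.pi_ne_zero
  set q : ℝ := ‖w‖ * Real.exp (-(a * x)) with hq
  have hq0 : 0 ≤ q := by rw [hq]; positivity
  have hq1 : q < 1 := by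
    rw [hq, Real.exp_neg, mul_inv_lt_iff₀ (Real.exp_pos _), one_mul]
    exact hw
  -- first series
  let f : ℕ → ℝ → ℂ := fun k θ => w ^ k * (Complex.exp (Complex.exp (x + θ * Complex.I)) *
        Complex.exp ((1 - ((a * k + b : ℝ) : ℂ)) * (x + θ * Complex.I)))
  have hnormf : ∀ k θ, ‖f k θ‖ ≤ q ^ k * (Real.exp (Real.exp x) * Real.exp ((1 - b) * x)) := by
    intro k θ
    simp only [f]
    rw [norm_mul, norm_mul, norm_pow, Complex.norm_exp, Complex.norm_exp]
    have h1 : (Complex.exp ((x : ℂ) + θ * Complex.I)).re ≤ Real.exp x := by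
      refine (Complex.re_le_norm _).trans (le_of_eq ?_)
      rw [Complex.norm_exp]
      simp
    have h2 : ((1 - ((a * k + b : ℝ) : ℂ)) * ((x : ℂ) + θ * Complex.I)).re
        = (1 - (a * k + b)) * x := by
      simp [Complex.mul_re, Complex.sub_re, Complex.sub_im]
    rw [h2]
    have h3 : Real.exp ((1 - (a * k + b)) * x) = Real.exp (-(a * x)) ^ k *
        Real.exp ((1 - b) * x) := by
      rw [← Real.exp_nat_mul, ← Real.exp_add]
      congr 1
      ring
    rw [h3]
    calc ‖w‖ ^ k * (Real.exp (Complex.exp ((x : ℂ) + θ * Complex.I)).re *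
          (Real.exp (-(a * x)) ^ k * Real.exp ((1 - b) * x)))
        ≤ ‖w‖ ^ k * (Real.exp (Real.exp x) *
          (Real.exp (-(a * x)) ^ k * Real.exp ((1 - b) * x))) := by
          gcongr
      _ = _ := by rw [hq, mul_pow]; ring
  have hfsum : ∀ θ : ℝ, HasSum (fun k => f k θ) (A a b w (x + θ * Complex.I)) := by
    intro θ
    set ζ : ℂ := (x : ℂ) + θ * Complex.I with hζ
    have hn : ‖w * Complex.exp (-(a * ζ))‖ < 1 := by
      rw [norm_mul, Complex.norm_exp]
      have : (-((a : ℂ) * ζ)).re = -(a * x) := by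
        simp [hζ]
      rw [this]
      exact hq1
    have h1 := (hasSum_geometric_of_norm_lt_one hn).mul_left
      (Complex.exp (Complex.exp ζ) * Complex.exp ((1 - b : ℂ) * ζ))
    refine hs_congr h1 (fun k => ?_) ?_
    · simp only [f]
      rw [mul_pow, ← Complex.exp_nat_mul]
      have h2 : Complex.exp ((1 - ((a * k + b : ℝ) : ℂ)) * ζ)
          = Complex.exp ((1 - b : ℂ) * ζ) * Complex.exp ((k : ℂ) * (-(a * ζ))) := by
        rw [← Complex.exp_add]
        congr 1
        push_cast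
        ring
      rw [h2]
      ring
    · unfold A
      have hne : Complex.exp (a * ζ) ≠ 0 := Complex.exp_ne_zero _
      have h3 : 1 - w * Complex.exp (-(a * ζ)) = (Complex.exp (a * ζ) - w) /
          Complex.exp (a * ζ) := by
        rw [Complex.exp_neg]
        field_simp
      rw [h3, inv_div, mul_div_assoc]
  have hI1 : HasSum (fun k : ℕ => ∫ θ in (-Real.pi)..Real.pi, f k θ)
      (∫ θ in (-Real.pi)..Real.pi, A a b w (x + θ * Complex.I)) := by
    refine intervalIntegral.hasSum_integral_of_dominated_convergence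
      (fun (k : ℕ) (_ : ℝ) => q ^ k * (Real.exp (Real.exp x) * Real.exp ((1 - b) * x)))
      ?_ ?_ ?_ ?_ ?_
    · intro k
      refine Continuous.aestronglyMeasurable ?_
      simp only [f]
      fun_prop
    · intro k
      exact Filter.Eventually.of_forall fun θ _ => hnormf k θ
    · exact Filter.Eventually.of_forall fun θ _ =>
        (summable_geometric_of_lt_one hq0 hq1).mul_right _
    · exact intervalIntegrable_const
    · exact Filter.Eventually.of_forall fun θ _ => hfsum θ
  have hmv : HasSum (fun k : ℕ => w ^ k * ((1 / (2 * Real.pi) : ℂ) *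
      ∫ θ in (-Real.pi)..Real.pi, Complex.exp (Complex.exp (x + θ * Complex.I)) *
        Complex.exp ((1 - ((a * k + b : ℝ) : ℂ)) * (x + θ * Complex.I)))) (mv (A a b w) x) := by
    have h1 := hI1.mul_left (1 / (2 * Real.pi) : ℂ)
    unfold mv
    refine hs_congr h1 (fun k => ?_) rfl
    simp only [f]
    rw [intervalIntegral.integral_const_mul]
    ring
  -- second series
  have hI2 : HasSum (fun k : ℕ => ∫ t in Ioi x, Fk a b w k t) (∫ t in Ioi x, -(Jf a b w t)) := by
    have hFint : ∀ k, Integrable (fun t => Fk a b w k t) (volume.restrict (Ioi x)) := by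
      intro k
      unfold Fk
      refine Integrable.const_mul ?_ _
      exact ((wt_int (1 - (a * k + b)) x).const_mul _).ofReal
    have hsumm : Summable (fun k => ∫ t in Ioi x, ‖Fk a b w k t‖) := by
      refine Summable.of_nonneg_of_le (fun k => by positivity) (fun k => ?_)
        ((summable_geometric_of_lt_one hq0 hq1).mul_right (∫ t in Ioi x, wt (1 - b) t))
      rw [← integral_const_mul]
      refine setIntegral_mono_on (hFint k).norm ((wt_int (1 - b) x).const_mul _)
        measurableSet_Ioi ?_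
      intro t ht
      exact norm_Fk a b x w ha t ht k
    have h1 := hasSum_integral_of_summable_integral_norm hFint hsumm
    have h2 : ∫ t in Ioi x, ∑' k, Fk a b w k t = ∫ t in Ioi x, -(Jf a b w t) := by
      refine setIntegral_congr_fun measurableSet_Ioi ?_
      intro t ht
      exact (hasSum_Fk a b x w ha hw t ht).tsum_eq
    rw [h2] at h1
    exact h1
  rw [integral_neg] at hI2
  -- combine
  have hcomb := hmv.add (hI2.mul_left (1 / Real.pi : ℂ))
  have hE : HasSum (fun k : ℕ => w ^ k / ((Real.Gamma (a * k + b) : ℝ) : ℂ))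
      (mv (A a b w) x + (1 / Real.pi : ℂ) * -∫ t in Ioi x, Jf a b w t) := by
    refine hs_congr hcomb (fun k => ?_) rfl
    have hpos : 0 < a * (k : ℝ) + b := by positivity
    have hk := hHK (a * k + b) x hpos
    unfold h at hk
    have h1 : (1 / (2 * Real.pi) : ℂ) * (∫ θ in (-Real.pi)..Real.pi,
        Complex.exp (Complex.exp (x + θ * Complex.I)) *
        Complex.exp ((1 - ((a * k + b : ℝ) : ℂ)) * (x + θ * Complex.I)))
        = ((1 / Real.Gamma (a * k + b) : ℝ) : ℂ) - (((Real.sin (Real.pi * (a * k + b)) / Real.pi) *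
          ∫ t in Set.Ioi x, wt (1 - (a * k + b)) t : ℝ) : ℂ) := by
      rw [← hk]
      ring
    rw [h1]
    have h2 : ∫ t in Ioi x, Fk a b w k t = w ^ k * ((Real.sin (Real.pi * (a * k + b)) *
        ∫ t in Set.Ioi x, wt (1 - (a * k + b)) t : ℝ) : ℂ) := by
      unfold Fk
      rw [integral_const_mul, integral_complex_ofReal, integral_const_mul]
    rw [h2]
    push_cast
    field_simp
    ring
  have hEE : E a b w = mv (A a b w) x + (1 / Real.pi : ℂ) * -∫ t in Ioi x, Jf a b w t :=
    hE.tsum_eq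
  rw [hEE]
  ring

end R833.ML
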