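import Mathlib
import Pool.Agent.R833.ML.Defs

set_option autoImplicit false

namespace R833.ML.SUM

open MeasureTheory R833.ML Filter

/-- Summability of the Mittag-Leffler series. -/
def S_SUM : Prop := ∀ (a b : ℝ) (z : ℂ), 0 < a → 0 < b →
  Summable (fun k : ℕ => z ^ k / ((Real.Gamma (a * k + b) : ℝ) : ℂ))

theorem Gamma_lower (R x : ℝ) (hR : 0 < R) (hx : 1 ≤ x) :
    R ^ (x - 1) * Real.exp (-R) ≤ Real.Gamma x := by
  have hx0 : 0 < x := by linarith
  rw [Real.Gamma_eq_integral hx0]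
  have hint := Real.GammaIntegral_convergent hx0
  have h1 : ∫ t in Set.Ioi R, Real.exp (-t) * t ^ (x - 1)
      ≤ ∫ t in Set.Ioi (0:ℝ), Real.exp (-t) * t ^ (x - 1) := by
    apply setIntegral_mono_set hint
    · filter_upwards [ae_restrict_mem measurableSet_Ioi] with t ht
      have : (0:ℝ) < t := ht
      positivity
    · exact (Set.Ioi_subset_Ioi hR.le).eventuallyLE
  have h2 : ∫ t in Set.Ioi R, R ^ (x - 1) * Real.exp (-t)
      ≤ ∫ t in Set.Ioi R, Real.exp (-t) * t ^ (x - 1) := by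
    apply setIntegral_mono_on
    · apply Integrable.const_mul
      exact integrableOn_exp_neg_Ioi R
    · exact hint.mono_set (Set.Ioi_subset_Ioi hR.le)
    · exact measurableSet_Ioi
    · intro t ht
      have ht' : R < t := ht
      have : R ^ (x - 1) ≤ t ^ (x - 1) := Real.rpow_le_rpow hR.le ht'.le (by linarith)
      rw [mul_comm]
      exact mul_le_mul_of_nonneg_left this (Real.exp_pos _).le
  have h3 : ∫ t in Set.Ioi R, R ^ (x - 1) * Real.exp (-t) = R ^ (x - 1) * Real.exp (-R) := by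
    rw [integral_const_mul, integral_exp_neg_Ioi]
  linarith

theorem t_SUM : S_SUM := by
  intro a b z ha hb
  -- choose R with R ^ a > 2 ‖z‖
  have hlim : Tendsto (fun R : ℝ => R ^ a) atTop atTop := tendsto_rpow_atTop ha
  obtain ⟨R, hR0, hR⟩ := ((eventually_gt_atTop (0:ℝ)).and
    (hlim.eventually_ge_atTop (2 * ‖z‖))).exists
  have hRa : 0 < R ^ a := Real.rpow_pos_of_pos hR0 a
  -- eventually `a k + b ≥ 1`
  have hk : ∀ᶠ k : ℕ in atTop, 1 ≤ a * (k : ℝ) + b := by
    have : Tendsto (fun k : ℕ => a * (k : ℝ) + b) atTop atTop := by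
      apply tendsto_atTop_add_const_right
      exact tendsto_natCast_atTop_atTop.const_mul_atTop ha
    exact this.eventually_ge_atTop 1
  have hgeo : Summable (fun k : ℕ => (Real.exp R * R ^ (1 - b)) * (1 / 2 : ℝ) ^ k) :=
    (summable_geometric_of_lt_one (by norm_num) (by norm_num)).mul_left _
  apply Summable.of_norm_bounded_eventually_nat hgeo
  filter_upwards [hk] with k hk1
  have hG := Gamma_lower R (a * k + b) hR0 hk1
  have hGpos : 0 < Real.Gamma (a * k + b) := Real.Gamma_pos_of_pos (by linarith)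
  rw [norm_div, norm_pow, Complex.norm_real, Real.norm_eq_abs, abs_of_pos hGpos]
  rw [div_le_iff₀ hGpos]
  have h1 : ‖z‖ ^ k ≤ (1 / 2 : ℝ) ^ k * R ^ (a * k) := by
    have : ‖z‖ ≤ (1 / 2) * R ^ a := by linarith
    calc ‖z‖ ^ k ≤ ((1 / 2) * R ^ a) ^ k := pow_le_pow_left₀ (norm_nonneg _) this k
      _ = (1 / 2 : ℝ) ^ k * R ^ (a * k) := by
        rw [mul_pow, Real.rpow_mul hR0.le, Real.rpow_natCast]
  have h2 : R ^ (a * k) = R ^ (1 - b) * R ^ (a * k + b - 1) := by
    rw [← Real.rpow_add hR0]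
    congr 1
    ring
  have h3 : Real.exp R * Real.exp (-R) = 1 := by
    rw [← Real.exp_add]; simp
  have hpos : 0 ≤ Real.exp R * R ^ (1 - b) * (1 / 2 : ℝ) ^ k := by positivity
  calc ‖z‖ ^ k ≤ (1 / 2 : ℝ) ^ k * R ^ (a * k) := h1
    _ = (Real.exp R * R ^ (1 - b) * (1 / 2 : ℝ) ^ k) *
          (R ^ (a * k + b - 1) * Real.exp (-R)) := by
        rw [h2]
        calc (1 / 2 : ℝ) ^ k * (R ^ (1 - b) * R ^ (a * k + b - 1))
            = (Real.exp R * Real.exp (-R)) *
              ((1 / 2 : ℝ) ^ k * (R ^ (1 - b) * R ^ (a * k + b - 1))) := by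
              rw [h3, one_mul]
          _ = _ := by ring
    _ ≤ (Real.exp R * R ^ (1 - b) * (1 / 2 : ℝ) ^ k) * Real.Gamma (a * k + b) :=
        mul_le_mul_of_nonneg_left hG hpos

end R833.ML.SUM
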