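import Pool.Agent.R833.ML.Defs
import Pool.Agent.Helper627.PM

/-! Project ML, piece TOP (helper207). -/

set_option autoImplicit false

namespace R833.ML.TOP

open R833.ML Set

theorem cos_lb (θ : ℝ) (h : θ ∈ Icc (-(Real.pi / 4)) (Real.pi / 4)) : 7 / 10 ≤ Real.cos θ := by
  have h1 : |θ| ≤ Real.pi / 4 := abs_le.2 ⟨h.1, h.2⟩
  have h2 := Real.cos_le_cos_of_nonneg_of_le_pi (abs_nonneg θ)
    (by linarith [Real.pi_pos]) h1
  rw [Real.cos_abs, Real.cos_pi_div_four] at h2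
  have h3 : (7 / 5 : ℝ) ≤ Real.sqrt 2 := Real.le_sqrt_of_sq_le (by norm_num)
  linarith

theorem t_TOP : S_TOP := by
  intro α₀ α₁ P δ hα hP hδ hb h0 h1
  have hpi := Real.pi_pos
  have hup : ∀ q ∈ Icc α₀ α₁ ×ˢ Icc (-(Real.pi / 4)) (Real.pi / 4),
      |(δ q).re| ≤ 1 / 4 ∧ |(δ q).im| ≤ 1 / 4 := fun q hq =>
    ⟨(Complex.abs_re_le_norm _).trans (hb q hq).2, (Complex.abs_im_le_norm _).trans (hb q hq).2⟩
  have hre : ContinuousOn (fun q => (δ q).re) (Icc α₀ α₁ ×ˢ Icc (-(Real.pi / 4)) (Real.pi / 4)) :=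
    Complex.continuous_re.comp_continuousOn hδ
  have him : ContinuousOn (fun q => (δ q).im) (Icc α₀ α₁ ×ˢ Icc (-(Real.pi / 4)) (Real.pi / 4)) :=
    Complex.continuous_im.comp_continuousOn hδ
  have hcos : ContinuousOn (fun q : ℝ × ℝ => Real.cos q.2)
      (Icc α₀ α₁ ×ˢ Icc (-(Real.pi / 4)) (Real.pi / 4)) :=
    (Real.continuous_cos.comp continuous_snd).continuousOn
  have hsin : ContinuousOn (fun q : ℝ × ℝ => Real.sin q.2)
      (Icc α₀ α₁ ×ˢ Icc (-(Real.pi / 4)) (Real.pi / 4)) :=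
    (Real.continuous_sin.comp continuous_snd).continuousOn
  obtain ⟨α, hα', θ, hθ, e1, e2⟩ := Pool.Agent.Helper627.PM.poincare_miranda α₀ α₁
    (-(Real.pi / 4)) (Real.pi / 4) hα (by linarith)
    (fun q => P q * ((1 + (δ q).re) * Real.sin q.2 - (δ q).im * Real.cos q.2))
    (fun q => P q * ((1 + (δ q).re) * Real.cos q.2 + (δ q).im * Real.sin q.2) -
      ((1 + (δ q).re) ^ 2 + (δ q).im ^ 2))
    (hP.mul (((continuousOn_const.add hre).mul hsin).sub (him.mul hcos)))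
    ((hP.mul (((continuousOn_const.add hre).mul hcos).add (him.mul hsin))).sub
      (((continuousOn_const.add hre).pow 2).add (him.pow 2)))
    (fun θ hθ => by
      have hq : (α₀, θ) ∈ Icc α₀ α₁ ×ˢ Icc (-(Real.pi / 4)) (Real.pi / 4) :=
        ⟨⟨le_rfl, hα⟩, hθ⟩
      obtain ⟨hu, hv⟩ := hup _ hq
      rw [abs_le] at hu hv
      have hp0 := (hb _ hq).1
      have hp1 := h0 θ hθ
      have hc1 := Real.cos_le_one θ
      have hc0 := cos_lb θ hθ
      have hs1 := Real.sin_le_one θ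
      have hs2 := Real.neg_one_le_sin θ
      show P (α₀, θ) * ((1 + (δ (α₀, θ)).re) * Real.cos θ + (δ (α₀, θ)).im * Real.sin θ) -
        ((1 + (δ (α₀, θ)).re) ^ 2 + (δ (α₀, θ)).im ^ 2) < 0
      have hA : (1 + (δ (α₀, θ)).re) * Real.cos θ + (δ (α₀, θ)).im * Real.sin θ ≤ 3 / 2 := by
        have e1 : (1 + (δ (α₀, θ)).re) * Real.cos θ ≤ 5 / 4 := by nlinarith
        have e2 : (δ (α₀, θ)).im * Real.sin θ ≤ 1 / 4 := by
          have := abs_le.2 hv
          have h3 : |(δ (α₀, θ)).im * Real.sin θ| ≤ 1 / 4 * 1 := by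
            rw [abs_mul]
            exact mul_le_mul this (abs_le.2 ⟨hs2, hs1⟩) (abs_nonneg _) (by norm_num)
          linarith [le_abs_self ((δ (α₀, θ)).im * Real.sin θ)]
        linarith
      nlinarith)
    (fun θ hθ => by
      have hq : (α₁, θ) ∈ Icc α₀ α₁ ×ˢ Icc (-(Real.pi / 4)) (Real.pi / 4) :=
        ⟨⟨hα, le_rfl⟩, hθ⟩
      obtain ⟨hu, hv⟩ := hup _ hq
      rw [abs_le] at hu hv
      have hp1 := h1 θ hθ
      have hc1 := Real.cos_le_one θ
      have hc0 := cos_lb θ hθ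
      have hs1 := Real.sin_le_one θ
      have hs2 := Real.neg_one_le_sin θ
      show 0 < P (α₁, θ) * ((1 + (δ (α₁, θ)).re) * Real.cos θ + (δ (α₁, θ)).im * Real.sin θ) -
        ((1 + (δ (α₁, θ)).re) ^ 2 + (δ (α₁, θ)).im ^ 2)
      have hA : 1 / 4 ≤ (1 + (δ (α₁, θ)).re) * Real.cos θ + (δ (α₁, θ)).im * Real.sin θ := by
        have e1 : 21 / 40 ≤ (1 + (δ (α₁, θ)).re) * Real.cos θ := by nlinarith
        have e2 : -(1 / 4) ≤ (δ (α₁, θ)).im * Real.sin θ := by
          have := abs_le.2 hv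
          have h3 : |(δ (α₁, θ)).im * Real.sin θ| ≤ 1 / 4 * 1 := by
            rw [abs_mul]
            exact mul_le_mul this (abs_le.2 ⟨hs2, hs1⟩) (abs_nonneg _) (by norm_num)
          linarith [neg_abs_le ((δ (α₁, θ)).im * Real.sin θ)]
        linarith
      have hB : (1 + (δ (α₁, θ)).re) ^ 2 + (δ (α₁, θ)).im ^ 2 ≤ 13 / 8 := by nlinarith
      nlinarith)
    (fun α hα' => by
      have hq : (α, -(Real.pi / 4)) ∈ Icc α₀ α₁ ×ˢ Icc (-(Real.pi / 4)) (Real.pi / 4) :=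
        ⟨hα', ⟨le_rfl, by linarith⟩⟩
      obtain ⟨hu, hv⟩ := hup _ hq
      rw [abs_le] at hu hv
      have hp0 := (hb _ hq).1
      show P (α, -(Real.pi / 4)) * ((1 + (δ (α, -(Real.pi / 4))).re) * Real.sin (-(Real.pi / 4)) -
        (δ (α, -(Real.pi / 4))).im * Real.cos (-(Real.pi / 4))) < 0
      rw [Real.sin_neg, Real.cos_neg, Real.sin_pi_div_four, Real.cos_pi_div_four]
      have hs : 0 < Real.sqrt 2 := Real.sqrt_pos.2 (by norm_num)
      have e : (1 + (δ (α, -(Real.pi / 4))).re) * -(Real.sqrt 2 / 2) -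
          (δ (α, -(Real.pi / 4))).im * (Real.sqrt 2 / 2) =
          -((1 + (δ (α, -(Real.pi / 4))).re + (δ (α, -(Real.pi / 4))).im) * (Real.sqrt 2 / 2)) := by
        ring
      rw [e]
      have : 0 < P (α, -(Real.pi / 4)) *
          ((1 + (δ (α, -(Real.pi / 4))).re + (δ (α, -(Real.pi / 4))).im) * (Real.sqrt 2 / 2)) :=
        mul_pos hp0 (mul_pos (by linarith) (by positivity))
      linarith)
    (fun α hα' => by
      have hq : (α, Real.pi / 4) ∈ Icc α₀ α₁ ×ˢ Icc (-(Real.pi / 4)) (Real.pi / 4) :=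
        ⟨hα', ⟨by linarith, le_rfl⟩⟩
      obtain ⟨hu, hv⟩ := hup _ hq
      rw [abs_le] at hu hv
      have hp0 := (hb _ hq).1
      show 0 < P (α, Real.pi / 4) * ((1 + (δ (α, Real.pi / 4)).re) * Real.sin (Real.pi / 4) -
        (δ (α, Real.pi / 4)).im * Real.cos (Real.pi / 4))
      rw [Real.sin_pi_div_four, Real.cos_pi_div_four]
      have hs : 0 < Real.sqrt 2 := Real.sqrt_pos.2 (by norm_num)
      have e : (1 + (δ (α, Real.pi / 4)).re) * (Real.sqrt 2 / 2) -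
          (δ (α, Real.pi / 4)).im * (Real.sqrt 2 / 2) =
          (1 + (δ (α, Real.pi / 4)).re - (δ (α, Real.pi / 4)).im) * (Real.sqrt 2 / 2) := by
        ring
      rw [e]
      exact mul_pos hp0 (mul_pos (by linarith) (by positivity)))
  have hq : (α, θ) ∈ Icc α₀ α₁ ×ˢ Icc (-(Real.pi / 4)) (Real.pi / 4) := ⟨hα', hθ⟩
  obtain ⟨hu, hv⟩ := hup _ hq
  rw [abs_le] at hu hv
  refine ⟨α, hα', θ, hθ, ?_⟩
  change P (α, θ) * ((1 + (δ (α, θ)).re) * Real.sin θ - (δ (α, θ)).im * Real.cos θ) = 0 at e1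
  change P (α, θ) * ((1 + (δ (α, θ)).re) * Real.cos θ + (δ (α, θ)).im * Real.sin θ) -
      ((1 + (δ (α, θ)).re) ^ 2 + (δ (α, θ)).im ^ 2) = 0 at e2
  have hw : (starRingEnd ℂ) (1 + δ (α, θ)) ≠ 0 := by
    intro h
    have h2 := congrArg Complex.re h
    simp at h2
    linarith
  refine mul_right_cancel₀ hw ?_
  apply Complex.ext
  · simp only [Complex.mul_re, Complex.mul_im, Complex.conj_re, Complex.conj_im, Complex.add_re,
      Complex.add_im, Complex.one_re, Complex.one_im, Complex.ofReal_re, Complex.ofReal_im,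
      Complex.exp_ofReal_mul_I_re, Complex.exp_ofReal_mul_I_im]
    linarith
  · simp only [Complex.mul_re, Complex.mul_im, Complex.conj_re, Complex.conj_im, Complex.add_re,
      Complex.add_im, Complex.one_re, Complex.one_im, Complex.ofReal_re, Complex.ofReal_im,
      Complex.exp_ofReal_mul_I_re, Complex.exp_ofReal_mul_I_im]
    linarith

end R833.ML.TOP
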