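import Pool.Agent.R833.ML.Defs
import Pool.Agent.R833.ML.GAM
import Pool.Agent.R833.ML.HK1
import Pool.Agent.R833.ML.HK2
import Pool.Agent.R833.ML.HK3
import Pool.Agent.R833.ML.HK
import Pool.Agent.R833.ML.RECT
import Pool.Agent.R833.ML.LIMB
import Pool.Agent.R833.ML.CIRC
import Pool.Agent.R833.ML.INTJ
import Pool.Agent.R833.ML.SER
import Pool.Agent.R833.ML.REPG
import Pool.Agent.R833.ML.TOP
import Pool.Agent.R833.ML.G1
import Pool.Agent.R833.ML.DEN1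
import Pool.Agent.R833.ML.SUM
import Pool.Agent.R833.ML.REP2
import Pool.Agent.R833.ML.EST2
import Pool.Agent.R833.ML.CONT2
import Pool.Agent.R833.ML.CONT3
import Pool.Agent.R833.ML.ALG2
import Pool.Agent.R833.ML.BD2
import Pool.Agent.R833.ML.POL2
import Pool.Agent.R833.ML.PA2
import Pool.Agent.R833.ML.FIN2

set_option autoImplicit false

namespace R833.ML

theorem all_HK : S_HK := t_HK t_HK1 (t_HK2 t_GAM) t_HK3

theorem all_REPG : S_REPG := t_REPG t_RECT t_LIMB CIRC.t_CIRC (t_SER all_HK) (t_INTJ t_GAM)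

theorem all_FIN2 : S_FIN2 :=
  t_FIN2 (t_ALG2 (t_REP2 all_REPG)) (t_BD2 (t_EST2 t_GAM t_DEN2 t_G2) t_G2)
    (t_CONT3 (t_CONT2 t_DEN2 t_GAM)) t_POL2 TOP.t_TOP t_PA2 (t_PB2 t_G2)

end R833.ML
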